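import Pool.Agent.Helper86.XS.Y8

set_option autoImplicit false

/-!
# Every scale
-/

open Finset Filter Topology

namespace Pool.Agent.Helper86.XS

open Pool.Agent.H807R2.Dav hiding KK
open Pool.Agent.Helper86.PS

lemma pow_three_small {x : ℝ} (hx : 0 ≤ x) (hx1 : x ≤ 1) (s : ℕ) : (3 + x) ^ s - 3 ^ s ≤ s * x * 4 ^ s := by
  induction s with
  | zero => simp
  | succ s ih =>
    have e1 : (3 + x) ^ (s + 1) - 3 ^ (s + 1) = (3 + x) * ((3 + x) ^ s - 3 ^ s) + x * 3 ^ s := by ring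
    rw [e1]
    have h0 : 0 ≤ (3 + x) ^ s - 3 ^ s := by
      have := pow_le_pow_left₀ (by norm_num : (0 : ℝ) ≤ 3) (by linarith : (3 : ℝ) ≤ 3 + x) s
      linarith
    have h1 : (3 + x) * ((3 + x) ^ s - 3 ^ s) ≤ 4 * (s * x * 4 ^ s) := mul_le_mul (by linarith) ih h0 (by norm_num)
    have h2 : (3 : ℝ) ^ s ≤ 4 ^ s := pow_le_pow_left₀ (by norm_num) (by norm_num) s
    have h3 : x * 3 ^ s ≤ x * 4 ^ s := mul_le_mul_of_nonneg_left h2 hx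
    have h4 : 0 ≤ x * 4 ^ s := by positivity
    push_cast
    calc (3 + x) * ((3 + x) ^ s - 3 ^ s) + x * 3 ^ s ≤ 4 * (s * x * 4 ^ s) + x * 4 ^ s := by linarith
      _ ≤ 4 * (s * x * 4 ^ s) + 4 * (x * 4 ^ s) := by linarith
      _ = (s + 1) * x * 4 ^ (s + 1) := by ring

lemma PSPX_mono {s A : ℕ} {ε δ : ℝ} {P P' : (Fin s → ℤ) → (Fin s → ℤ) → Prop} {N : ℕ} (h : ∀ a h, P a h → P' a h)
    (hP : PSPX s A ε δ P' N) : PSPX s A ε δ P N := by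
  intro a ha
  obtain ⟨E, hE1, hE2⟩ := hP a ha
  exact ⟨E, hE1, fun g hg hne hadm hPg => hE2 g hg hne hadm (h a g hPg)⟩

lemma PSPX_eps {s A : ℕ} {ε ε0 δ : ℝ} {P : (Fin s → ℤ) → (Fin s → ℤ) → Prop} {N : ℕ} (h0 : 0 < ε0) (h : ε0 ≤ ε)
    (hP : PSPX s A ε0 δ P N) : PSPX s A ε δ P N := by
  intro a ha
  obtain ⟨E, hE1, hE2⟩ := hP a ha
  refine ⟨E, hE1, fun g hg hne hadm hPg => ?_⟩
  obtain ⟨S, hS, hS2⟩ := hE2 g hg hne hadm hPg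
  refine ⟨S, hS, fun u v hu hv hW hpos => ?_⟩
  have h1 := hS2 u v hu hv hW hpos
  refine h1.trans ?_
  have h2 : 0 ≤ ε0 * (S * (((v - u : ℤ) : ℝ) / Real.log N ^ s)) := (abs_nonneg _).trans h1
  have h3 : 0 ≤ S * (((v - u : ℤ) : ℝ) / Real.log N ^ s) := nonneg_of_mul_nonneg_right h2 h0
  exact mul_le_mul_of_nonneg_right h h3

/-- the parameter attached to a scale -/
lemma exists_Q {L1 Q0 N : ℕ} (hL1 : 1 ≤ L1) (hQ0 : 2 ≤ Q0) (hN : Q0 ^ L1 ≤ N) :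
    ∃ Q : ℕ, Q0 ≤ Q ∧ Q ^ L1 ≤ N ∧ N ≤ Q ^ (2 * L1) := by
  obtain ⟨Q, hQ⟩ : ∃ Q : ℕ, Q = Nat.findGreatest (fun Q => Q ^ L1 ≤ N) N := ⟨_, rfl⟩
  have h0 : Q0 ≤ N := (Nat.le_self_pow (by omega) Q0).trans hN
  have h1 : Q0 ≤ Q := by rw [hQ]; exact Nat.le_findGreatest h0 hN
  have h2 : Q ^ L1 ≤ N := by rw [hQ]; exact Nat.findGreatest_spec (P := fun Q => Q ^ L1 ≤ N) h0 hN
  refine ⟨Q, h1, h2, ?_⟩
  rcases Nat.lt_or_ge N (Q + 1) with h3 | h3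
  · calc N ≤ Q := by omega
      _ ≤ Q ^ (2 * L1) := Nat.le_self_pow (by omega) Q
  · have h4 : ¬ (Q + 1) ^ L1 ≤ N := by
      apply Nat.findGreatest_is_greatest (P := fun Q => Q ^ L1 ≤ N) _ h3
      rw [← hQ]
      exact Nat.lt_succ_self Q
    have h5 : (Q + 1) ^ L1 ≤ Q ^ (2 * L1) := by
      rw [pow_mul]
      apply Nat.pow_le_pow_left
      nlinarith
    omega

/-- **the asymptotic formula at every scale**, with at most one exceptional modulus -/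
theorem every (s : ℕ) (hs : 1 ≤ s) (A : ℕ) (hA : 1 ≤ A) {ε : ℝ} (hε : 0 < ε) :
    ∃ D : ℕ, 0 < D ∧ ∃ δ : ℝ, 0 < δ ∧ ∀ B : ℕ, ∃ N0 : ℕ, ∀ N : ℕ, N0 ≤ N → ∃ r : ℕ, Real.log N ^ B ≤ r ∧
      PSPX s A ε δ (fun a h => ¬ (r : ℤ) ∣ (D : ℤ) * Del a h) N := by
  classical
  have hsr : (1 : ℝ) ≤ s := by exact_mod_cast hs
  obtain ⟨ε0, hε0d⟩ : ∃ ε0 : ℝ, ε0 = min ε 1 := ⟨_, rfl⟩
  have hε00 : 0 < ε0 := by rw [hε0d]; exact lt_min hε one_pos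
  have hε01 : ε0 ≤ 1 := by rw [hε0d]; exact min_le_right _ _
  have hε0ε : ε0 ≤ ε := by rw [hε0d]; exact min_le_left _ _
  obtain ⟨E1, hE1⟩ := short_X
  obtain ⟨E2, hE2⟩ := unique_exc
  obtain ⟨E3, hE3⟩ := small_level
  obtain ⟨E, hE⟩ : ∃ E : ℕ, E = E1 + E2 + E3 := ⟨_, rfl⟩
  obtain ⟨ε', hε'⟩ : ∃ ε' : ℝ, ε' = ε0 / (80 * s * 4 ^ s) := ⟨_, rfl⟩
  have h4s : (1 : ℝ) ≤ 4 ^ s := one_le_pow₀ (by norm_num)
  have hε'0 : 0 < ε' := by rw [hε']; positivity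
  have hε'1 : ε' ≤ 1 := by
    rw [hε', div_le_one (by positivity)]
    have : 1 ≤ (s : ℝ) * 4 ^ s := one_le_mul_of_one_le_of_one_le hsr h4s
    linarith
  have hpow : (3 + ε') ^ s - 3 ^ s ≤ ε0 / 80 := by
    refine (pow_three_small hε'0.le hε'1 s).trans (le_of_eq ?_)
    rw [hε']
    field_simp
  obtain ⟨L0, Q1, hQ1⟩ := hE1 E (by omega) ε' hε'0
  obtain ⟨k1, hk1⟩ := exists_nat_ge (160 * (s : ℝ) / ε0)
  obtain ⟨L1, hL1⟩ : ∃ L1 : ℕ, L1 = lE s + k1 + L0 + 6 := ⟨_, rfl⟩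
  obtain ⟨L2, hL2⟩ : ∃ L2 : ℕ, L2 = 2 * L1 := ⟨_, rfl⟩
  have hL1κ : 160 * (s : ℝ) ≤ ε0 * L1 := by
    have h1 : (k1 : ℝ) ≤ L1 := by exact_mod_cast (by omega : k1 ≤ L1)
    have h2 := hk1.trans h1
    rw [div_le_iff₀ hε00] at h2
    linarith
  obtain ⟨Q2, hQ2⟩ := fixed_scaleX s hs A hA hε00 hε01 L1 L2 (by omega) hL1κ (by omega)
  obtain ⟨Q3, hQ3⟩ := hx_of_short (L0 := L0) (L2 := L2 + 1)
  obtain ⟨kk, hkk⟩ := exists_nat_ge ((4 * (s : ℝ) / (ε0 / 10 / (8 * 3 ^ s))) ^ 2)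
  obtain ⟨K0, hK0⟩ : ∃ K0 : ℕ, K0 = 8 + 2 * s + A + kk := ⟨_, rfl⟩
  have hKρ : (4 * (s : ℝ) / (ε0 / 10 / (8 * 3 ^ s))) ^ 2 ≤ K0 :=
    hkk.trans (by exact_mod_cast (by omega : kk ≤ K0))
  refine ⟨K0.factorial, Nat.factorial_pos K0, 1 / (64 * L2), by
    have : (0 : ℝ) < L2 := by exact_mod_cast (by omega : 0 < L2)
    positivity, fun B => ?_⟩
  obtain ⟨Q4, hQ4⟩ := hE3 E (by omega) 44 (by norm_num) (B + 1)
  obtain ⟨Q5, hQ5⟩ := exists_nat_ge (Real.exp ((2 * (L1 : ℝ)) ^ B))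
  obtain ⟨Qa, hQa⟩ : ∃ Qa : ℕ, Qa = Q1 + Q2 + Q3 + Q4 + Q5 + 4 * A + 3 := ⟨_, rfl⟩
  refine ⟨Qa ^ L1, fun N hN => ?_⟩
  obtain ⟨Q, hQQ, hN1, hN2⟩ := exists_Q (by omega) (by omega) hN
  rw [← hL2] at hN2
  have hQ3n : 3 ≤ Q := by omega
  have hQ3r : (3 : ℝ) ≤ Q := by exact_mod_cast hQ3n
  have hQ0 : (0 : ℝ) < Q := by linarith
  obtain ⟨X, hX⟩ : ∃ X : Finset PC, X = (fam Q).filter (fun j => ¬ NX 44 E Q j.2) := ⟨_, rfl⟩
  have hX1 : X ⊆ fam Q := by rw [hX]; exact filter_subset _ _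
  have hXe : ∀ j ∈ X, j ∈ fam Q ∧ ¬ NX 44 E Q j.2 := by
    intro j hj
    rw [hX, mem_filter] at hj
    exact hj
  have hX2 : X.card ≤ 1 := card_le_one.2 fun j hj l hl =>
    hE2 E (by omega) 44 Q (by norm_num) hQ3n j (hXe j hj).1 l (hXe l hl).1 (hXe j hj).2 (hXe l hl).2
  have hX3 : ∀ j ∈ X, j.2 ≠ 1 ∧ j.2 ^ 2 = 1 := by
    intro j hj
    have h1 := (hXe j hj).2
    unfold NX at h1
    push Not at h1
    exact ⟨h1.1, h1.2.1⟩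
  obtain ⟨b, hb0, hbs, hb⟩ := hQ1 Q (by omega)
  have hNM : N ≤ (4 * A + 1) * N := by nlinarith [Nat.zero_le A]
  have hw := hQ3 Q (by omega) X hX1 hX2 (fun j hj => (hX3 j hj).1) b hb0 (hbs.trans hε'1) (by
    intro j hj hjX
    apply hb j hj
    by_contra hc
    apply hjX
    rw [hX, mem_filter]
    exact ⟨hj, hc⟩) ((4 * A + 1) * N)
    (((Nat.pow_le_pow_right (by omega) (by omega : L0 + 6 ≤ L1)).trans hN1).trans hNM) (by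
      calc (4 * A + 1) * N ≤ Q * Q ^ L2 := Nat.mul_le_mul (by omega) hN2
        _ = Q ^ (L2 + 1) := by ring)
  have hp := hQ2 Q (by omega) N hN1 hN2 b X hw (fun j hj => (hX3 j hj).2) ε' hbs hpow hε'1 K0 (by omega) (by omega)
    (by omega) hKρ
  have hp' := PSPX_eps hε00 hε0ε hp
  rcases X.eq_empty_or_nonempty with hXE | hXne
  · obtain ⟨r, hr⟩ := exists_nat_ge (Real.log N ^ B)
    refine ⟨r, hr, PSPX_mono (fun a h _ => ?_) hp'⟩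
    intro j hj
    rw [hXE] at hj
    exact absurd hj (notMem_empty j)
  · obtain ⟨j1, hj1⟩ := hXne
    refine ⟨j1.1 + 1, ?_, PSPX_mono (fun a h hnd => ?_) hp'⟩
    · obtain ⟨ℓ, hℓ⟩ : ∃ ℓ : ℝ, ℓ = Real.log Q := ⟨_, rfl⟩
      have hlev : Real.log Q ^ (B + 1) ≤ ((j1.1 + 1 : ℕ) : ℝ) := by
        by_contra hc
        push Not at hc
        have hprim := (mem_fam.1 (hXe j1 hj1).1).2
        exact (hXe j1 hj1).2 (hQ4 Q (by omega) (j1.1 + 1) hc.le j1.2 hprim)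
      have hN0 : (0 : ℝ) < N := by
        have : 0 < N := lt_of_lt_of_le (by positivity) hN1
        exact_mod_cast this
      have hlN : Real.log N ≤ 2 * L1 * ℓ := by
        have h1 : Real.log N ≤ Real.log ((Q : ℝ) ^ L2) := Real.log_le_log hN0 (by exact_mod_cast hN2)
        rw [Real.log_pow, ← hℓ, hL2] at h1
        push_cast at h1
        exact h1
      have hℓ2 : (2 * (L1 : ℝ)) ^ B ≤ ℓ := by
        rw [hℓ, Real.le_log_iff_exp_le hQ0]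
        exact hQ5.trans (by exact_mod_cast (by omega : Q5 ≤ Q))
      have hℓ0 : 0 ≤ ℓ := le_trans (by positivity) hℓ2
      calc Real.log N ^ B ≤ (2 * L1 * ℓ) ^ B := pow_le_pow_left₀ (Real.log_natCast_nonneg N) hlN B
        _ = (2 * (L1 : ℝ)) ^ B * ℓ ^ B := by rw [mul_pow]
        _ ≤ ℓ * ℓ ^ B := mul_le_mul_of_nonneg_right hℓ2 (by positivity)
        _ = ℓ ^ (B + 1) := by ring
        _ ≤ _ := by rw [hℓ]; exact hlev
    · intro j hj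
      have : j = j1 := card_le_one.1 hX2 j hj j1 hj1
      rw [this]
      exact hnd

end Pool.Agent.Helper86.XS
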