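import Pool.Agent.Helper86.XS.Y5

set_option autoImplicit false

/-!
# The main term with an exceptional character, parameters fixed
-/

open Finset

namespace Pool.Agent.Helper86.XS

open Pool.Agent.H807R2.Dav Pool.Agent.Helper86.PS

lemma mu_X {s : ℕ} (hs : 1 ≤ s) {Z : ℝ} (hZ : ∀ T : Finset ℕ, ∑ p ∈ T, (p : ℝ) ^ (-(3 / 2) : ℝ) ≤ Z)
    {a h : Fin s → ℤ} (ha : ∀ i, a i ≠ 0) (hΔ : Del a h ≠ 0) {Q R : ℕ} (hR : 1 ≤ R) (hQR : Q ≤ R) {A : ℕ}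
    (haA : ∀ i, |a i| ≤ A) {X : Finset PC} (hX1 : X ⊆ fam Q) (hXc : X.card ≤ 1) (hX2 : ∀ j ∈ X, j.2 ^ 2 = 1)
    {ρ : ℝ} (hρ : 0 < ρ) {K : ℕ} (hK8 : 8 ≤ K) (hKs : 2 * s ≤ K) (hKA : A ≤ K) (hKρ : (4 * s / ρ) ^ 2 ≤ K)
    (hnd : ∀ j ∈ X, ¬ ((j.1 + 1 : ℕ) : ℤ) ∣ (K.factorial : ℤ) * Del a h) :
    ∀ j ∈ FT_ s Q, (∀ i, j i ≠ (⟨0, 1⟩ : PC) → j i ∈ X) → (∃ i, j i ∈ X) →
      ‖mu R a h j‖ ≤ ρ * SPR R a h + tau s Q R (∏ i, (a i).natAbs) Z (Del a h).natAbs := by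
  intro j hj hall hex
  obtain ⟨i0, hi0⟩ := hex
  obtain ⟨j1, hj1⟩ : ∃ j1 : PC, j1 = j i0 := ⟨_, rfl⟩
  rw [← hj1] at hi0
  have heq : ∀ l ∈ X, l = j1 := fun l hl => card_le_one.1 hXc l hl j1 hi0
  have hmem := hX1 hi0
  rw [mem_fam] at hmem
  obtain ⟨p, hp, hKp, hpn, hpn2, hpΔ⟩ := big_prime (n := j1.1 + 1) hK8 hmem.2 (hX2 j1 hi0) (hnd j1 hi0)
  have hpa : ∀ i, ¬ (p : ℤ) ∣ a i := by
    intro i hc
    have h1 := Int.le_of_dvd (abs_pos.2 (ha i)) ((dvd_abs _ _).2 hc)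
    have h2 := haA i
    have h3 : (p : ℤ) ≤ A := h1.trans h2
    have h4 : p ≤ A := by exact_mod_cast h3
    omega
  have h1 := mean_X hs (R := R) (p := p) (a := a) (h := h) (j := j) (j1 := j1) (by
    intro i
    by_cases hi : j i = (⟨0, 1⟩ : PC)
    · exact Or.inl hi
    · exact Or.inr (heq _ (hall i hi))) ⟨i0, hj1.symm⟩ hmem.2 (hX2 j1 hi0) (hmem.1.trans hQR) hp (by omega) (by omega)
      hpn hpn2 hpa hpΔ
  refine (mu_full hs hZ ha hΔ hR hj).trans ?_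
  have hSP := SPR_nonneg R a h
  have h2 : 4 * (s : ℝ) / √(p : ℝ) ≤ ρ := by
    have hp0 : (0 : ℝ) < p := by exact_mod_cast hp.pos
    have h3 : 4 * (s : ℝ) / ρ ≤ √(p : ℝ) := by
      apply Real.le_sqrt_of_sq_le
      refine hKρ.trans ?_
      exact_mod_cast hKp.le
    rw [div_le_iff₀ hρ] at h3
    rw [div_le_iff₀ (Real.sqrt_pos.2 hp0)]
    linarith
  have h3 : 4 * (s : ℝ) / √(p : ℝ) * SPR R a h ≤ ρ * SPR R a h := mul_le_mul_of_nonneg_right h2 hSP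
  linarith

/-- **the main term** -/
theorem main_fixedX (s : ℕ) (hs : 1 ≤ s) (A L2 : ℕ) : ∃ Q0 : ℕ, ∀ Q : ℕ, Q0 ≤ Q → ∀ M : ℕ, Q ^ lE s ≤ M → M ≤ Q ^ L2 →
    ∀ B : PC → ℝ, ∀ X : Finset PC, HX Q M B X → (∀ j ∈ X, j.2 ^ 2 = 1) → ∀ ε : ℝ, ∑ j ∈ fam Q, B j ≤ ε →
    ∀ ρ : ℝ, 0 < ρ → ∀ K : ℕ, 8 ≤ K → 2 * s ≤ K → A ≤ K → (4 * s / ρ) ^ 2 ≤ K →
    ∀ a h : Fin s → ℤ, (∀ i, a i ≠ 0) → (∀ i, |a i| ≤ A) → (∀ i, |h i| ≤ M) → Del a h ≠ 0 →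
    (∀ j ∈ X, ¬ ((j.1 + 1 : ℕ) : ℤ) ∣ (K.factorial : ℤ) * Del a h) → ∀ u v : ℤ,
    (∀ n ∈ Ico u v, ∀ i, ((M / Q ^ 3 : ℕ) : ℤ) ≤ a i * n + h i ∧ a i * n + h i ≤ (M : ℤ) - (M / Q ^ 4 : ℕ)) →
    ‖∑ n ∈ Ico u v, ∏ i, cB Q (cR s) M (a i * n + h i) - SPR (Q ^ cR s) a h * (Ico u v).card‖ ≤
      (Ico u v).card * ((SPR (Q ^ cR s) a h + 1 / Q) * ((3 + ε) ^ s - 3 ^ s) +
        3 ^ s * (ρ * SPR (Q ^ cR s) a h + 1 / Q) + 1 / Q) + M / (Q : ℝ) ^ 10 := by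
  have hsr : (1 : ℝ) ≤ s := by exact_mod_cast hs
  obtain ⟨Z, hZ0, hZ⟩ := exists_Z
  obtain ⟨Q1, hQ1⟩ := tau_small s hs A L2 hZ0
  obtain ⟨Q2, hQ2⟩ := ev_log ((2 + 4 * s * A) * (L2 : ℝ) ^ (s + 1)) (s + 1) (a := 1) one_pos
  refine ⟨Q1 + Q2 + 3, fun Q hQ M hM1 hM2 B X hw hX2 ε hBs ρ hρ K hK8 hKs hKA hKρ a h ha haA hh hΔ hnd u v hrange => ?_⟩
  have hQ3n : 3 ≤ Q := by omega
  have hQ3 : (3 : ℝ) ≤ Q := by exact_mod_cast hQ3n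
  have hQ0 : (0 : ℝ) < Q := by linarith
  have hQ1' : (1 : ℝ) ≤ Q := by linarith
  obtain ⟨ℓ, hℓ⟩ : ∃ ℓ : ℝ, ℓ = Real.log Q := ⟨_, rfl⟩
  have hℓ1 : 1 ≤ ℓ := by
    rw [hℓ, Real.le_log_iff_exp_le hQ0]
    linarith [Real.exp_one_lt_d9]
  have hle : ∀ n : ℕ, n ≤ lE s → Q ^ n ≤ M := fun n hn => (Nat.pow_le_pow_right (by omega) hn).trans hM1
  have hler : ∀ n : ℕ, n ≤ lE s → (Q : ℝ) ^ n ≤ M := fun n hn => by exact_mod_cast hle n hn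
  have h40 : 40 ≤ lE s := by unfold lE; omega
  have hQM : Q ≤ M := by simpa using hle 1 (by omega)
  have hM0 : (0 : ℝ) < M := by exact_mod_cast (by omega : 0 < M)
  have hlM0 : 0 ≤ Real.log M := Real.log_natCast_nonneg M
  have hlM : Real.log M ≤ L2 * ℓ := by
    have : Real.log M ≤ Real.log ((Q : ℝ) ^ L2) := Real.log_le_log hM0 (by exact_mod_cast hM2)
    rwa [Real.log_pow, ← hℓ] at this
  have hLg1 : 1 ≤ L2 * ℓ := by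
    refine le_trans (hℓ1.trans ?_) hlM
    rw [hℓ]
    exact Real.log_le_log hQ0 (by exact_mod_cast hQM)
  obtain ⟨H, hH⟩ : ∃ H : ℕ, H = M / Q ^ 4 := ⟨_, rfl⟩
  have hHlow : (M : ℝ) / (2 * (Q : ℝ) ^ 4) ≤ H := by
    have := div_lower (M := M) (D := Q ^ 4) (by positivity) (by
      calc 2 * Q ^ 4 ≤ Q * Q ^ 4 := Nat.mul_le_mul_right _ (by omega)
        _ = Q ^ 5 := by ring
        _ ≤ M := hle 5 (by omega))
    rw [hH]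
    push_cast at this ⊢
    exact this
  have hHpos : 0 < H := by
    rw [hH]; exact Nat.div_pos (hle 4 (by omega)) (by positivity)
  have hH0 : (0 : ℝ) < H := by exact_mod_cast hHpos
  have hYpos : 0 < M / Q ^ 3 := Nat.div_pos (hle 3 (by omega)) (by positivity)
  obtain ⟨R, hR⟩ : ∃ R : ℕ, R = Q ^ cR s := ⟨_, rfl⟩
  have hR1 : 1 ≤ R := by rw [hR]; exact Nat.one_le_pow _ _ (by omega)
  have hRr : (R : ℝ) = (Q : ℝ) ^ cR s := by rw [hR]; push_cast; rfl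
  have hcB : ∑ n ∈ Ico u v, ∏ i, cB Q (cR s) M (a i * n + h i) = ∑ n ∈ Ico u v, ∏ i, LB Q R M H (a i * n + h i) := by
    apply sum_congr rfl
    intro n hn
    apply prod_congr rfl
    intro i _
    unfold cB cut
    rw [if_pos (hrange n hn i), hR, hH]
  have hwn : ∀ n ∈ Ico u v, ∀ i, ∀ j ∈ fam Q, (j ∉ X → ‖wj M H j (a i * n + h i) - dl j‖ ≤ B j) ∧
      (j ∈ X → ‖wj M H j (a i * n + h i)‖ ≤ 2) := by
    intro n hn i j hj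
    have h1 := hrange n hn i
    rw [hH]
    exact hw.2.2.2.2 j hj _ h1.1 (by linarith [h1.2])
  have hQR : Q ≤ R := by
    rw [hR]
    apply Nat.le_self_pow
    unfold cR
    have : 0 < 2 * s * (s * (s + 1) + 2) := by positivity
    omega
  have hcard : ((Ico u v).card : ℝ) ≤ M := by
    have h0 : 0 < s := hs
    have h1 : (Ico u v).card ≤ (Icc (1 : ℤ) M).card := by
      apply card_le_card_of_injOn (fun n => a ⟨0, h0⟩ * n + h ⟨0, h0⟩)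
      · intro n hn
        have h2 := hrange n hn ⟨0, h0⟩
        rw [coe_Icc, Set.mem_Icc]
        have q0 : (0 : ℤ) ≤ ((M / Q ^ 4 : ℕ) : ℤ) := Int.natCast_nonneg _
        have q1 : (1 : ℤ) ≤ ((M / Q ^ 3 : ℕ) : ℤ) := by exact_mod_cast hYpos
        simp only
        constructor <;> linarith [h2.1, h2.2]
      · intro x _ y _ hxy
        simp only at hxy
        have : a ⟨0, h0⟩ * x = a ⟨0, h0⟩ * y := by linarith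
        exact mul_left_cancel₀ (ha ⟨0, h0⟩) this
    rw [Int.card_Icc] at h1
    have h2 : ((M : ℤ) + 1 - 1).toNat = M := by simp
    rw [h2] at h1
    exact_mod_cast h1
  have hmain := main_termX hs hZ ha hΔ (Q := Q) (R := R) (M := M) (H := H) (by omega) hR1 hw.1 hw.2.1 hw.2.2.1
    hw.2.2.2.1 hBs hwn (Lg := L2 * ℓ) (A := A) hLg1 hlM (Nat.cast_nonneg _) (fun i => by
      have := haA i
      have h2 : ((|a i| : ℤ) : ℝ) ≤ A := by exact_mod_cast this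
      rwa [Int.cast_abs] at h2) rfl hρ.le
      (mu_X hs hZ ha hΔ hR1 hQR haA hw.1 hw.2.1 hX2 hρ hK8 hKs hKA hKρ hnd)
  rw [hcB, ← hR]
  refine hmain.trans (add_le_add ?_ ?_)
  · have hτ := hQ1 Q (by omega) M hQM hM2 a h haA hh hΔ
    rw [← hR] at hτ
    apply mul_le_mul_of_nonneg_left _ (Nat.cast_nonneg _)
    have hε : 0 ≤ ε := (sum_nonneg hw.2.2.2.1).trans hBs
    have h1 : 0 ≤ (3 + ε) ^ s - 3 ^ s := by
      have : (3 : ℝ) ^ s ≤ (3 + ε) ^ s := pow_le_pow_left₀ (by norm_num) (by linarith) s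
      linarith
    refine add_le_add (add_le_add (mul_le_mul_of_nonneg_right (by linarith) h1) ?_) hτ
    exact mul_le_mul_of_nonneg_left (by linarith) (by positivity)
  · have e1 : ((Ico u v).card : ℝ) * ((Q * R : ℝ) ^ s * (s * (2 * (L2 * ℓ) / H * A) * (L2 * ℓ) ^ s)) ≤
        (Q * R : ℝ) ^ s * (4 * s * A * (Q : ℝ) ^ 4 * (L2 * ℓ) ^ (s + 1)) := by
      have e2 : ((Ico u v).card : ℝ) / H ≤ 2 * (Q : ℝ) ^ 4 := by
        rw [div_le_iff₀ hH0]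
        rw [div_le_iff₀ (by positivity)] at hHlow
        linarith
      calc ((Ico u v).card : ℝ) * ((Q * R : ℝ) ^ s * (s * (2 * (L2 * ℓ) / H * A) * (L2 * ℓ) ^ s)) =
          (Q * R : ℝ) ^ s * (2 * s * A * (((Ico u v).card : ℝ) / H) * (L2 * ℓ) ^ (s + 1)) := by ring
        _ ≤ (Q * R : ℝ) ^ s * (2 * s * A * (2 * (Q : ℝ) ^ 4) * (L2 * ℓ) ^ (s + 1)) := by gcongr
        _ = _ := by ring
    have e3 : 2 * (Q * R : ℝ) ^ s * (L2 * ℓ) ^ s ≤ (Q * R : ℝ) ^ s * (2 * (Q : ℝ) ^ 4 * (L2 * ℓ) ^ (s + 1)) := by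
      have f1 : (L2 * ℓ) ^ s ≤ (Q : ℝ) ^ 4 * (L2 * ℓ) ^ (s + 1) := by
        have g1 : (L2 * ℓ) ^ s ≤ (L2 * ℓ) ^ (s + 1) := pow_le_pow_right₀ hLg1 (Nat.le_succ s)
        have g2 : (1 : ℝ) ≤ (Q : ℝ) ^ 4 := one_le_pow₀ hQ1'
        have g3 : 0 ≤ (L2 * ℓ) ^ (s + 1) := by positivity
        nlinarith
      calc 2 * (Q * R : ℝ) ^ s * (L2 * ℓ) ^ s = (Q * R : ℝ) ^ s * (2 * (L2 * ℓ) ^ s) := by ring
        _ ≤ (Q * R : ℝ) ^ s * (2 * ((Q : ℝ) ^ 4 * (L2 * ℓ) ^ (s + 1))) := by gcongr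
        _ = _ := by ring
    have e4 := hQ2 Q (by omega)
    rw [← hℓ, Real.rpow_one] at e4
    have e5 : (2 + 4 * s * A) * (L2 * ℓ) ^ (s + 1) ≤ Q := by
      calc (2 + 4 * s * A) * (L2 * ℓ) ^ (s + 1) = (2 + 4 * s * A) * (L2 : ℝ) ^ (s + 1) * ℓ ^ (s + 1) := by
            rw [mul_pow]; ring
        _ ≤ Q := e4
    calc ((Q : ℝ) ^ 2) ^ s * ((R : ℝ) ^ s * (2 * (Q * R : ℝ) ^ s * (L2 * ℓ) ^ s + (Ico u v).card * ((Q * R : ℝ) ^ s *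
        (s * (2 * (L2 * ℓ) / H * A) * (L2 * ℓ) ^ s)))) ≤
        ((Q : ℝ) ^ 2) ^ s * ((R : ℝ) ^ s * ((Q * R : ℝ) ^ s * (2 * (Q : ℝ) ^ 4 * (L2 * ℓ) ^ (s + 1)) +
          (Q * R : ℝ) ^ s * (4 * s * A * (Q : ℝ) ^ 4 * (L2 * ℓ) ^ (s + 1)))) := by gcongr
      _ = ((Q : ℝ) ^ 2) ^ s * ((R : ℝ) ^ s * (Q * R : ℝ) ^ s) * ((Q : ℝ) ^ 4 * ((2 + 4 * s * A) * (L2 * ℓ) ^ (s + 1))) := by
          ring
      _ ≤ ((Q : ℝ) ^ 2) ^ s * ((R : ℝ) ^ s * (Q * R : ℝ) ^ s) * ((Q : ℝ) ^ 4 * Q) := by gcongr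
      _ = (Q : ℝ) ^ (3 * s + 2 * s * cR s + 5) := by
          rw [hRr, mul_pow]
          simp only [← pow_mul]
          ring
      _ ≤ M / (Q : ℝ) ^ 10 := by
          rw [le_div_iff₀ (by positivity), ← pow_add]
          apply hler
          unfold lE
          omega

end Pool.Agent.Helper86.XS
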