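import Pool.Agent.Helper86.XS.X4
import Pool.Agent.Helper86.PS.H9

set_option autoImplicit false

/-!
# The window property with an exceptional character
-/

open Finset

namespace Pool.Agent.Helper86.XS

open Pool.Agent.H807R2.Dav Pool.Agent.Helper86.PS

/-- the window property with a set of exceptional characters -/
def HX (Q M : ℕ) (B : PC → ℝ) (X : Finset PC) : Prop :=
  X ⊆ fam Q ∧ X.card ≤ 1 ∧ (∀ j ∈ X, j.2 ≠ 1) ∧ (∀ j ∈ fam Q, 0 ≤ B j) ∧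
  ∀ j ∈ fam Q, ∀ n : ℤ, ((M / Q ^ 3 : ℕ) : ℤ) ≤ n → n + (M / Q ^ 4 : ℕ) ≤ M →
    (j ∉ X → ‖wj M (M / Q ^ 4) j n - dl j‖ ≤ B j) ∧ (j ∈ X → ‖wj M (M / Q ^ 4) j n‖ ≤ 2)

lemma dl_X {Q M : ℕ} {B : PC → ℝ} {X : Finset PC} (h : HX Q M B X) {j : PC} (hj : j ∈ X) : dl j = 0 := by
  unfold dl
  rw [if_neg (h.2.2.1 j hj)]

open _root_.Classical in
lemma HX_HW {Q M : ℕ} {B : PC → ℝ} {X : Finset PC} (h : HX Q M B X) :
    HW Q M (fun j => B j + if j ∈ X then 2 else 0) := by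
  obtain ⟨h1, h2, h3, h4, h5⟩ := h
  refine ⟨fun j hj => ?_, fun j hj n hn1 hn2 => ?_⟩
  · have := h4 j hj
    simp only
    split_ifs <;> linarith
  · obtain ⟨h6, h7⟩ := h5 j hj n hn1 hn2
    have hB := h4 j hj
    by_cases hX : j ∈ X
    · have h8 : dl j = 0 := by unfold dl; rw [if_neg (h3 j hX)]
      simp only
      rw [if_pos hX, h8, sub_zero]
      linarith [h7 hX]
    · simp only
      rw [if_neg hX, add_zero]
      exact h6 hX

open _root_.Classical in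
lemma HX_sum {Q M : ℕ} {B : PC → ℝ} {X : Finset PC} (h : HX Q M B X) (hB : ∑ j ∈ fam Q, B j ≤ 1) :
    ∑ j ∈ fam Q, (B j + if j ∈ X then 2 else 0) ≤ 3 := by
  obtain ⟨h1, h2, h3, h4, h5⟩ := h
  rw [sum_add_distrib, ← sum_filter]
  have h6 : (fam Q).filter (fun j => j ∈ X) = X := by
    rw [filter_mem_eq_inter, inter_eq_right.2 h1]
  rw [h6, sum_const, nsmul_eq_mul]
  have h7 : (X.card : ℝ) ≤ 1 := by exact_mod_cast h2
  linarith

lemma Lam_real (M : ℕ) (x : ℤ) : Lam M x = ((‖Lam M x‖ : ℝ) : ℂ) := by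
  unfold Lam
  split_ifs
  · rw [Complex.norm_real, Real.norm_eq_abs, abs_of_nonneg ArithmeticFunction.vonMangoldt_nonneg]
  · simp

lemma fz_triv (x : ℤ) : fz (⟨0, 1⟩ : PC) x = 1 := by
  unfold fz
  have : IsUnit ((x : ℤ) : ZMod (0 + 1)) := by
    have hsub : Subsingleton (ZMod (0 + 1)) := (inferInstance : Subsingleton (ZMod 1))
    have : ((x : ℤ) : ZMod (0 + 1)) = 1 := hsub.elim _ _
    rw [this]; exact isUnit_one
  exact MulChar.one_apply this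

lemma wj_le_triv (M H : ℕ) (j : PC) (n : ℤ) : ‖wj M H j n‖ ≤ ‖wj M H ⟨0, 1⟩ n‖ := by
  have h1 : wj M H ⟨0, 1⟩ n = ((1 / (H : ℝ) * ∑ a ∈ range H, (1 / (H : ℝ) * ∑ b ∈ range H, ‖Lam M (n - a + b)‖) : ℝ) : ℂ) := by
    unfold wj sm Lj
    push_cast
    congr 1
    apply sum_congr rfl
    intro a _
    congr 1
    apply sum_congr rfl
    intro b _
    rw [fz_triv, one_mul]
    exact Lam_real M _
  have h2 : 0 ≤ 1 / (H : ℝ) * ∑ a ∈ range H, (1 / (H : ℝ) * ∑ b ∈ range H, ‖Lam M (n - a + b)‖) := by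
    apply mul_nonneg (by positivity)
    apply sum_nonneg
    intro a _
    apply mul_nonneg (by positivity)
    exact sum_nonneg fun b _ => norm_nonneg _
  rw [h1, Complex.norm_real, Real.norm_eq_abs, abs_of_nonneg h2]
  unfold wj sm Lj
  rw [norm_mul, norm_div, norm_one, Complex.norm_natCast]
  apply mul_le_mul_of_nonneg_left _ (by positivity)
  apply norm_sum_le_of_le
  intro a _
  rw [norm_mul, norm_div, norm_one, Complex.norm_natCast]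
  apply mul_le_mul_of_nonneg_left _ (by positivity)
  apply norm_sum_le_of_le
  intro b _
  rw [norm_mul]
  calc ‖fz j (n - a + b)‖ * ‖Lam M (n - a + b)‖ ≤ 1 * ‖Lam M (n - a + b)‖ :=
        mul_le_mul_of_nonneg_right (fz_norm_le j _) (norm_nonneg _)
    _ = _ := one_mul _

/-- the window property from the short sums -/
lemma hx_of_short {L0 L2 : ℕ} : ∃ Q0 : ℕ, ∀ Q : ℕ, Q0 ≤ Q → ∀ X : Finset PC, X ⊆ fam Q → X.card ≤ 1 → (∀ j ∈ X, j.2 ≠ 1) →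
    ∀ b : PC → ℝ, (∀ j ∈ fam Q, 0 ≤ b j) → ∑ j ∈ fam Q, b j ≤ 1 →
    (∀ j ∈ fam Q, j ∉ X → ∀ y H : ℕ, Q ^ L0 ≤ y → Real.log (y + H : ℕ) ≤ Q → y + H ≤ H * Q ^ 6 →
      ‖∑ n ∈ Finset.Ioc y (y + H), fn j n * (ArithmeticFunction.vonMangoldt n : ℂ) - dl j * H‖ ≤ b j * H) →
    ∀ M : ℕ, Q ^ (L0 + 6) ≤ M → M ≤ Q ^ L2 → HX Q M b X := by
  obtain ⟨Q1, hQ1⟩ := ev_log (L2 : ℝ) 1 (a := 1) one_pos
  refine ⟨Q1 + 3, fun Q hQ X hX1 hX2 hX3 b hb0 hbs hb M hM1 hM2 => ⟨hX1, hX2, hX3, hb0, ?_⟩⟩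
  have hQ3n : 3 ≤ Q := by omega
  have hQ3 : (3 : ℝ) ≤ Q := by exact_mod_cast hQ3n
  have hQ0 : (0 : ℝ) < Q := by linarith
  have hQM : ∀ k : ℕ, k ≤ L0 + 6 → Q ^ k ≤ M := fun k hk => (Nat.pow_le_pow_right (by omega) hk).trans hM1
  have hM0 : (0 : ℝ) < M := by
    have : 0 < M := lt_of_lt_of_le (by positivity) hM1
    exact_mod_cast this
  obtain ⟨H, hH⟩ : ∃ H : ℕ, H = M / Q ^ 4 := ⟨_, rfl⟩
  have hHpos : 0 < H := by rw [hH]; exact Nat.div_pos (hQM 4 (by omega)) (by positivity)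
  have hmain : ∀ j ∈ fam Q, j ∉ X → ∀ n : ℤ, ((M / Q ^ 3 : ℕ) : ℤ) ≤ n → n + (M / Q ^ 4 : ℕ) ≤ M →
      ‖wj M (M / Q ^ 4) j n - dl j‖ ≤ b j := by
    intro j hj hjX n hn1 hn2
    rw [← hH] at hn2 ⊢
    refine wj_near hHpos (hb0 j hj) (fun y => hb j hj hjX y H) ?_ ?_ ?_ hn2
    · have h1 := hQ1 Q (by omega)
      rw [pow_one, Real.rpow_one] at h1
      refine le_trans ?_ h1
      have : Real.log M ≤ Real.log ((Q : ℝ) ^ L2) := Real.log_le_log hM0 (by exact_mod_cast hM2)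
      rwa [Real.log_pow] at this
    · have h1 : M < (H + 1) * Q ^ 4 := by
        rw [hH]
        have := Nat.lt_mul_div_succ M (b := Q ^ 4) (by positivity)
        calc M < Q ^ 4 * (M / Q ^ 4 + 1) := this
          _ = (M / Q ^ 4 + 1) * Q ^ 4 := by ring
      have h2 : (H + 1) * Q ^ 4 ≤ (H * 2) * Q ^ 4 := Nat.mul_le_mul_right _ (by omega)
      have h3 : (H * 2) * Q ^ 4 ≤ H * Q ^ 6 := by
        have : 2 ≤ Q ^ 2 := by nlinarith
        calc (H * 2) * Q ^ 4 = H * (2 * Q ^ 4) := by ring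
          _ ≤ H * (Q ^ 2 * Q ^ 4) := Nat.mul_le_mul_left _ (Nat.mul_le_mul_right _ this)
          _ = H * Q ^ 6 := by ring
      omega
    · refine le_trans ?_ hn1
      have h1 : Q ^ L0 + H ≤ M / Q ^ 3 := by
        rw [Nat.le_div_iff_mul_le (by positivity), add_mul]
        have e1 : Q ^ L0 * Q ^ 3 * 2 ≤ M := by
          calc Q ^ L0 * Q ^ 3 * 2 ≤ Q ^ L0 * Q ^ 3 * Q := Nat.mul_le_mul_left _ (by omega)
            _ = Q ^ (L0 + 4) := by ring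
            _ ≤ M := hQM _ (by omega)
        have e2 : H * Q ^ 3 * 2 ≤ M := by
          calc H * Q ^ 3 * 2 ≤ H * Q ^ 3 * Q := Nat.mul_le_mul_left _ (by omega)
            _ = Q ^ 4 * (M / Q ^ 4) := by rw [hH]; ring
            _ ≤ M := Nat.mul_div_le M _
        omega
      exact_mod_cast h1
  intro j hj n hn1 hn2
  refine ⟨fun hjX => hmain j hj hjX n hn1 hn2, fun _ => ?_⟩
  have htm : (⟨0, 1⟩ : PC) ∈ fam Q := triv_mem (by omega)
  have htX : (⟨0, 1⟩ : PC) ∉ X := fun hc => hX3 _ hc rfl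
  refine (wj_le_triv M (M / Q ^ 4) j n).trans ?_
  have h1 := hmain _ htm htX n hn1 hn2
  have h2 : b ⟨0, 1⟩ ≤ 1 := (single_le_sum hb0 htm).trans hbs
  have h3 : dl (⟨0, 1⟩ : PC) = 1 := by unfold dl; rw [if_pos rfl]
  rw [h3] at h1
  have h4 := norm_add_le (1 : ℂ) (wj M (M / Q ^ 4) ⟨0, 1⟩ n - 1)
  rw [add_sub_cancel, norm_one] at h4
  linarith

end Pool.Agent.Helper86.XS
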