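import Pool.Agent.Helper86.PS.H10

set_option autoImplicit false

/-!
# Sums over primes for one character
-/

open Finset
open ArithmeticFunction (vonMangoldt)

namespace Pool.Agent.Helper86.XS

open Pool.Agent.W66 Pool.Agent.W66L Pool.Agent.TH823.PS

/-- the lower bound for one character -/
theorem lower_one : ∃ C : ℝ, 0 < C ∧ ∀ (q : ℕ) [NeZero q] (y z : ℕ), 3 ≤ y → y ≤ z → q ≤ y →
    ∀ χ : DirichletCharacter ℂ q, (χ ≠ 1 → χ ^ 2 = 1 →
      -(3 / 5) * WW y z ≤ ∑ p ∈ PP y z, rt χ 0 p / p) →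
    ∀ t : ℝ, lq q (2 * t) ≤ Real.log y →
    -(9 / 10) * WW y z - C ≤ ∑ p ∈ PP y z, rt χ t p / p := by
  obtain ⟨C1, hC1, hnp⟩ := upper_np
  obtain ⟨C2, hC2, hpr⟩ := upper_pr
  obtain ⟨C3, hC3, hls⟩ := log_sum
  refine ⟨C1 + C2 + C3 + 1, by positivity, fun q _ y z hy hyz hqy χ hne t hlq => ?_⟩
  have hq : 0 < q := Nat.pos_of_ne_zero (NeZero.ne q)
  have hl1 := log_ge_one hy
  have hW0 := WW_nonneg y z
  have hell : ell (2 * t) ≤ Real.log y := (ell_le_lq q (2 * t)).trans hlq
  by_cases h2 : χ ^ 2 = 1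
  swap
  · have h3 := hnp q (χ ^ 2) h2 (2 * t) y z hy hyz hlq
    have h4 := lower_341 hq χ t hqy (z := z)
    linarith
  -- the square is principal
  have hcos : ∀ y' : ℕ, y ≤ y' → ∑ p ∈ PP y' z, rt (χ ^ 2) (2 * t) p / p =
      ∑ p ∈ PP y' z, Real.cos (2 * t * Real.log p) / p := by
    intro y' hy'
    apply sum_congr rfl
    intro p hp
    rw [h2, rt_one (2 * t) (prime_coprime hq (hqy.trans hy') hp)]
  rcases le_or_gt 1 (|2 * t| * Real.log y) with h3 | h3
  · have h4 := hpr (2 * t) y z hy hyz hell h3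
    have h5 := lower_341 hq χ t hqy (z := z)
    rw [hcos y le_rfl] at h5
    linarith
  -- small `t`
  have ht2 : |2 * t| = 2 * |t| := by rw [abs_mul]; norm_num
  have htabs := abs_nonneg t
  rw [ht2] at h3
  have hts : 2 * |t| < 1 := by nlinarith
  have hreal : -(3 / 5) * WW y z ≤ ∑ p ∈ PP y z, rt χ 0 p / p := by
    by_cases h1 : χ = 1
    · have h5 : ∑ p ∈ PP y z, rt χ 0 p / p = WW y z := by
        unfold WW
        apply sum_congr rfl
        intro p hp
        rw [h1, rt_one 0 (prime_coprime hq hqy hp)]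
        simp
      rw [h5]
      linarith
    · exact hne h1 h2
  by_cases hcase : 2 * |t| * Real.log z ≤ 2
  · have h4 := small_t_sum hls χ t (y := y) (x := z) (by omega)
    have h5 : |t| * (Real.log z + C3) ≤ 1 + C3 := by nlinarith
    linarith
  have hcase' := not_le.1 hcase
  have htpos : 0 < 2 * |t| := by
    by_contra hc
    have h0 : |t| = 0 := by linarith
    rw [h0] at hcase'
    linarith
  set x : ℕ := ⌊Real.exp (1 / (2 * |t|))⌋₊ + 1 with hx
  have hex1 : 1 ≤ Real.exp (1 / (2 * |t|)) := Real.one_le_exp (by positivity)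
  have hxle : (x : ℝ) ≤ 2 * Real.exp (1 / (2 * |t|)) := by
    rw [hx]
    push_cast
    have := Nat.floor_le (by positivity : 0 ≤ Real.exp (1 / (2 * |t|)))
    linarith
  have hxge : Real.exp (1 / (2 * |t|)) ≤ x := by
    rw [hx]
    push_cast
    exact (Nat.lt_floor_add_one _).le
  have hx0 : (0 : ℝ) < x := by linarith
  have hlogx1 : 1 ≤ 2 * |t| * Real.log x := by
    have h4 : 1 / (2 * |t|) ≤ Real.log x := by
      rw [Real.le_log_iff_exp_le hx0]
      exact hxge
    rw [div_le_iff₀ htpos] at h4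
    linarith
  have hlogx2 : 2 * |t| * Real.log x ≤ 2 := by
    have h4 : Real.log x ≤ Real.log 2 + 1 / (2 * |t|) := by
      have := Real.log_le_log hx0 hxle
      rw [Real.log_mul two_ne_zero (Real.exp_pos _).ne', Real.log_exp] at this
      exact this
    have h5 : Real.log 2 ≤ 1 := by have := Real.log_two_lt_d9; linarith
    have h6 : 2 * |t| * (1 / (2 * |t|)) = 1 := mul_one_div_cancel htpos.ne'
    calc 2 * |t| * Real.log x ≤ 2 * |t| * (Real.log 2 + 1 / (2 * |t|)) :=
          mul_le_mul_of_nonneg_left h4 htpos.le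
      _ = 2 * |t| * Real.log 2 + 1 := by rw [mul_add, h6]
      _ ≤ 2 := by nlinarith
  have hyx : y ≤ x := by
    have h4 : Real.log y ≤ Real.log x := by
      have h5 : 2 * |t| * Real.log y ≤ 2 * |t| * Real.log x := by linarith
      exact le_of_mul_le_mul_left h5 htpos
    have h6 := (Real.log_le_log_iff (by positivity) hx0).1 h4
    exact_mod_cast h6
  have hxz : x ≤ z := by
    by_contra hc
    have h4 : (z : ℝ) ≤ x := by exact_mod_cast (not_le.1 hc).le
    have h5 : Real.log z ≤ Real.log x :=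
      Real.log_le_log (by exact_mod_cast (by omega : 0 < z)) h4
    have : 2 * |t| * Real.log z ≤ 2 * |t| * Real.log x := mul_le_mul_of_nonneg_left h5 htpos.le
    linarith
  have hlyx : Real.log y ≤ Real.log x := Real.log_le_log (by positivity) (by exact_mod_cast hyx)
  have s1 := WW_split hyx hxz (fun p => rt χ t p / p)
  have s2 := WW_split hyx hxz (fun p => rt χ 0 p / p)
  have s3 : WW y z = WW y x + WW x z := WW_split hyx hxz (fun p => (1 : ℝ) / p)
  have a1 := small_t_sum hls χ t (y := y) (x := x) (by omega)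
  have a2 : |t| * (Real.log x + C3) ≤ 1 + C3 := by nlinarith
  have a3 := lower_341 hq χ t (hqy.trans hyx) (z := z)
  rw [hcos x hyx] at a3
  have a4 := hpr (2 * t) x z (hy.trans hyx) hxz (hell.trans hlyx) (by rw [ht2]; exact hlogx1)
  have hW1 := WW_nonneg y x
  have hW2 := WW_nonneg x z
  have a5 : -WW y x ≤ ∑ p ∈ PP y x, rt χ 0 p / p := by
    unfold WW
    rw [← sum_neg_distrib]
    apply sum_le_sum
    intro p _
    rw [← neg_div]
    apply div_le_div_of_nonneg_right _ (Nat.cast_nonneg p)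
    exact (abs_le.1 (abs_rt_le χ 0 p)).1
  by_cases h1 : χ = 1
  · have h5 : ∑ p ∈ PP y x, rt χ 0 p / p = WW y x := by
      unfold WW
      apply sum_congr rfl
      intro p hp
      rw [h1, rt_one 0 (prime_coprime hq hqy hp)]
      simp
    linarith
  · have a6 := hnp q χ h1 0 x z (hy.trans hyx) hxz (by
      refine le_trans ?_ (hlq.trans hlyx)
      unfold lq
      have := ell_mono (s := 0) (t := 2 * t) (by rw [abs_zero]; exact abs_nonneg _)
      linarith)
    linarith

end Pool.Agent.Helper86.XS
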