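import Pool.Agent.Helper86.XS.X2

set_option autoImplicit false

/-!
# Window sums and short interval sums, one character at a time
-/

open Complex Filter Topology Set MeasureTheory Metric
open scoped Real

namespace Pool.Agent.Helper86.XS

open Pool.Agent.W66 Pool.Agent.W66L Pool.Agent.TH823.PS
open Pool.Agent.Helper86.PS hiding WW
open Pool.Agent.H379R2.SW (vert vert_re vert_im vert_ne_zero continuous_vert)

/-- the bound in the rectangle -/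
lemma rect_one {K1 K2 : ℝ} (hK1 : 0 < K1) (hK2 : 0 < K2)
    (hDX : ∀ (Q : ℕ) [NeZero Q] (χ : DirichletCharacter ℂ Q), χ ≠ 1 →
      ∀ η : ℝ, 0 < η → η ≤ 1 / 16 → ∀ z : ℂ,
      (∀ ρ : ℂ, χ.LFunction ρ = 0 → |ρ.im - z.im| ≤ 2 → ρ.re ≤ 1 - 2 * η) →
      1 - η ≤ z.re → z.re ≤ 1 + η → χ.LFunction z ≠ 0 ∧ ‖DX χ z‖ ≤ K1 * (lq Q z.im + 1 / η))
    (hDD : ∀ η : ℝ, 0 < η → η ≤ 1 / 16 → ∀ z : ℂ,
      (∀ ρ : ℂ, Z1 ρ = 0 → |ρ.im - z.im| ≤ 2 → ρ.re ≤ 1 - 2 * η) →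
      1 - η ≤ z.re → z.re ≤ 1 + η → Z1 z ≠ 0 ∧ ‖DD z‖ ≤ K2 * (ell z.im + 1 / η))
    {Q τ : ℕ} (hQ : 3 ≤ Q) {η : ℝ} (hη0 : 0 < η) (hη1 : η ≤ 1 / 16)
    {j : PC} (hj : j ∈ fam Q) (hz1 : j.2 ≠ 1 → ∀ ρ : ℂ, j.2.LFunction ρ = 0 → |2 * ρ.im| ≤ 2 * (2 * π * (Q : ℝ) ^ τ + 2) →
      ρ.re ≤ 1 - 2 * η)
    (hz2 : ∀ ρ : ℂ, Z1 ρ = 0 → |2 * ρ.im| ≤ 2 * (2 * π * (Q : ℝ) ^ τ + 2) → ρ.re ≤ 1 - 2 * η) :
    ∀ s : ℂ, 1 - η ≤ s.re → s.re ≤ 1 + η → |s.im| ≤ 2 * π * (Q : ℝ) ^ τ →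
      (if j.2 = 1 then Z1 s ≠ 0 else j.2.LFunction s ≠ 0) ∧
      ‖FF j s‖ ≤ (K1 + K2) * ((τ + 4) * Real.log Q + 1 / η) := by
  intro s hs1 hs2 hs3
  have hnear : ∀ ρ : ℂ, |ρ.im - s.im| ≤ 2 → |2 * ρ.im| ≤ 2 * (2 * π * (Q : ℝ) ^ τ + 2) := by
    intro ρ hρ
    rw [abs_mul, abs_two]
    have : ρ.im = (ρ.im - s.im) + s.im := by ring
    have h2 : |ρ.im| ≤ |ρ.im - s.im| + |s.im| := by
      conv_lhs => rw [this]
      exact abs_add_le _ _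
    linarith
  have hs4 : ell s.im ≤ (τ + 3) * Real.log Q := ell_T hQ (by linarith [abs_nonneg s.im])
  have hlQ : 0 ≤ Real.log Q := Real.log_natCast_nonneg Q
  have hinv : 0 < 1 / η := by positivity
  have hjQ := (mem_fam.1 hj).1
  have hlj : Real.log ((j.1 + 1 : ℕ) : ℝ) ≤ Real.log Q :=
    Real.log_le_log (by exact_mod_cast Nat.succ_pos _) (by exact_mod_cast hjQ)
  have hell0 : 0 ≤ ell s.im := by linarith [one_le_ell s.im]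
  have hlq0 : 0 ≤ lq (j.1 + 1) s.im := by linarith [one_le_lq (j.1 + 1) s.im]
  unfold Pool.Agent.Helper86.PS.FF
  split_ifs with h1
  · obtain ⟨g1, g2⟩ := hDD η hη0 hη1 s (fun ρ hρ hn => hz2 ρ hρ (hnear ρ hn)) hs1 hs2
    refine ⟨g1, ?_⟩
    rw [norm_neg]
    refine g2.trans ?_
    apply mul_le_mul (by linarith) _ (by linarith) (by linarith)
    linarith
  · obtain ⟨g1, g2⟩ := hDX (j.1 + 1) j.2 h1 η hη0 hη1 s (fun ρ hρ hn => hz1 h1 ρ hρ (hnear ρ hn)) hs1 hs2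
    refine ⟨g1, ?_⟩
    rw [norm_neg]
    refine g2.trans ?_
    apply mul_le_mul (by linarith) _ (by linarith) (by linarith)
    have h3 : lq (j.1 + 1) s.im ≤ (τ + 4) * Real.log Q := by
      unfold lq
      linarith
    linarith

/-- one character, one window -/
lemma one_win1 {Ck Af : ℝ} (hCk : 0 < Ck) (hkap : ∀ s : ℂ, |s.re| ≤ 1 → ‖kap s‖ ≤ Ck / (1 + s.im ^ 2))
    (hAf : 0 < Af) (hfar : ∀ (j : PC) (s : ℂ), 1 < s.re → s.re ≤ 2 → ‖FF j s‖ ≤ Af / (s.re - 1))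
    {Q τ : ℕ} (hQ : 3 ≤ Q) {η K0 : ℝ} (hη0 : 0 < η) (hη1 : η ≤ 1 / 16) (hK0 : 0 ≤ K0)
    {j : PC} (hj : j ∈ fam Q) (hrect : ∀ s : ℂ, 1 - η ≤ s.re → s.re ≤ 1 + η → |s.im| ≤ 2 * π * (Q : ℝ) ^ τ →
      (if j.2 = 1 then Z1 s ≠ 0 else j.2.LFunction s ≠ 0) ∧ ‖FF j s‖ ≤ K0)
    (hHH : ∀ j ∈ fam Q, ∀ s : ℂ, 7 / 8 ≤ s.re → 1 / 8 ≤ ‖s - 1‖ → ‖s‖ ≤ 8 * (Q : ℝ) ^ τ →
      ‖HH τ Q j s‖ ≤ (Q : ℝ) ^ (τ + 10))
    {h u : ℝ} (h0 : 0 < h) (h1 : h ≤ 1) (hu : 1 / η ≤ u) :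
    ‖WX j.2 h u - dl j‖ ≤ Ck * K0 * Real.exp (-(η * u)) *
        (2 * π * ∫ ξ in (-(Q : ℝ) ^ τ)..((Q : ℝ) ^ τ), ‖1 - ZQ τ Q j (sp η ξ)‖ ^ 2) +
      12 * (Ck * K0 / (h * (2 * π * (Q : ℝ) ^ τ)) ^ 2) +
      Ck * (Q : ℝ) ^ (τ + 10) / (h * (2 * π * (Q : ℝ) ^ τ)) ^ 2 +
      2 * (2 * π * (Q : ℝ) ^ τ) * (Ck * (Q : ℝ) ^ (τ + 10) * Real.exp (-(u / 8))) +
      Af * u * (Ck / h ^ 2 * 3) * (2 / (Q : ℝ) ^ τ) := by
  have hQ3 : (3 : ℝ) ≤ Q := by exact_mod_cast hQ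
  have hQ1' : (1 : ℝ) ≤ Q := by linarith
  obtain ⟨Ξ, hΞ⟩ : ∃ Ξ : ℝ, Ξ = (Q : ℝ) ^ τ := ⟨_, rfl⟩
  rw [← hΞ] at hrect hHH ⊢
  have hΞ1 : 1 ≤ Ξ := by rw [hΞ]; exact one_le_pow₀ hQ1'
  have hπ := Real.pi_gt_three
  have hπ2 := Real.pi_lt_d2
  have h16 : 16 ≤ 1 / η := by
    rw [le_div_iff₀ hη0]; linarith
  have hu1' : 1 ≤ u := by linarith
  have hu0 : 0 < u := by linarith
  obtain ⟨T, hT⟩ : ∃ T : ℝ, T = 2 * π * Ξ := ⟨_, rfl⟩
  rw [← hT] at hrect ⊢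
  have hT1 : 1 ≤ T := by rw [hT]; nlinarith
  obtain ⟨c1, hc1⟩ : ∃ c1 : ℝ, c1 = 1 / u := ⟨_, rfl⟩
  have hc10 : 0 < c1 := by rw [hc1]; positivity
  have hc11 : c1 ≤ 1 := by rw [hc1, div_le_one hu0]; exact hu1'
  have hc1u : c1 * u = 1 := by rw [hc1]; field_simp
  have hc1η : c1 ≤ η := by
    rw [hc1, div_le_iff₀ hu0]
    rw [div_le_iff₀ hη0] at hu
    linarith
  have htr := WX_trunc hCk hkap hAf hfar hj hc10 hc11 h0 h1 (by linarith : h ≤ u) hΞ1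
  rw [← hT, hc1u] at htr
  have hcon := contour hCk hkap (F := FF j) (H := HH τ Q j) (Z := ZQ τ Q j) (η := η) (c1 := c1) (T := T)
    (h := h) (u := u) (KF := K0) (KH := (Q : ℝ) ^ (τ + 10)) hη0 hη1 hc10 hc11 hT1 h0 h1 hu0 hc1u.le hK0
    (by positivity)
    (by
      intro s hs1 hs2 hs3
      obtain ⟨g1, g2⟩ := hrect s hs1 (by linarith) hs3
      exact ⟨FF_contAt g1, g2⟩)
    (by
      intro s hs1 hs2 hs3
      apply HH_diff hQ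
      rintro rfl
      rw [one_re] at hs2
      linarith)
    (by
      intro s hs1 hs2 hs3 hs4
      apply hHH j hj s hs1
      · rcases hs4 with h2 | h2
        · have h3 := Complex.abs_re_le_norm (s - 1)
          rw [sub_re, one_re, h2] at h3
          norm_num at h3
          linarith
        · have h3 := Complex.abs_im_le_norm (s - 1)
          rw [sub_im, one_im, sub_zero, h2] at h3
          linarith
      · refine (Complex.norm_le_abs_re_add_abs_im s).trans ?_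
        rw [abs_of_nonneg (by linarith)]
        rw [hT] at hs3
        nlinarith)
    (by
      intro s hs1 hs2
      have hs1' : s ≠ 1 := by
        rintro rfl
        rw [one_re] at hs1
        linarith
      obtain ⟨g1, g2⟩ := hrect s hs1.ge (by linarith) hs2
      apply FH hj hs1'
      split_ifs at g1 with h3
      · rw [Z1_eq hs1'] at g1
        rw [LF_triv hj h3]
        exact right_ne_zero_of_mul g1
      · exact g1)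
    (by
      intro t _
      have h3 : ContinuousAt (ZQ τ Q j) (1 + (((-η : ℝ) : ℂ) + t * I)) := by
        apply (ZZ_diff j (pow_pos' hQ) (Or.inl ?_)).continuousAt
        intro h4
        have := congrArg Complex.re h4
        simp at this
        linarith
      exact ContinuousAt.comp (g := ZQ τ Q j) (f := fun t : ℝ => 1 + (((-η : ℝ) : ℂ) + t * I)) h3
        (by fun_prop))
  have hint : ∫ t in (-T)..T, ‖1 - ZQ τ Q j (1 + (((-η : ℝ) : ℂ) + t * I))‖ ^ 2 =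
      2 * π * ∫ ξ in (-Ξ)..Ξ, ‖1 - ZQ τ Q j (sp η ξ)‖ ^ 2 := by
    have e1 : ∀ ξ : ℝ, ‖1 - ZQ τ Q j (sp η ξ)‖ ^ 2 =
        (fun t : ℝ => ‖1 - ZQ τ Q j (1 + (((-η : ℝ) : ℂ) + t * I))‖ ^ 2) (2 * π * ξ) := by
      intro ξ
      simp only
      congr 4
      unfold sp
      apply Complex.ext
      · simp; ring
      · simp
    simp only [e1]
    rw [intervalIntegral.integral_comp_mul_left (fun t : ℝ => ‖1 - ZQ τ Q j (1 + (((-η : ℝ) : ℂ) + t * I))‖ ^ 2)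
      (by positivity : (2 * π : ℝ) ≠ 0), show 2 * π * -Ξ = -(2 * π * Ξ) by ring, smul_eq_mul,
      mul_inv_cancel_left₀ (by positivity : (2 * π : ℝ) ≠ 0), hT]
  rw [hint] at hcon
  have t4 : Af / c1 * (Ck / h ^ 2 * Real.exp 1) * (2 / Ξ) ≤ Af * u * (Ck / h ^ 2 * 3) * (2 / Ξ) := by
    have he1 : Real.exp 1 ≤ 3 := by linarith [Real.exp_one_lt_d9]
    have e1 : Af / c1 = Af * u := by rw [hc1]; field_simp
    rw [e1]
    gcongr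
  linarith

/-- **the window sums at a good scale** -/
theorem win_one : ∃ E0 : ℕ, ∀ E : ℕ, E0 ≤ E → ∀ τ₂ : ℕ, ∀ ε : ℝ, 0 < ε → ∃ L0 Q0 : ℕ, ∀ Q : ℕ, Q0 ≤ Q →
    ∃ b : PC → ℝ, (∀ j ∈ fam Q, 0 ≤ b j) ∧ ∑ j ∈ fam Q, b j ≤ ε ∧
    ∀ j ∈ fam Q, NX (2 * τ₂ + 24) E Q j.2 → ∀ u : ℝ, L0 * Real.log Q ≤ u → u ≤ Q → ‖WX j.2 (1 / (Q : ℝ) ^ τ₂) u - dl j‖ ≤ b j := by
  obtain ⟨E1, hE1, hzfree⟩ := zfree_one
  obtain ⟨cz, hcz, hcz1, hzf⟩ := zf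
  obtain ⟨E2, hE2⟩ := exists_nat_ge (1 / cz)
  obtain ⟨Ck, hCk, hkap⟩ := kap_bound
  obtain ⟨Af, hAf, hfar⟩ := FF_far
  obtain ⟨K1, hK1, hDX⟩ := DX_lin
  obtain ⟨K2, hK2, hDD⟩ := DD_lin
  obtain ⟨K, hK, hMV⟩ := MVmain
  refine ⟨E1 + E2 + 1, fun E hE τ₂ ε hε => ?_⟩
  have hτ2 : (0 : ℝ) ≤ τ₂ := Nat.cast_nonneg τ₂
  have hEr : (1 : ℝ) ≤ E := by exact_mod_cast (by omega : 1 ≤ E)
  obtain ⟨Ar, hAr⟩ : ∃ Ar : ℝ, Ar = 2 * τ₂ + 24 := ⟨_, rfl⟩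
  have hA24 : 24 ≤ Ar := by rw [hAr]; linarith
  obtain ⟨κ, hκ⟩ : ∃ κ : ℝ, κ = 1 / (2 * (Ar * (E : ℝ) ^ 2)) := ⟨_, rfl⟩
  have hκ0 : 0 < κ := by rw [hκ]; positivity
  have hE2r : (1 : ℝ) ≤ (E : ℝ) ^ 2 := one_le_pow₀ hEr
  have hκ48 : κ ≤ 1 / 48 := by
    rw [hκ]
    apply one_div_le_one_div_of_le (by norm_num)
    nlinarith
  obtain ⟨KF, hKF⟩ : ∃ KF : ℝ, KF = (K1 + K2) * ((((2 * τ₂ + 20 : ℕ) : ℝ) + 4) + 1 / κ) := ⟨_, rfl⟩
  have hKF0 : 0 < KF := by rw [hKF]; positivity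
  obtain ⟨CR, hCR⟩ : ∃ CR : ℝ, CR = 12 * (Ck * KF) + Ck + 14 * Ck + Af * Ck * 6 := ⟨_, rfl⟩
  have hCR0 : 0 < CR := by rw [hCR]; positivity
  obtain ⟨Q1, hQ1, hHH⟩ := HH_bound (2 * τ₂ + 20)
  obtain ⟨L1, hL1⟩ := exists_nat_ge (1 / κ * Real.log (2 * (Ck * KF * (2 * π) *
    (K * (Real.exp (2 * κ * pb (2 * τ₂ + 20)) * (1 + 1 / κ)))) / ε + 1))
  obtain ⟨L2, hL2⟩ := exists_nat_ge (1 / κ)
  obtain ⟨Q2, hQ2⟩ := exists_nat_ge (2 * CR / ε)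
  refine ⟨L1 + L2 + 8 * (2 * (2 * τ₂ + 20) + 22), Q1 + Q2 + 3, fun Q hQ => ?_⟩
  have hQ3n : 3 ≤ Q := by omega
  have hQ3 : (3 : ℝ) ≤ Q := by exact_mod_cast hQ3n
  have hQ0 : (0 : ℝ) < Q := by linarith
  have hQ1' : (1 : ℝ) ≤ Q := by linarith
  obtain ⟨ℓ, hℓ⟩ : ∃ ℓ : ℝ, ℓ = Real.log Q := ⟨_, rfl⟩
  have hℓ1 : 1 ≤ ℓ := by
    rw [hℓ, Real.le_log_iff_exp_le hQ0]
    linarith [Real.exp_one_lt_d9]
  have hℓ0 : 0 < ℓ := by linarith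
  have hℓQ : ℓ ≤ Q := by rw [hℓ]; exact (Real.log_le_sub_one_of_pos hQ0).trans (by linarith)
  obtain ⟨η, hη⟩ : ∃ η : ℝ, η = κ / ℓ := ⟨_, rfl⟩
  have hη0 : 0 < η := by rw [hη]; positivity
  have hηκ : η ≤ κ := by rw [hη]; exact div_le_self hκ0.le hℓ1
  have hη1 : η ≤ 1 / 16 := by linarith
  have h2η : 2 * η = 1 / (Ar * E ^ 2 * ℓ) := by
    rw [hη, hκ]
    field_simp
  have hinv : 1 / η = ℓ / κ := by rw [hη, one_div_div]
  have hrect := fun (j : PC) (hj : j ∈ fam Q) (hNX : NX (2 * τ₂ + 24) E Q j.2) =>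
    rect_one hK1 hK2 hDX hDD (τ := 2 * τ₂ + 20) hQ3n hη0 hη1 hj
    (by
      intro h1 ρ hρ hn
      have hjQ := (mem_fam.1 hj).1
      have hlj : Real.log ((j.1 + 1 : ℕ) : ℝ) ≤ Real.log Q :=
        Real.log_le_log (by exact_mod_cast Nat.succ_pos _) (by exact_mod_cast hjQ)
      have h2 := hzfree E (by omega) (2 * τ₂ + 24) Q (by omega) hQ3n (j.1 + 1) hjQ j.2 hNX h1 ρ hρ (by
        unfold lq
        have h3 := ell_T hQ3n hn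
        push_cast at h3 hlj ⊢
        linarith)
      rw [h2η, hAr, hℓ]
      push_cast at h2
      exact h2)
    (by
      intro ρ hρ hn
      have h2 := hzf ρ hρ
      have h3 : ell ρ.im ≤ Ar * ℓ := by
        have h4 := ell_T hQ3n hn
        have h5 : ell ρ.im ≤ ell (2 * ρ.im) := by
          apply ell_mono
          rw [abs_mul, abs_two]
          linarith [abs_nonneg ρ.im]
        rw [← hℓ] at h4
        push_cast at h4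
        rw [hAr]
        linarith
      have h5 : 0 < ell ρ.im := by linarith [one_le_ell ρ.im]
      have h6 : 1 ≤ cz * E := by
        have : 1 / cz ≤ E := hE2.trans (by exact_mod_cast (by omega : E2 ≤ E))
        rw [div_le_iff₀ hcz] at this
        linarith
      have h8 : 1 ≤ cz * (E : ℝ) ^ 2 := by
        have h7 : (E : ℝ) ≤ (E : ℝ) ^ 2 := by nlinarith
        exact h6.trans (mul_le_mul_of_nonneg_left h7 hcz.le)
      have h4 : 1 / (Ar * E ^ 2 * ℓ) ≤ cz / ell ρ.im := by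
        rw [div_le_div_iff₀ (by positivity) h5]
        have h9 : Ar * ℓ * 1 ≤ Ar * ℓ * (cz * (E : ℝ) ^ 2) := mul_le_mul_of_nonneg_left h8 (by positivity)
        linarith
      rw [h2η]
      linarith)
  have hK0 : (K1 + K2) * ((((2 * τ₂ + 20 : ℕ) : ℝ) + 4) * Real.log Q + 1 / η) = KF * ℓ := by
    rw [hinv, hKF, ← hℓ]; field_simp
  have hMV1 := hMV (2 * τ₂ + 20) Q η hQ3n hη0 (by linarith)
  refine ⟨fun j => Ck * (KF * Real.log Q) * Real.exp (-(κ * L1)) * (2 * π *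
    ∫ ξ in (-(Q : ℝ) ^ (2 * τ₂ + 20))..((Q : ℝ) ^ (2 * τ₂ + 20)), ‖1 - ZQ (2 * τ₂ + 20) Q j (sp η ξ)‖ ^ 2) +
    CR / (Q : ℝ) ^ 9, ?_, ?_, ?_⟩
  · intro j _
    have h1 : 0 ≤ ∫ ξ in (-(Q : ℝ) ^ (2 * τ₂ + 20))..((Q : ℝ) ^ (2 * τ₂ + 20)),
        ‖1 - ZQ (2 * τ₂ + 20) Q j (sp η ξ)‖ ^ 2 := by
      apply intervalIntegral.integral_nonneg
      · have : (0 : ℝ) ≤ (Q : ℝ) ^ (2 * τ₂ + 20) := by positivity
        linarith
      · intro ξ _; positivity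
    have h2 : 0 ≤ Real.log Q := by rw [← hℓ]; exact hℓ0.le
    positivity
  · apply sum_bounds hK hCk hKF0 hκ0 hCR0 hε hQ3n hL1
      (hQ2.trans (by exact_mod_cast (by omega : Q2 ≤ Q))) 
      (fun j => ∫ ξ in (-(Q : ℝ) ^ (2 * τ₂ + 20))..((Q : ℝ) ^ (2 * τ₂ + 20)), ‖1 - ZQ (2 * τ₂ + 20) Q j (sp η ξ)‖ ^ 2)
    have h1 : κ / Real.log Q = η := by rw [hη, hℓ]
    rw [h1]
    exact hMV1
  · intro j hj hNX u hu1 hu2
    have hrj := hrect j hj hNX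
    rw [hK0] at hrj
    rw [← hℓ] at hu1
    push_cast at hu1
    have hL1' : (0 : ℝ) ≤ L1 := Nat.cast_nonneg L1
    have hL2' : (0 : ℝ) ≤ L2 := Nat.cast_nonneg L2
    have huη : 1 / η ≤ u := by
      rw [hinv, div_eq_mul_one_div, mul_comm]
      refine le_trans (mul_le_mul_of_nonneg_right hL2 hℓ0.le) (le_trans ?_ hu1)
      apply mul_le_mul_of_nonneg_right _ hℓ0.le
      linarith
    have hu0 : 0 ≤ u := le_trans (by positivity) huη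
    have h1 := one_win1 hCk hkap hAf hfar hQ3n hη0 hη1 (by positivity : 0 ≤ KF * ℓ) hj hrj
      (hHH Q (by omega)) (h := 1 / (Q : ℝ) ^ τ₂) (u := u) (by positivity)
      (by
        rw [div_le_one (by positivity)]
        exact one_le_pow₀ hQ1') huη
    have h2 := err_terms (τ₂ := τ₂) hCk hAf (by positivity : 0 ≤ KF * ℓ) hQ3n
      (mul_le_mul_of_nonneg_left hℓQ hKF0.le) hKF0.le hu0 hu2 (by
        rw [← hℓ]
        refine le_trans ?_ hu1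
        push_cast
        apply mul_le_mul_of_nonneg_right _ hℓ0.le
        linarith)
    rw [← hCR] at h2
    have h3 : Ck * (KF * ℓ) * Real.exp (-(η * u)) *
        (2 * π * ∫ ξ in (-(Q : ℝ) ^ (2 * τ₂ + 20))..((Q : ℝ) ^ (2 * τ₂ + 20)), ‖1 - ZQ (2 * τ₂ + 20) Q j (sp η ξ)‖ ^ 2) ≤
        Ck * (KF * ℓ) * Real.exp (-(κ * L1)) *
        (2 * π * ∫ ξ in (-(Q : ℝ) ^ (2 * τ₂ + 20))..((Q : ℝ) ^ (2 * τ₂ + 20)), ‖1 - ZQ (2 * τ₂ + 20) Q j (sp η ξ)‖ ^ 2) := by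
      have h4 : 0 ≤ ∫ ξ in (-(Q : ℝ) ^ (2 * τ₂ + 20))..((Q : ℝ) ^ (2 * τ₂ + 20)),
          ‖1 - ZQ (2 * τ₂ + 20) Q j (sp η ξ)‖ ^ 2 := by
        apply intervalIntegral.integral_nonneg
        · have : (0 : ℝ) ≤ (Q : ℝ) ^ (2 * τ₂ + 20) := by positivity
          linarith
        · intro ξ _; positivity
      have e1 : Real.exp (-(η * u)) ≤ Real.exp (-(κ * L1)) := by
        apply Real.exp_le_exp.2
        have e3 : κ * L1 = η * (L1 * ℓ) := by rw [hη]; field_simp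
        have e4 : η * (L1 * ℓ) ≤ η * u := by
          apply mul_le_mul_of_nonneg_left _ hη0.le
          refine le_trans ?_ hu1
          apply mul_le_mul_of_nonneg_right _ hℓ0.le
          linarith
        linarith
      gcongr
    rw [← hℓ]
    linarith

/-- **short interval sums at a good scale** -/
theorem short_X : ∃ E0 : ℕ, ∀ E : ℕ, E0 ≤ E → ∀ ε : ℝ, 0 < ε → ∃ L0 Q0 : ℕ, ∀ Q : ℕ, Q0 ≤ Q →
    ∃ b : PC → ℝ, (∀ j ∈ fam Q, 0 ≤ b j) ∧ ∑ j ∈ fam Q, b j ≤ ε ∧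
    ∀ j ∈ fam Q, NX 44 E Q j.2 → ∀ y H : ℕ, Q ^ L0 ≤ y → Real.log (y + H : ℕ) ≤ Q → y + H ≤ H * Q ^ 6 →
    ‖∑ n ∈ Finset.Ioc y (y + H), fn j n * (ArithmeticFunction.vonMangoldt n : ℂ) - dl j * H‖ ≤ b j * H := by
  obtain ⟨E0, hE0⟩ := win_one
  refine ⟨E0, fun E hE ε hε => ?_⟩
  obtain ⟨L0, Q0, hmain⟩ := hE0 E hE 10 (ε / 2) (by positivity)
  obtain ⟨Q1, hQ1⟩ := exists_nat_ge (128 / ε)
  refine ⟨L0 + 10, Q0 + Q1 + 3, fun Q hQ => ?_⟩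
  obtain ⟨b, hb0, hbs, hb⟩ := hmain Q (by omega)
  have hQ3n : 3 ≤ Q := by omega
  have hQ3 : (3 : ℝ) ≤ Q := by exact_mod_cast hQ3n
  have hQ0 : (0 : ℝ) < Q := by linarith
  have hQ1' : (1 : ℝ) ≤ Q := by linarith
  refine ⟨fun j => b j + 64 / (Q : ℝ) ^ 3, ?_, ?_, ?_⟩
  · intro j hj
    have := hb0 j hj
    positivity
  · rw [Finset.sum_add_distrib, Finset.sum_const, nsmul_eq_mul]
    have h1 : ((fam Q).card : ℝ) * (64 / (Q : ℝ) ^ 3) ≤ 64 / Q := by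
      calc ((fam Q).card : ℝ) * (64 / (Q : ℝ) ^ 3) ≤ (Q : ℝ) ^ 2 * (64 / (Q : ℝ) ^ 3) :=
            mul_le_mul_of_nonneg_right (card_fam Q) (by positivity)
        _ = 64 / Q := by field_simp
    have h2 : 64 / (Q : ℝ) ≤ ε / 2 := by
      have h3 : 128 / ε ≤ Q := hQ1.trans (by exact_mod_cast (by omega : Q1 ≤ Q))
      rw [div_le_iff₀ hε] at h3
      rw [div_le_iff₀ hQ0]
      linarith
    linarith
  · intro j hj hNX y H hy hyH hH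
    have hy1 : 1 ≤ y := le_trans (Nat.one_le_pow _ _ (by omega)) hy
    have hyr : (1 : ℝ) ≤ y := by exact_mod_cast hy1
    have hHr : (0 : ℝ) ≤ H := Nat.cast_nonneg H
    have hlQ : 0 ≤ Real.log Q := Real.log_natCast_nonneg Q
    have hQ10 : (2 : ℝ) ≤ (Q : ℝ) ^ 10 := by
      calc (2 : ℝ) ≤ Q := by linarith
        _ ≤ _ := le_self_pow₀ hQ1' (by norm_num)
    have hW : ∀ u : ℝ, Real.log y ≤ u → u ≤ Real.log (y + H) →
        ‖WX j.2 (1 / (Q : ℝ) ^ 10) u - dl j‖ ≤ b j := by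
      intro u hu1 hu2
      apply hb j hj hNX u
      · refine le_trans ?_ hu1
        calc (L0 : ℝ) * Real.log Q ≤ ((L0 + 10 : ℕ) : ℝ) * Real.log Q := by
              apply mul_le_mul_of_nonneg_right _ hlQ
              push_cast; linarith
          _ = Real.log ((Q : ℝ) ^ (L0 + 10)) := by rw [Real.log_pow]
          _ ≤ Real.log y := Real.log_le_log (by positivity) (by exact_mod_cast hy)
      · push_cast at hyH
        linarith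
    have h1 := short_one j.2 (h := 1 / (Q : ℝ) ^ 10) (by positivity)
      (by rw [div_le_div_iff₀ (by positivity) (by norm_num)]; linarith) hy1 (H := H) (δ := dl j) hW
    have h2 : ∑ n ∈ Finset.Ioc y (y + H), Xa j.2 n =
        ∑ n ∈ Finset.Ioc y (y + H), fn j n * (ArithmeticFunction.vonMangoldt n : ℂ) := rfl
    rw [h2] at h1
    refine h1.trans ?_
    rw [add_mul]
    have hl3 : Real.log (3 * (y + H) : ℕ) ≤ 2 * Q := by
      push_cast at hyH ⊢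
      rw [Real.log_mul (by norm_num) (by linarith)]
      have : Real.log 3 ≤ 3 - 1 := Real.log_le_sub_one_of_pos (by norm_num)
      linarith
    have hl30 : 0 ≤ Real.log (3 * (y + H) : ℕ) := Real.log_natCast_nonneg _
    have hH' : (y : ℝ) + H ≤ H * (Q : ℝ) ^ 6 := by exact_mod_cast hH
    have hyQ : (Q : ℝ) ^ 10 ≤ y := by
      calc (Q : ℝ) ^ 10 ≤ (Q : ℝ) ^ (L0 + 10) := pow_le_pow_right₀ hQ1' (by omega)
        _ ≤ y := by exact_mod_cast hy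
    have hHQ : (Q : ℝ) ^ 4 ≤ H := by
      have : (Q : ℝ) ^ 4 * (Q : ℝ) ^ 6 ≤ H * (Q : ℝ) ^ 6 := by
        calc (Q : ℝ) ^ 4 * (Q : ℝ) ^ 6 = (Q : ℝ) ^ 10 := by ring
          _ ≤ (y : ℝ) := hyQ
          _ ≤ (y : ℝ) + H := by linarith
          _ ≤ _ := hH'
      exact le_of_mul_le_mul_right this (by positivity)
    have hmid : 2 * (1 / (Q : ℝ) ^ 10) * H + 24 * (1 / (Q : ℝ) ^ 10) * (y + H) + 6 ≤ 32 / (Q : ℝ) ^ 4 * H := by
      have e1 : 1 / (Q : ℝ) ^ 10 * (y + H) ≤ 1 / (Q : ℝ) ^ 4 * H := by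
        calc 1 / (Q : ℝ) ^ 10 * (y + H) ≤ 1 / (Q : ℝ) ^ 10 * (H * (Q : ℝ) ^ 6) :=
              mul_le_mul_of_nonneg_left hH' (by positivity)
          _ = _ := by field_simp
      have e2 : 1 / (Q : ℝ) ^ 10 * H ≤ 1 / (Q : ℝ) ^ 10 * (y + H) :=
        mul_le_mul_of_nonneg_left (by linarith) (by positivity)
      have e3 : (1 : ℝ) ≤ 1 / (Q : ℝ) ^ 4 * H := by
        rw [one_div, inv_mul_eq_div, le_div_iff₀ (by positivity)]
        linarith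
      have e4 : 32 / (Q : ℝ) ^ 4 * H = 32 * (1 / (Q : ℝ) ^ 4 * H) := by ring
      rw [e4]
      linarith
    calc b j * H + Real.log (3 * (y + H) : ℕ) * (2 * (1 / (Q : ℝ) ^ 10) * H + 24 * (1 / (Q : ℝ) ^ 10) * (y + H) + 6)
        ≤ b j * H + 2 * Q * (32 / (Q : ℝ) ^ 4 * H) := by
          have := mul_le_mul hl3 hmid (by positivity) (by positivity)
          linarith
      _ = _ := by field_simp; ring

end Pool.Agent.Helper86.XS
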