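import Pool.Agent.Helper86.XS.X3
import Pool.Agent.H307R2.Sg6
import Pool.Agent.H307R2.LUB

set_option autoImplicit false

/-!
# At most one exceptional character, of a large modulus
-/

open Finset
open ArithmeticFunction (vonMangoldt)

namespace Pool.Agent.Helper86.XS

open Pool.Agent.W66 Pool.Agent.W66L Pool.Agent.TH823.PS
open Pool.Agent.Helper86.PS hiding WW changeLevel_nat

/-- two different primitive characters have a nonprincipal quotient -/
lemma quot_ne {Q : ℕ} {j l : PC} (hj : j ∈ fam Q) (hl : l ∈ fam Q) (hne : j ≠ l) :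
    DirichletCharacter.changeLevel (dvd_mul_right (j.1 + 1) (l.1 + 1)) j.2 ≠
      DirichletCharacter.changeLevel (dvd_mul_left (l.1 + 1) (j.1 + 1)) l.2 := by
  rw [mem_fam] at hj hl
  intro h1
  have : NeZero ((j.1 + 1) * (l.1 + 1)) := ⟨by positivity⟩
  have h2 : (DirichletCharacter.changeLevel (dvd_mul_right (j.1 + 1) (l.1 + 1)) j.2).conductor = j.1 + 1 := by
    rw [DirichletCharacter.conductor_changeLevel]; exact hj.2
  have h3 : (DirichletCharacter.changeLevel (dvd_mul_left (l.1 + 1) (j.1 + 1)) l.2).conductor = l.1 + 1 := by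
    rw [DirichletCharacter.conductor_changeLevel]; exact hl.2
  have h4 : j.1 = l.1 := by
    have : j.1 + 1 = l.1 + 1 := h2.symm.trans ((congrArg DirichletCharacter.conductor h1).trans h3)
    omega
  apply hne
  obtain ⟨j1, j2⟩ := j
  obtain ⟨l1, l2⟩ := l
  simp only at h4
  subst h4
  have h5 : j2 = l2 := by
    apply DirichletCharacter.changeLevel_injective (R := ℂ) (dvd_mul_right (j1 + 1) (j1 + 1))
    exact h1
  rw [h5]

/-- at most one primitive character is exceptional at a scale -/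
theorem unique_exc : ∃ E0 : ℕ, ∀ E : ℕ, E0 ≤ E → ∀ A Q : ℕ, 3 ≤ A → 3 ≤ Q → ∀ j ∈ fam Q, ∀ l ∈ fam Q,
    ¬ NX A E Q j.2 → ¬ NX A E Q l.2 → j = l := by
  obtain ⟨C, hC, hW⟩ := WW_est
  obtain ⟨C1, hC1, hnp⟩ := upper_np
  obtain ⟨E0, hE0⟩ := exists_nat_ge (Real.exp (5 * C1 + C + 1))
  refine ⟨E0 + 2, fun E hE A Q hA hQ j hj l hl hnj hnl => ?_⟩
  by_contra hne
  have hq := quot_ne hj hl hne
  have hjQ := (mem_fam.1 hj).1
  have hlQ := (mem_fam.1 hl).1
  unfold NX at hnj hnl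
  push Not at hnj hnl
  obtain ⟨hj1, hj2, hjs⟩ := hnj
  obtain ⟨hl1, hl2, hls⟩ := hnl
  have hQ0 : 0 < Q := by omega
  have : NeZero ((j.1 + 1) * (l.1 + 1)) := ⟨by positivity⟩
  have hyz : Q ^ A ≤ Q ^ (A * E) := Nat.pow_le_pow_right hQ0 (Nat.le_mul_of_pos_right A (by omega))
  have h3y : 3 ≤ Q ^ A := hQ.trans (Nat.le_self_pow (by omega) Q)
  have hqq : (j.1 + 1) * (l.1 + 1) ≤ Q ^ 2 := by
    calc (j.1 + 1) * (l.1 + 1) ≤ Q * Q := Nat.mul_le_mul hjQ hlQ
      _ = Q ^ 2 := by ring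
  have hψ : DirichletCharacter.changeLevel (dvd_mul_right (j.1 + 1) (l.1 + 1)) j.2 *
      DirichletCharacter.changeLevel (dvd_mul_left (l.1 + 1) (j.1 + 1)) l.2 ≠ 1 := by
    intro hc
    apply hq
    have h5 : DirichletCharacter.changeLevel (dvd_mul_left (l.1 + 1) (j.1 + 1)) l.2 *
        DirichletCharacter.changeLevel (dvd_mul_left (l.1 + 1) (j.1 + 1)) l.2 = 1 := by
      rw [← map_mul, ← sq, hl2, map_one]
    calc DirichletCharacter.changeLevel (dvd_mul_right (j.1 + 1) (l.1 + 1)) j.2 =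
        DirichletCharacter.changeLevel (dvd_mul_right (j.1 + 1) (l.1 + 1)) j.2 *
        (DirichletCharacter.changeLevel (dvd_mul_left (l.1 + 1) (j.1 + 1)) l.2 *
        DirichletCharacter.changeLevel (dvd_mul_left (l.1 + 1) (j.1 + 1)) l.2) := by rw [h5, mul_one]
      _ = _ := by rw [← mul_assoc, hc, one_mul]
  have hlq : lq ((j.1 + 1) * (l.1 + 1)) 0 ≤ Real.log ((Q ^ A : ℕ) : ℝ) := by
    unfold lq ell
    rw [abs_zero, zero_add, ← Real.log_mul (by exact_mod_cast (NeZero.ne ((j.1 + 1) * (l.1 + 1)))) (by norm_num)]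
    apply Real.log_le_log
    · have : (0 : ℝ) < (((j.1 + 1) * (l.1 + 1) : ℕ) : ℝ) := by exact_mod_cast Nat.pos_of_ne_zero (NeZero.ne ((j.1 + 1) * (l.1 + 1)))
      positivity
    · have : (j.1 + 1) * (l.1 + 1) * 3 ≤ Q ^ A := by
        calc (j.1 + 1) * (l.1 + 1) * 3 ≤ Q ^ 2 * Q := Nat.mul_le_mul hqq hQ
          _ = Q ^ 3 := by ring
          _ ≤ Q ^ A := Nat.pow_le_pow_right hQ0 hA
      exact_mod_cast this
  have hab := hnp ((j.1 + 1) * (l.1 + 1)) _ hψ 0 (Q ^ A) (Q ^ (A * E)) h3y hyz hlq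
  have hcop : ∀ p ∈ PP (Q ^ A) (Q ^ (A * E)), p.Coprime (j.1 + 1) ∧ p.Coprime (l.1 + 1) := by
    intro p hp
    have hQy : Q ≤ Q ^ A := Nat.le_self_pow (by omega) Q
    exact ⟨prime_coprime (by omega) (hjQ.trans hQy) hp, prime_coprime (by omega) (hlQ.trans hQy) hp⟩
  have hpos : 0 ≤ ∑ p ∈ PP (Q ^ A) (Q ^ (A * E)), (1 + rt j.2 0 p) * (1 + rt l.2 0 p) / p := by
    apply sum_nonneg
    intro p _
    have a1 := (abs_le.1 (abs_rt_le j.2 0 p)).1
    have a2 := (abs_le.1 (abs_rt_le l.2 0 p)).1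
    apply div_nonneg _ (Nat.cast_nonneg p)
    exact mul_nonneg (by linarith) (by linarith)
  have hexp : ∑ p ∈ PP (Q ^ A) (Q ^ (A * E)), (1 + rt j.2 0 p) * (1 + rt l.2 0 p) / p =
      WW (Q ^ A) (Q ^ (A * E)) + ∑ p ∈ PP (Q ^ A) (Q ^ (A * E)), rt j.2 0 p / p +
      ∑ p ∈ PP (Q ^ A) (Q ^ (A * E)), rt l.2 0 p / p +
      ∑ p ∈ PP (Q ^ A) (Q ^ (A * E)), rt (DirichletCharacter.changeLevel (dvd_mul_right (j.1 + 1) (l.1 + 1)) j.2 *
        DirichletCharacter.changeLevel (dvd_mul_left (l.1 + 1) (j.1 + 1)) l.2) 0 p / p := by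
    unfold WW
    rw [← sum_add_distrib, ← sum_add_distrib, ← sum_add_distrib]
    apply sum_congr rfl
    intro p hp
    obtain ⟨c1, c2⟩ := hcop p hp
    have h5 : rt (DirichletCharacter.changeLevel (dvd_mul_right (j.1 + 1) (l.1 + 1)) j.2 *
        DirichletCharacter.changeLevel (dvd_mul_left (l.1 + 1) (j.1 + 1)) l.2) 0 p = rt j.2 0 p * rt l.2 0 p := by
      rw [rt_zero, rt_zero, rt_zero, MulChar.mul_apply, changeLevel_nat _ _ (c1.mul_right c2),
        changeLevel_nat _ _ (c1.mul_right c2)]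
      rcases real_val hj2 c1 with h4 | h4 <;> rcases real_val hl2 c2 with h5 | h5 <;>
        rw [h4, h5] <;> norm_num
    rw [h5]
    ring
  have w1 := (abs_le.1 (hW Q A (A * E) hQ (by omega) (Nat.le_mul_of_pos_right A (by omega)))).1
  have hA0 : (0 : ℝ) < A := by exact_mod_cast (by omega : 0 < A)
  have e1 : (((A * E : ℕ) : ℝ) / A) = E := by push_cast; field_simp
  rw [e1] at w1
  have hlE : 5 * C1 + C + 1 ≤ Real.log E := by
    rw [Real.le_log_iff_exp_le (by exact_mod_cast (by omega : 0 < E))]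
    refine hE0.trans ?_
    exact_mod_cast (by omega : E0 ≤ E)
  linarith

/-- real characters of small modulus are not exceptional -/
theorem small_level : ∃ E0 : ℕ, ∀ E : ℕ, E0 ≤ E → ∀ A : ℕ, 2 ≤ A → ∀ B : ℕ, ∃ Q0 : ℕ, ∀ Q : ℕ, Q0 ≤ Q →
    ∀ (q : ℕ) [NeZero q], (q : ℝ) ≤ Real.log Q ^ B → ∀ χ : DirichletCharacter ℂ q, χ.IsPrimitive → NX A E Q χ := by
  obtain ⟨C, hC, hW⟩ := WW_est
  obtain ⟨C2, hC2, hps⟩ := prime_sum
  obtain ⟨E2, hE2⟩ := exists_nat_ge (Real.exp (2 * (1 + C2) + C + 1))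
  refine ⟨E2 + 2, fun E hE A hA B => ?_⟩
  obtain ⟨ε, hε⟩ : ∃ ε : ℝ, ε = 1 / (4 * ((B : ℝ) + 1)) := ⟨_, rfl⟩
  have hε0 : 0 < ε := by rw [hε]; positivity
  have hεB : B * (2 * ε) ≤ 1 / 2 := by
    rw [hε]
    have : (B : ℝ) * (2 * (1 / (4 * ((B : ℝ) + 1)))) = (B / (B + 1)) * (1 / 2) := by field_simp; ring
    rw [this]
    have : (B : ℝ) / (B + 1) ≤ 1 := by rw [div_le_one (by positivity)]; linarith
    linarith
  have hε4 : ε ≤ 1 / 4 := by
    rw [hε]
    apply one_div_le_one_div_of_le (by norm_num)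
    have : (0 : ℝ) ≤ B := Nat.cast_nonneg B
    linarith
  obtain ⟨c, hc, hS⟩ := Pool.Agent.H307R2.siegel ε hε0
  obtain ⟨CL, hCL, hLU⟩ := Pool.Agent.H307R2.lUpper ε hε0 (by linarith)
  obtain ⟨D, hD⟩ : ∃ D : ℝ, D = 8 / ε * (CL * 3) := ⟨_, rfl⟩
  have hD0 : 0 < D := by rw [hD]; positivity
  obtain ⟨Q1, hQ1⟩ := exists_nat_ge (Real.exp ((2 * D / c + 8 / ε) ^ 2 + 1))
  refine ⟨Q1 + 3, fun Q hQ q _ hqQ χ hprim h1 h2 => ?_⟩
  have hQ3n : 3 ≤ Q := by omega
  have hQ3 : (3 : ℝ) ≤ Q := by exact_mod_cast hQ3n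
  have hQ0 : (0 : ℝ) < Q := by linarith
  have hL := log_ge_one hQ3n
  obtain ⟨ℓ, hℓ⟩ : ∃ ℓ : ℝ, ℓ = Real.log Q := ⟨_, rfl⟩
  rw [← hℓ] at hL hqQ
  have hℓbig : (2 * D / c + 8 / ε) ^ 2 + 1 ≤ ℓ := by
    rw [hℓ, Real.le_log_iff_exp_le hQ0]
    exact hQ1.trans (by exact_mod_cast (by omega : Q1 ≤ Q))
  have hsq : 2 * D / c + 8 / ε ≤ √ℓ := by
    apply Real.le_sqrt_of_sq_le
    linarith
  have hss : √ℓ * √ℓ = ℓ := Real.mul_self_sqrt (by linarith)
  have hs1 : 1 ≤ √ℓ := by rw [Real.one_le_sqrt]; exact hL.le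
  set y := Q ^ A with hy
  set z := Q ^ (A * E) with hz
  have hAE : A ≤ A * E := Nat.le_mul_of_pos_right A (by omega)
  have hyz : y ≤ z := Nat.pow_le_pow_right (by omega) hAE
  have hy3 : 3 ≤ y := hQ3n.trans (Nat.le_self_pow (by omega) _)
  have hlogy : Real.log (y : ℕ) = A * ℓ := by
    rw [hy]; push_cast; rw [Real.log_pow, ← hℓ]
  have hAr : (2 : ℝ) ≤ A := by exact_mod_cast hA
  have hlyℓ : ℓ ≤ Real.log (y : ℕ) := by rw [hlogy]; nlinarith
  have hq1 : (1 : ℝ) ≤ q := by exact_mod_cast NeZero.one_le (n := q)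
  -- powers of the modulus
  have hq2e : (q : ℝ) ^ (2 * ε) ≤ √ℓ := by
    calc (q : ℝ) ^ (2 * ε) ≤ (ℓ ^ B) ^ (2 * ε) := Real.rpow_le_rpow (by linarith) hqQ (by linarith)
      _ = ℓ ^ ((B : ℝ) * (2 * ε)) := by rw [← Real.rpow_natCast, ← Real.rpow_mul (by linarith)]
      _ ≤ ℓ ^ (1 / 2 : ℝ) := Real.rpow_le_rpow_of_exponent_le hL.le hεB
      _ = √ℓ := (Real.sqrt_eq_rpow ℓ).symm
  have hqe0 : 0 < (q : ℝ) ^ ε := Real.rpow_pos_of_pos (by linarith) _
  have hqe2 : (q : ℝ) ^ ε * (q : ℝ) ^ ε = (q : ℝ) ^ (2 * ε) := by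
    rw [← Real.rpow_add (by linarith)]; congr 1; ring
  have hqneg : (q : ℝ) ^ (-ε) = 1 / (q : ℝ) ^ ε := by rw [Real.rpow_neg (by linarith), one_div]
  have hL1 := hS q χ hprim h2 h1
  rw [hqneg] at hL1
  have hdiff : Differentiable ℂ χ.LFunction := DirichletCharacter.differentiable_LFunction h1
  -- the derivative
  have hder : ∀ σ : ℝ, 1 ≤ σ → σ ≤ 1 + 1 / 4 → ‖deriv χ.LFunction (σ : ℂ)‖ ≤ D * (q : ℝ) ^ ε := by
    intro σ hσ1 hσ2
    have h := Complex.norm_deriv_le_of_forall_mem_sphere_norm_le (c := (σ : ℂ)) (R := ε / 8) (C := CL * 3 * (q : ℝ) ^ ε)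
      (by positivity) (f := χ.LFunction) hdiff.diffContOnCl ?_
    · refine h.trans (le_of_eq ?_)
      rw [hD]; field_simp
    · intro u hu
      rw [mem_sphere_iff_norm] at hu
      have hre : |u.re - σ| ≤ ε / 8 := by
        have := Complex.abs_re_le_norm (u - (σ : ℂ))
        rw [Complex.sub_re, Complex.ofReal_re, hu] at this
        exact this
      have him : |u.im| ≤ ε / 8 := by
        have := Complex.abs_im_le_norm (u - (σ : ℂ))
        rw [Complex.sub_im, Complex.ofReal_im, sub_zero, hu] at this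
        exact this
      rw [abs_le] at hre
      refine (hLU q χ h1 u (by linarith [hre.1]) (by linarith [hre.2])).trans ?_
      rw [mul_assoc]
      apply mul_le_mul_of_nonneg_left _ hCL.le
      have e1 : ((q : ℝ) * (|u.im| + 2)) ^ ε ≤ (q * 3) ^ ε := by
        apply Real.rpow_le_rpow (by positivity) _ hε0.le
        apply mul_le_mul_of_nonneg_left _ (by linarith)
        linarith
      refine e1.trans ?_
      rw [Real.mul_rpow (by linarith) (by norm_num), mul_comm]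
      apply mul_le_mul_of_nonneg_right _ hqe0.le
      calc (3 : ℝ) ^ ε ≤ 3 ^ (1 : ℝ) := Real.rpow_le_rpow_of_exponent_le (by norm_num) (by linarith)
        _ = 3 := Real.rpow_one 3
  have hly1 : 1 < Real.log (y : ℕ) := log_ge_one hy3
  have hly4 : 1 / Real.log (y : ℕ) ≤ 1 / 4 := by
    apply one_div_le_one_div_of_le (by norm_num)
    have e1 : (8 : ℝ) ≤ 8 / ε := by
      rw [le_div_iff₀ hε0]; linarith
    have e2 : 0 ≤ 2 * D / c := by positivity
    nlinarith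
  have hquot : ∀ σ : ℝ, 1 < σ → σ ≤ 1 + 1 / Real.log (y : ℕ) →
      ‖deriv χ.LFunction (σ : ℂ) / χ.LFunction (σ : ℂ)‖ ≤ Real.log (y : ℕ) := by
    intro σ hσ1 hσ2
    have hlip : ‖χ.LFunction (σ : ℂ) - χ.LFunction 1‖ ≤ D * (q : ℝ) ^ ε * (σ - 1) := by
      have h := Convex.norm_image_sub_le_of_norm_deriv_le (𝕜 := ℝ) (f := fun t : ℝ => χ.LFunction (t : ℂ))
        (s := Set.Icc 1 (1 + 1 / 4)) (C := D * (q : ℝ) ^ ε) (x := 1) (y := σ)
        (fun t _ => ((hdiff.differentiableAt (x := (t : ℂ))).hasDerivAt.comp_ofReal).differentiableAt)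
        (fun t ht => by
          have e1 : deriv (fun t : ℝ => χ.LFunction (t : ℂ)) t = deriv χ.LFunction (t : ℂ) :=
            (hdiff.differentiableAt (x := (t : ℂ))).hasDerivAt.comp_ofReal.deriv
          rw [e1]
          exact hder t ht.1 ht.2) (convex_Icc _ _) ⟨le_rfl, by norm_num⟩ ⟨hσ1.le, by linarith⟩
      rw [Real.norm_eq_abs, abs_of_pos (by linarith : 0 < σ - 1)] at h
      simpa using h
    have hs2 : D * (q : ℝ) ^ ε * (σ - 1) ≤ c * (1 / (q : ℝ) ^ ε) / 2 := by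
      have e1 : σ - 1 ≤ 1 / ℓ := by
        have : 1 / Real.log (y : ℕ) ≤ 1 / ℓ := one_div_le_one_div_of_le (by linarith) hlyℓ
        linarith
      have e2 : D * (q : ℝ) ^ ε * (σ - 1) ≤ D * (q : ℝ) ^ ε * (1 / ℓ) := mul_le_mul_of_nonneg_left e1 (by positivity)
      refine e2.trans ?_
      have e3 : D * ((q : ℝ) ^ ε * (q : ℝ) ^ ε) * 2 ≤ c * ℓ := by
        rw [hqe2]
        have e4 : 2 * D / c ≤ √ℓ := by
          have : 0 ≤ 8 / ε := by positivity
          linarith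
        rw [div_le_iff₀ hc] at e4
        calc D * (q : ℝ) ^ (2 * ε) * 2 = (2 * D) * (q : ℝ) ^ (2 * ε) := by ring
          _ ≤ (√ℓ * c) * √ℓ := mul_le_mul e4 hq2e (by positivity) (by positivity)
          _ = c * (√ℓ * √ℓ) := by ring
          _ = c * ℓ := by rw [hss]
      have hℓ0 : 0 < ℓ := by linarith
      rw [mul_one_div, mul_one_div, div_div, div_le_div_iff₀ hℓ0 (by positivity)]
      calc D * (q : ℝ) ^ ε * ((q : ℝ) ^ ε * 2) = D * ((q : ℝ) ^ ε * (q : ℝ) ^ ε) * 2 := by ring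
        _ ≤ c * ℓ := e3
    have hlow : c * (1 / (q : ℝ) ^ ε) / 2 ≤ ‖χ.LFunction (σ : ℂ)‖ := by
      have e1 : ‖χ.LFunction 1‖ ≤ ‖χ.LFunction (σ : ℂ)‖ + ‖χ.LFunction (σ : ℂ) - χ.LFunction 1‖ := by
        have := norm_sub_le (χ.LFunction (σ : ℂ)) (χ.LFunction (σ : ℂ) - χ.LFunction 1)
        simpa using this
      linarith
    have hlow0 : 0 < c * (1 / (q : ℝ) ^ ε) / 2 := by positivity
    rw [norm_div, div_le_iff₀ (by linarith)]
    refine (hder σ hσ1.le (by linarith)).trans ?_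
    have e5 : D * (q : ℝ) ^ ε ≤ Real.log (y : ℕ) * (c * (1 / (q : ℝ) ^ ε) / 2) := by
      have e3 : D * ((q : ℝ) ^ ε * (q : ℝ) ^ ε) * 2 ≤ c * ℓ := by
        rw [hqe2]
        have e4 : 2 * D / c ≤ √ℓ := by
          have : 0 ≤ 8 / ε := by positivity
          linarith
        rw [div_le_iff₀ hc] at e4
        calc D * (q : ℝ) ^ (2 * ε) * 2 = (2 * D) * (q : ℝ) ^ (2 * ε) := by ring
          _ ≤ (√ℓ * c) * √ℓ := mul_le_mul e4 hq2e (by positivity) (by positivity)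
          _ = c * (√ℓ * √ℓ) := by ring
          _ = c * ℓ := by rw [hss]
      have e6 : c * ℓ ≤ c * Real.log (y : ℕ) := mul_le_mul_of_nonneg_left hlyℓ hc.le
      have e7 : Real.log (y : ℕ) * (c * (1 / (q : ℝ) ^ ε) / 2) = c * Real.log (y : ℕ) / ((q : ℝ) ^ ε * 2) := by
        field_simp
      rw [e7, le_div_iff₀ (by positivity)]
      calc D * (q : ℝ) ^ ε * ((q : ℝ) ^ ε * 2) = D * ((q : ℝ) ^ ε * (q : ℝ) ^ ε) * 2 := by ring
        _ ≤ c * ℓ := e3
        _ ≤ _ := e6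
    exact e5.trans (mul_le_mul_of_nonneg_left hlow (by linarith))
  have hfin := hps (fun n => -rt χ 0 n) (fun n => by rw [abs_neg]; exact abs_rt_le χ 0 n) y z hy3 hyz
    (Real.log (y : ℕ)) (by linarith) (by
      intro σ hσ1 hσ2
      have hl1 : 1 < Real.log (z : ℕ) := log_ge_one (hy3.trans hyz)
      have hσ : 1 < σ := by
        have : 0 < 1 / Real.log (z : ℕ) := one_div_pos.2 (by linarith)
        linarith
      have h3 : (∑' n : ℕ, (-rt χ 0 n) * vonMangoldt n * (n : ℝ) ^ (-σ)) =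
          -(∑' n : ℕ, rt χ 0 n * vonMangoldt n * (n : ℝ) ^ (-σ)) := by
        rw [← tsum_neg]
        apply tsum_congr
        intro n
        ring
      rw [h3, tsum_ct χ hσ 0, LSeries_eq_DL χ h1 (by exact hσ), Complex.neg_re, neg_neg]
      have h4 := hquot σ hσ hσ2
      have h5 : (⟨σ, 0⟩ : ℂ) = (σ : ℂ) := by apply Complex.ext <;> simp
      refine (Complex.re_le_norm _).trans ?_
      rw [← h5] at h4
      exact h4)
  have e9 : Real.log (y : ℕ) / Real.log (y : ℕ) = 1 := div_self (by linarith)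
  rw [e9] at hfin
  have hsum : ∑ p ∈ (Ioc y z).filter Nat.Prime, (-rt χ 0 p) / p = -∑ p ∈ PP y z, rt χ 0 p / p := by
    unfold PP
    rw [← sum_neg_distrib]
    apply sum_congr rfl
    intro p _
    ring
  rw [hsum] at hfin
  have hA0 : (0 : ℝ) < A := by linarith
  have w1 := (abs_le.1 (hW Q A (A * E) hQ3n (by omega) hAE)).1
  have e1 : (((A * E : ℕ) : ℝ) / A) = E := by push_cast; field_simp
  rw [e1] at w1
  have hlE : 2 * (1 + C2) + C + 1 ≤ Real.log E := by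
    rw [Real.le_log_iff_exp_le (by exact_mod_cast (by omega : 0 < E))]
    refine hE2.trans ?_
    exact_mod_cast (by omega : E2 ≤ E)
  linarith

end Pool.Agent.Helper86.XS
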