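import Pool.Agent.Helper86.XS.X5
import Pool.Agent.Helper86.PS.G3

set_option autoImplicit false

/-!
# The Fourier and mean square bounds with a larger window error
-/

open Finset

namespace Pool.Agent.Helper86.XS

open Pool.Agent.H807R2.Dav Pool.Agent.Helper86.PS

/-- the near terms for large denominators -/
lemma near_b3 {Q R M H Y k : ℕ} (hQ : 1 ≤ Q) (hkQ : Q < k) (hQR : Q ≤ R) (hHM : H ≤ M) (b : ℕ) (β : ℝ) {B : PC → ℝ}
    (hB : ∀ j ∈ fam Q, 0 ≤ B j) (hBs : ∑ j ∈ fam Q, B j ≤ 3)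
    (hw : ∀ j ∈ fam Q, ∀ n : ℤ, (Y : ℤ) ≤ n → n + H ≤ M → ‖wj M H j n - dl j‖ ≤ B j) :
    ‖∑ j ∈ fam Q, ∑ S ∈ (SS R).filter (fun S => kk j S = k), FC k (GG j S) b * FT (wj M H j) β‖ ≤
      (Nat.log 2 R + 1) ^ 2 / √(Q : ℝ) * (4 * M + (Q : ℝ) ^ 2 * ((Y + 3 * H + 2) * Real.log M) + 4) := by
  have hl := Real.log_natCast_nonneg M
  have h1 : ∀ j ∈ fam Q, ‖∑ S ∈ (SS R).filter (fun S => kk j S = k), FC k (GG j S) b * FT (wj M H j) β‖ ≤
      (Nat.log 2 R + 1) ^ 2 / √(Q : ℝ) * (M * (‖dl j‖ + B j) + (Y + 3 * H + 2) * Real.log M + (‖dl j‖ + B j)) := by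
    intro j hj
    rw [← sum_mul, norm_mul]
    apply mul_le_mul _ _ (norm_nonneg _) (by positivity)
    · refine le_trans ?_ (Csum_bound hQ hQR hkQ hj)
      apply norm_sum_le_of_le
      intro S hS
      rw [mem_filter] at hS
      have hE := GG_EP (mem_fam.1 hj).2 (SS_prime hS.1)
      have := hE.bd b
      rw [hS.2] at this
      exact this
    · exact (FT_norm_le (SF_wj M H j) β).trans (wj_sum (hB j hj) hHM (hw j hj))
  refine (norm_sum_le_of_le _ h1).trans ?_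
  rw [← mul_sum]
  apply mul_le_mul_of_nonneg_left _ (by positivity)
  rw [sum_add_distrib, sum_add_distrib, ← mul_sum, sum_const, nsmul_eq_mul, sum_add_distrib]
  have h2 : ∑ j ∈ fam Q, ‖dl j‖ + ∑ j ∈ fam Q, B j ≤ 4 := by linarith [sum_dl Q]
  have h3 : (M : ℝ) * (∑ j ∈ fam Q, ‖dl j‖ + ∑ j ∈ fam Q, B j) ≤ M * 4 :=
    mul_le_mul_of_nonneg_left h2 (Nat.cast_nonneg _)
  have h4 : ((fam Q).card : ℝ) * ((Y + 3 * H + 2) * Real.log M) ≤ (Q : ℝ) ^ 2 * ((Y + 3 * H + 2) * Real.log M) :=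
    mul_le_mul_of_nonneg_right (card_fam Q) (by positivity)
  linarith

/-- **the Fourier bound**, explicit form -/
lemma fourier_explicit3 : ∃ N0 : ℕ, ∀ M Q R H Y : ℕ, N0 ≤ M → 2 ≤ Q → Q ≤ R → Q ^ 4 ≤ M → 4 * Q * R * Q ≤ M → 0 < H → H ≤ M →
    ∀ B : PC → ℝ, (∀ j ∈ fam Q, 0 ≤ B j) → ∑ j ∈ fam Q, B j ≤ 3 →
    (∀ j ∈ fam Q, ∀ n : ℤ, (Y : ℤ) ≤ n → n + H ≤ M → ‖wj M H j n - dl j‖ ≤ B j) → ∀ θ : ℝ,
    ‖FT (Lam M) θ - FT (LB Q R M H) θ‖ ≤ 400000 * Real.log M ^ 7 * (M / √(Q : ℝ)) +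
      (Q : ℝ) ^ 3 * R ^ 2 * ((4 * Q * R * (Q * R) / H) ^ 2 * (M * Real.log M)) +
      ((Q : ℝ) ^ 2 * R + 1) * (Q * (Nat.log 2 M + 1) * Real.log M) +
      (Nat.log 2 R + 1) ^ 2 / √(Q : ℝ) * (4 * M + (Q : ℝ) ^ 2 * ((Y + 3 * H + 2) * Real.log M) + 4) +
      2 * Real.pi * H * Q * Real.log M := by
  obtain ⟨N0, hN0⟩ := vaughan
  refine ⟨N0 + 1, fun M Q R H Y hM hQ2 hQR hQM hXM hH hHM B hB hBs hw θ => ?_⟩
  have hM0 : (0 : ℝ) < M := by exact_mod_cast (by omega : 0 < M)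
  have hQ0 : (0 : ℝ) < Q := by exact_mod_cast (by omega : 0 < Q)
  have hR0 : (0 : ℝ) < R := by exact_mod_cast (by omega : 0 < R)
  have hH0 : (0 : ℝ) < H := by exact_mod_cast hH
  have hl := Real.log_natCast_nonneg M
  have hV0 : 0 ≤ 400000 * Real.log M ^ 7 * (M / √(Q : ℝ)) := by positivity
  have hNA : 0 ≤ ((Q : ℝ) ^ 2 * R + 1) * (Q * (Nat.log 2 M + 1) * Real.log M) := by positivity
  have hNB : 0 ≤ (Nat.log 2 R + 1) ^ 2 / √(Q : ℝ) * (4 * M + (Q : ℝ) ^ 2 * ((Y + 3 * H + 2) * Real.log M) + 4) := by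
    positivity
  have hK0 : 0 ≤ 2 * Real.pi * H * Q * Real.log M := by positivity
  have hX0 : 0 < 4 * Q * R := Nat.mul_pos (by omega) (by omega)
  obtain ⟨q, hq1, hq2⟩ := Real.exists_rat_abs_sub_le_and_den_le θ hX0
  obtain ⟨k, hk⟩ : ∃ k : ℕ, k = q.den := ⟨_, rfl⟩
  have hk0 : 0 < k := by rw [hk]; exact q.den_pos
  have hkr : (0 : ℝ) < k := by exact_mod_cast hk0
  rw [← hk] at hq1 hq2
  have hkX : (k : ℝ) ≤ 4 * Q * R := by exact_mod_cast hq2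
  obtain ⟨b, hb⟩ : ∃ b : ℕ, (b : ℤ) = (-q.num) % k :=
    ⟨((-q.num) % k).toNat, Int.toNat_of_nonneg (Int.emod_nonneg _ (by exact_mod_cast hk0.ne'))⟩
  have hbk : b < k := by
    have := Int.emod_lt_of_pos (-q.num) (by exact_mod_cast hk0 : (0 : ℤ) < k)
    rw [← hb] at this
    exact_mod_cast this
  obtain ⟨t, ht⟩ : ∃ t : ℤ, -(b : ℤ) = q.num + k * t := by
    refine ⟨(-q.num) / k, ?_⟩
    have := Int.emod_add_mul_ediv (-q.num) k
    rw [← hb] at this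
    linarith
  have hqr : (q : ℝ) = (q.num : ℝ) / k := by rw [hk]; exact_mod_cast (Rat.num_div_den q).symm
  have hcopq : IsCoprime q.num (k : ℤ) := by
    rw [hk, Int.isCoprime_iff_gcd_eq_one]
    exact q.reduced
  have hbcop : IsCoprime (b : ℤ) (k : ℤ) := by
    have e1 : (b : ℤ) = -q.num + k * (-t) := by linarith
    rw [e1]
    exact hcopq.neg_left.add_mul_left_left (-t)
  obtain ⟨β, hβ⟩ : ∃ β : ℝ, β = θ - q := ⟨_, rfl⟩
  have hβX : |β| ≤ 1 / (k * ((4 * Q * R : ℕ) : ℝ)) := by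
    rw [hβ]
    refine hq1.trans ?_
    apply one_div_le_one_div_of_le
    · have : (0 : ℝ) < ((4 * Q * R : ℕ) : ℝ) := by exact_mod_cast hX0
      positivity
    · rw [mul_comm]
      apply mul_le_mul_of_nonneg_right _ hkr.le
      linarith
  have hθt : θ + t = -(b : ℝ) / k + β := by
    have e1 : -(b : ℝ) = (q.num : ℝ) + k * t := by exact_mod_cast ht
    rw [hβ, hqr, e1]
    field_simp
    ring
  have hFT : ∀ f : ℤ → ℂ, FT f θ = FT f (-(b : ℝ) / k + β) := by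
    intro f
    rw [← hθt, FT_int]
  have hsplit := FT_split (M := M) hH (by rw [mul_assoc] : 4 * (Q * R) ≤ 4 * Q * R) hk0 hbk hbcop hβX
  have hfar : (Q : ℝ) ^ 3 * R ^ 2 * ((k * (Q * R) / H) ^ 2 * (M * Real.log M)) ≤
      (Q : ℝ) ^ 3 * R ^ 2 * ((4 * Q * R * (Q * R) / H) ^ 2 * (M * Real.log M)) := by gcongr
  rcases Nat.lt_or_ge Q k with hkQ | hkQ
  · -- large denominator
    have hV := hN0 M (by omega) Q (by omega) hQM q (by rw [← hk]; exact hkQ)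
      (by rw [← hk]; exact (Nat.mul_le_mul_right Q hq2).trans hXM) θ (by
        rw [← hk]
        refine hq1.trans ?_
        apply one_div_le_one_div_of_le (by positivity)
        rw [sq]
        apply mul_le_mul_of_nonneg_right _ hkr.le
        have : (k : ℝ) ≤ ((4 * Q * R : ℕ) : ℝ) := by exact_mod_cast hq2
        linarith)
    have hnb := near_b3 (R := R) (by omega : 1 ≤ Q) hkQ hQR hHM b β hB hBs hw
    have h1 : ‖FT (LB Q R M H) θ‖ ≤ (Q : ℝ) ^ 3 * R ^ 2 * ((k * (Q * R) / H) ^ 2 * (M * Real.log M)) +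
        (Nat.log 2 R + 1) ^ 2 / √(Q : ℝ) * (4 * M + (Q : ℝ) ^ 2 * ((Y + 3 * H + 2) * Real.log M) + 4) := by
      rw [hFT]
      refine (norm_le_norm_sub_add _ _).trans (add_le_add hsplit hnb)
    have h2 := norm_sub_le (FT (Lam M) θ) (FT (LB Q R M H) θ)
    have h3 : 200000 * Real.log M ^ 7 * (M / √(Q : ℝ)) ≤ 400000 * Real.log M ^ 7 * (M / √(Q : ℝ)) := by
      have : 0 ≤ Real.log M ^ 7 * (M / √(Q : ℝ)) := by positivity
      linarith
    linarith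
  · -- small denominator
    have hna := near_a (M := M) (H := H) hk0 hkQ hQR hbcop β
    have hkQr : (k : ℝ) ≤ Q := by exact_mod_cast hkQ
    have hna' : ((Q : ℝ) ^ 2 * R + 1) * (k * (Nat.log 2 M + 1) * Real.log M) ≤
        ((Q : ℝ) ^ 2 * R + 1) * (Q * (Nat.log 2 M + 1) * Real.log M) := by gcongr
    have h1 : ‖FT (LB Q R M H) θ - KH H β * FT (Lam M) θ‖ ≤
        (Q : ℝ) ^ 3 * R ^ 2 * ((k * (Q * R) / H) ^ 2 * (M * Real.log M)) +
        ((Q : ℝ) ^ 2 * R + 1) * (k * (Nat.log 2 M + 1) * Real.log M) := by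
      rw [hFT, hFT (Lam M)]
      refine (norm_sub_le_norm_sub_add_norm_sub _ _ _).trans (add_le_add hsplit hna)
    have h2 : ‖(1 - KH H β) * FT (Lam M) θ‖ ≤ 400000 * Real.log M ^ 7 * (M / √(Q : ℝ)) +
        2 * Real.pi * H * Q * Real.log M := by
      rw [norm_mul]
      rcases le_or_gt |β| (Q / M) with hs | hs
      · have e1 := KH_near hH β
        have e2 := FT_Lam_norm M θ
        calc ‖1 - KH H β‖ * ‖FT (Lam M) θ‖ ≤ (2 * Real.pi * H * (Q / M)) * (M * Real.log M) := by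
              apply mul_le_mul _ e2 (norm_nonneg _) (by positivity)
              exact e1.trans (mul_le_mul_of_nonneg_left hs (by positivity))
          _ = 2 * Real.pi * H * Q * Real.log M := by field_simp
          _ ≤ _ := by linarith
      · have e1 : ‖1 - KH H β‖ ≤ 2 := by
          refine (norm_sub_le _ _).trans ?_
          rw [norm_one]
          linarith [KH_le H β]
        have hMQ : 0 < M / Q := Nat.div_pos ((Nat.le_self_pow (n := 4) (by norm_num) Q).trans hQM) (by omega)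
        obtain ⟨q₂, hp1, hp2⟩ := Real.exists_rat_abs_sub_le_and_den_le θ hMQ
        have hd2 : (0 : ℝ) < q₂.den := by exact_mod_cast q₂.den_pos
        have hMQr : (M : ℝ) ≤ (((M / Q : ℕ) : ℝ) + 1) * Q := aux_div M (by omega)
        have hp3 : |θ - q₂| ≤ Q / (M * q₂.den) := by
          refine hp1.trans ?_
          rw [div_le_div_iff₀ (by positivity) (by positivity), one_mul]
          calc (M : ℝ) * q₂.den ≤ (((M / Q : ℕ) : ℝ) + 1) * Q * q₂.den := mul_le_mul_of_nonneg_right hMQr hd2.le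
            _ = _ := by ring
        have hbig : Q < q₂.den := by
          by_contra hcon
          rw [not_lt] at hcon
          have hconr : (q₂.den : ℝ) ≤ Q := by exact_mod_cast hcon
          by_cases hqq : q = q₂
          · have : |β| ≤ Q / M := by
              rw [hβ, hqq]
              refine hp3.trans ?_
              apply div_le_div_of_nonneg_left hQ0.le hM0
              have : (1 : ℝ) ≤ q₂.den := by exact_mod_cast q₂.den_pos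
              exact le_mul_of_one_le_right hM0.le this
            linarith
          · have hsep : 1 / ((k : ℝ) * q₂.den) ≤ |(q : ℝ) - q₂| := by
              have e3 : (q₂ : ℝ) = (q₂.num : ℝ) / q₂.den := by exact_mod_cast (Rat.num_div_den q₂).symm
              have e4 : (q : ℝ) - q₂ = ((q.num * q₂.den - q₂.num * k : ℤ) : ℝ) / (k * q₂.den) := by
                rw [hqr, e3]
                push_cast
                field_simp
              have e5 : q.num * q₂.den - q₂.num * k ≠ 0 := by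
                intro h0
                rw [h0] at e4
                apply hqq
                have : (q : ℝ) = q₂ := by
                  rw [← sub_eq_zero, e4]; simp
                exact_mod_cast this
              rw [e4, abs_div, abs_of_pos (by positivity : (0 : ℝ) < k * q₂.den)]
              apply div_le_div_of_nonneg_right _ (by positivity)
              rw [← Int.cast_abs]
              exact_mod_cast Int.one_le_abs e5
            have e6 : |(q : ℝ) - q₂| ≤ |β| + |θ - q₂| := by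
              rw [hβ]
              have : (q : ℝ) - q₂ = (θ - q₂) - (θ - q) := by ring
              rw [this]
              refine (abs_sub _ _).trans (le_of_eq ?_)
              ring
            have e7 : 1 / ((k : ℝ) * q₂.den) ≤ 1 / (k * ((4 * Q * R : ℕ) : ℝ)) + Q / (M * q₂.den) := by linarith
            have e8 : (1 : ℝ) ≤ q₂.den / ((4 * Q * R : ℕ) : ℝ) + k * Q / M := by
              have hX0r : (0 : ℝ) < ((4 * Q * R : ℕ) : ℝ) := by exact_mod_cast hX0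
              have := mul_le_mul_of_nonneg_left e7 (by positivity : 0 ≤ (k : ℝ) * q₂.den)
              have e9 : (k : ℝ) * q₂.den * (1 / ((k : ℝ) * q₂.den)) = 1 := by field_simp
              have e10 : (k : ℝ) * q₂.den * (1 / (k * ((4 * Q * R : ℕ) : ℝ)) + Q / (M * q₂.den)) =
                  q₂.den / ((4 * Q * R : ℕ) : ℝ) + k * Q / M := by field_simp
              rw [e9, e10] at this
              exact this
            have e11 : (q₂.den : ℝ) / ((4 * Q * R : ℕ) : ℝ) ≤ 1 / 4 := by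
              push_cast
              rw [div_le_div_iff₀ (by positivity) (by norm_num)]
              exact aux_e11 hconr hQ0 (by exact_mod_cast (by omega : 1 ≤ R))
            have e12 : (k : ℝ) * Q / M ≤ 1 / 4 := by
              rw [div_le_div_iff₀ hM0 (by norm_num)]
              exact aux_e12 hkQr (by exact_mod_cast hQ2) (by exact_mod_cast hQM)
            linarith
        have hV := hN0 M (by omega) Q (by omega) hQM q₂ hbig
          ((Nat.mul_le_mul_right Q hp2).trans (Nat.div_mul_le_self M Q)) θ (by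
            refine hp1.trans ?_
            apply one_div_le_one_div_of_le (by positivity)
            rw [sq]
            apply mul_le_mul_of_nonneg_right _ hd2.le
            have : (q₂.den : ℝ) ≤ ((M / Q : ℕ) : ℝ) := by exact_mod_cast hp2
            linarith)
        calc ‖1 - KH H β‖ * ‖FT (Lam M) θ‖ ≤ 2 * (200000 * Real.log M ^ 7 * (M / √(Q : ℝ))) :=
              mul_le_mul e1 hV (norm_nonneg _) (by norm_num)
          _ = 400000 * Real.log M ^ 7 * (M / √(Q : ℝ)) := by ring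
          _ ≤ _ := by linarith
    have h3 : FT (Lam M) θ - FT (LB Q R M H) θ = (1 - KH H β) * FT (Lam M) θ -
        (FT (LB Q R M H) θ - KH H β * FT (Lam M) θ) := by ring
    rw [h3]
    refine (norm_sub_le _ _).trans ?_
    linarith

/-- **the Fourier bound** -/
theorem fourier_main3 (CR L2 : ℕ) (hCR : 1 ≤ CR) : ∃ Q0 : ℕ, ∀ Q : ℕ, Q0 ≤ Q → ∀ M : ℕ, Q ^ (6 * CR + 20) ≤ M → M ≤ Q ^ L2 →
    ∀ B : PC → ℝ, (∀ j ∈ fam Q, 0 ≤ B j) → ∑ j ∈ fam Q, B j ≤ 3 →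
    (∀ j ∈ fam Q, ∀ n : ℤ, ((M / Q ^ 3 : ℕ) : ℤ) ≤ n → n + (M / Q ^ 4 : ℕ) ≤ M → ‖wj M (M / Q ^ 4) j n - dl j‖ ≤ B j) →
    ∀ θ : ℝ, ‖FT (Lam M) θ - FT (LB Q (Q ^ CR) M (M / Q ^ 4)) θ‖ ≤ M * (Q : ℝ) ^ (-(1 / 4) : ℝ) := by
  obtain ⟨N0, hN0⟩ := fourier_explicit3
  obtain ⟨K, hK⟩ : ∃ K : ℝ, K = 400000 * (L2 : ℝ) ^ 7 + 64 * L2 + 6 * (L2 : ℝ) ^ 2 + 9 * (CR : ℝ) ^ 2 * (8 + 6 * L2) +
    7 * L2 := ⟨_, rfl⟩
  obtain ⟨Q1, hQ1⟩ := ev_log K 7 (a := 1 / 4) (by norm_num)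
  refine ⟨N0 + Q1 + 3, fun Q hQ M hM1 hM2 B hB hBs hw θ => ?_⟩
  have hQ3n : 3 ≤ Q := by omega
  have hQ3 : (3 : ℝ) ≤ Q := by exact_mod_cast hQ3n
  have hQ0 : (0 : ℝ) < Q := by linarith
  have hQ1' : (1 : ℝ) ≤ Q := by linarith
  obtain ⟨ℓ, hℓ⟩ : ∃ ℓ : ℝ, ℓ = Real.log Q := ⟨_, rfl⟩
  have hℓ1 : 1 ≤ ℓ := by
    rw [hℓ, Real.le_log_iff_exp_le hQ0]
    linarith [Real.exp_one_lt_d9]
  have hℓ0 : 0 < ℓ := by linarith
  have hℓQ : ℓ ≤ Q := by rw [hℓ]; exact (Real.log_le_sub_one_of_pos hQ0).trans (by linarith)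
  have hle : ∀ n : ℕ, n ≤ 6 * CR + 20 → Q ^ n ≤ M := fun n hn =>
    (Nat.pow_le_pow_right (by omega) hn).trans hM1
  have hler : ∀ n : ℕ, n ≤ 6 * CR + 20 → (Q : ℝ) ^ n ≤ M := fun n hn => by exact_mod_cast hle n hn
  have hQM : Q ≤ M := by simpa using hle 1 (by omega)
  have hM0 : (0 : ℝ) < M := by exact_mod_cast (by omega : 0 < M)
  have hQMr : (Q : ℝ) ≤ M := by exact_mod_cast hQM
  have hlM0 : 0 ≤ Real.log M := Real.log_natCast_nonneg M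
  have hlM : Real.log M ≤ L2 * ℓ := by
    have : Real.log M ≤ Real.log ((Q : ℝ) ^ L2) := Real.log_le_log hM0 (by exact_mod_cast hM2)
    rwa [Real.log_pow, ← hℓ] at this
  obtain ⟨H, hH⟩ : ∃ H : ℕ, H = M / Q ^ 4 := ⟨_, rfl⟩
  obtain ⟨Y, hY⟩ : ∃ Y : ℕ, Y = M / Q ^ 3 := ⟨_, rfl⟩
  rw [← hH, ← hY] at hw
  rw [← hH]
  have hHpos : 0 < H := by
    rw [hH]; exact Nat.div_pos (hle 4 (by omega)) (by positivity)
  have hHM : H ≤ M := by rw [hH]; exact Nat.div_le_self _ _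
  have hHlow : (M : ℝ) / (2 * (Q : ℝ) ^ 4) ≤ H := by
    have := div_lower (M := M) (D := Q ^ 4) (by positivity) (by
      calc 2 * Q ^ 4 ≤ Q * Q ^ 4 := Nat.mul_le_mul_right _ (by omega)
        _ = Q ^ 5 := by ring
        _ ≤ M := hle 5 (by omega))
    rw [hH]
    push_cast at this ⊢
    exact this
  have hHup : (H : ℝ) ≤ M / (Q : ℝ) ^ 4 := by
    rw [hH]
    have := div_upper M (Q ^ 4)
    push_cast at this ⊢
    exact this
  have hYup : (Y : ℝ) ≤ M / (Q : ℝ) ^ 3 := by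
    rw [hY]
    have := div_upper M (Q ^ 3)
    push_cast at this ⊢
    exact this
  have hH0 : (0 : ℝ) < H := by exact_mod_cast hHpos
  obtain ⟨R, hR⟩ : ∃ R : ℕ, R = Q ^ CR := ⟨_, rfl⟩
  have hQR : Q ≤ R := by
    rw [hR]
    calc Q = Q ^ 1 := (pow_one Q).symm
      _ ≤ _ := Nat.pow_le_pow_right (by omega) hCR
  have hRr : (R : ℝ) = (Q : ℝ) ^ CR := by rw [hR]; push_cast; rfl
  have hRle : (R : ℝ) * (Q : ℝ) ^ 4 ≤ M := by
    rw [hRr, ← pow_add]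
    exact hler _ (by omega)
  rw [← hR]
  have hexp := hN0 M Q R H Y ((by omega : N0 ≤ Q).trans hQM) (by omega) hQR (hle 4 (by omega)) (by
    calc 4 * Q * R * Q ≤ Q ^ 2 * Q * R * Q := by
          have : 4 ≤ Q ^ 2 := by nlinarith
          gcongr
      _ = Q ^ (CR + 4) := by rw [hR, pow_add]; ring
      _ ≤ M := hle _ (by omega)) hHpos hHM B hB hBs hw θ
  refine hexp.trans ?_
  have hs0 : 0 < √(Q : ℝ) := Real.sqrt_pos.2 hQ0
  have hs1 : √(Q : ℝ) ≤ Q := by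
    rw [Real.sqrt_le_left hQ0.le]
    nlinarith
  obtain ⟨X, hX⟩ : ∃ X : ℝ, X = M / √(Q : ℝ) := ⟨_, rfl⟩
  have hX0 : 0 < X := by rw [hX]; positivity
  have hXQ : (M : ℝ) / Q ≤ X := by
    rw [hX]; exact div_le_div_of_nonneg_left hM0.le hs0 hs1
  have hX1 : 1 ≤ X := by
    refine le_trans ?_ hXQ
    rw [le_div_iff₀ hQ0]; linarith
  have hL2 : (0 : ℝ) ≤ L2 := Nat.cast_nonneg _
  have hCR0 : (1 : ℝ) ≤ CR := by exact_mod_cast hCR
  have hℓn : ∀ n : ℕ, n ≤ 7 → ℓ ^ n * X ≤ ℓ ^ 7 * X := fun n hn =>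
    mul_le_mul_of_nonneg_right (pow_seven hℓ1 n hn) hX0.le
  -- the five terms
  have t1 : 400000 * Real.log M ^ 7 * (M / √(Q : ℝ)) ≤ 400000 * (L2 : ℝ) ^ 7 * (ℓ ^ 7 * X) := by
    rw [← hX]
    exact T1_bound hX0.le hlM0 hlM
  have t2 : (Q : ℝ) ^ 3 * R ^ 2 * ((4 * Q * R * (Q * R) / H) ^ 2 * (M * Real.log M)) ≤ 64 * L2 * (ℓ ^ 7 * X) := by
    have e1 : 4 * Q * R * (Q * R) / (H : ℝ) ≤ 8 * (Q : ℝ) ^ 6 * R ^ 2 / M := by
      rw [div_le_div_iff₀ hH0 hM0]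
      rw [div_le_iff₀ (by positivity)] at hHlow
      calc 4 * (Q : ℝ) * R * (Q * R) * M ≤ 4 * (Q : ℝ) * R * (Q * R) * (H * (2 * (Q : ℝ) ^ 4)) := by gcongr
        _ = _ := by ring
    have e2 : (Q : ℝ) ^ 3 * R ^ 2 * ((4 * Q * R * (Q * R) / H) ^ 2 * (M * Real.log M)) ≤
        (Q : ℝ) ^ 3 * R ^ 2 * ((8 * (Q : ℝ) ^ 6 * R ^ 2 / M) ^ 2 * (M * (L2 * ℓ))) := by gcongr
    refine e2.trans ?_
    have e3 : (Q : ℝ) ^ 3 * R ^ 2 * ((8 * (Q : ℝ) ^ 6 * R ^ 2 / M) ^ 2 * (M * (L2 * ℓ))) =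
        64 * L2 * ℓ * ((Q : ℝ) ^ (6 * CR + 15) / M) := by
      rw [hRr]
      field_simp
      ring
    rw [e3]
    have e4 : (Q : ℝ) ^ (6 * CR + 15) / M ≤ 1 := by
      rw [div_le_one hM0]; exact hler _ (by omega)
    have e5 : ℓ ≤ ℓ ^ 7 * X := by
      have := hℓn 1 (by norm_num)
      rw [pow_one] at this
      nlinarith
    calc 64 * L2 * ℓ * ((Q : ℝ) ^ (6 * CR + 15) / M) ≤ 64 * L2 * ℓ * 1 := by gcongr
      _ = 64 * L2 * ℓ := by ring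
      _ ≤ _ := by gcongr
  have t3 : ((Q : ℝ) ^ 2 * R + 1) * (Q * (Nat.log 2 M + 1) * Real.log M) ≤ 6 * (L2 : ℝ) ^ 2 * (ℓ ^ 7 * X) := by
    have hlog2 := log2_le (by omega : 1 ≤ M)
    have e1 : (Nat.log 2 M : ℝ) + 1 ≤ 3 * (L2 * ℓ) := by
      have : 1 ≤ L2 * ℓ := by
        refine le_trans ?_ hlM
        refine hℓ1.trans ?_
        rw [hℓ]
        exact Real.log_le_log hQ0 hQMr
      linarith
    have e2 : (Q : ℝ) ^ 2 * R + 1 ≤ 2 * ((Q : ℝ) ^ 2 * R) := by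
      have : (1 : ℝ) ≤ (Q : ℝ) ^ 2 * R := by
        have h1 : (1 : ℝ) ≤ (Q : ℝ) ^ 2 := one_le_pow₀ hQ1'
        have h2 : (1 : ℝ) ≤ R := by exact_mod_cast (by omega : 1 ≤ R)
        nlinarith
      linarith
    have e3 : (Q : ℝ) ^ 3 * R ≤ X := by
      refine le_trans ?_ hXQ
      rw [le_div_iff₀ hQ0]
      calc (Q : ℝ) ^ 3 * R * Q = R * (Q : ℝ) ^ 4 := by ring
        _ ≤ (M : ℝ) := hRle
    calc ((Q : ℝ) ^ 2 * R + 1) * (Q * (Nat.log 2 M + 1) * Real.log M) ≤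
        2 * ((Q : ℝ) ^ 2 * R) * (Q * (3 * (L2 * ℓ)) * (L2 * ℓ)) := by gcongr
      _ = 6 * (L2 : ℝ) ^ 2 * (ℓ ^ 2 * ((Q : ℝ) ^ 3 * R)) := by ring
      _ ≤ 6 * (L2 : ℝ) ^ 2 * (ℓ ^ 2 * X) := by gcongr
      _ ≤ _ := mul_le_mul_of_nonneg_left (hℓn 2 (by norm_num)) (by positivity)
  have t4 : (Nat.log 2 R + 1) ^ 2 / √(Q : ℝ) * (4 * M + (Q : ℝ) ^ 2 * ((Y + 3 * H + 2) * Real.log M) + 4) ≤
      9 * (CR : ℝ) ^ 2 * (8 + 6 * L2) * (ℓ ^ 7 * X) := by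
    have hlog2 := log2_le (by omega : 1 ≤ R)
    have e0 : Real.log R = CR * ℓ := by rw [hRr, Real.log_pow, hℓ]
    have e1 : (Nat.log 2 R : ℝ) + 1 ≤ 3 * (CR * ℓ) := by
      rw [e0] at hlog2
      have : 1 ≤ CR * ℓ := by nlinarith
      linarith
    have e2 : (Q : ℝ) ^ 2 * ((Y + 3 * H + 2) * Real.log M) ≤ 6 * L2 * M := by
      have f1 : (Q : ℝ) ^ 2 * (Y + 3 * H + 2) ≤ 6 * M / Q := by
        have g1 : (Q : ℝ) ^ 2 * Y ≤ M / Q := by
          calc (Q : ℝ) ^ 2 * Y ≤ (Q : ℝ) ^ 2 * (M / (Q : ℝ) ^ 3) := by gcongr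
            _ = (M : ℝ) / Q := by field_simp
        have g2 : (Q : ℝ) ^ 2 * H ≤ M / Q := by
          calc (Q : ℝ) ^ 2 * H ≤ (Q : ℝ) ^ 2 * (M / (Q : ℝ) ^ 4) := by gcongr
            _ = (M : ℝ) / (Q * Q) := by field_simp
            _ ≤ (M : ℝ) / Q := div_le_div_of_nonneg_left hM0.le hQ0 (by nlinarith)
        have g3 : (Q : ℝ) ^ 2 ≤ M / Q := by
          rw [le_div_iff₀ hQ0]
          calc (Q : ℝ) ^ 2 * Q = (Q : ℝ) ^ 3 := by ring
            _ ≤ (M : ℝ) := hler 3 (by omega)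
        have : 6 * (M : ℝ) / Q = M / Q + 3 * (M / Q) + 2 * (M / Q) := by ring
        rw [this]
        linarith
      calc (Q : ℝ) ^ 2 * ((Y + 3 * H + 2) * Real.log M) = (Q : ℝ) ^ 2 * (Y + 3 * H + 2) * Real.log M := by ring
        _ ≤ 6 * M / Q * (L2 * ℓ) := by gcongr
        _ ≤ 6 * M / Q * (L2 * Q) := by gcongr
        _ = _ := by field_simp
    have e3 : 4 * (M : ℝ) + (Q : ℝ) ^ 2 * ((Y + 3 * H + 2) * Real.log M) + 4 ≤ (8 + 6 * L2) * M := by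
      have : (1 : ℝ) ≤ M := by linarith
      linarith
    calc (Nat.log 2 R + 1) ^ 2 / √(Q : ℝ) * (4 * M + (Q : ℝ) ^ 2 * ((Y + 3 * H + 2) * Real.log M) + 4) ≤
        (3 * (CR * ℓ)) ^ 2 / √(Q : ℝ) * ((8 + 6 * L2) * M) := by gcongr
      _ = 9 * (CR : ℝ) ^ 2 * (8 + 6 * L2) * (ℓ ^ 2 * X) := by rw [hX]; ring
      _ ≤ _ := mul_le_mul_of_nonneg_left (hℓn 2 (by norm_num)) (by positivity)
  have t5 : 2 * Real.pi * H * Q * Real.log M ≤ 7 * L2 * (ℓ ^ 7 * X) := by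
    have e1 : (H : ℝ) * Q ≤ X := by
      refine le_trans ?_ hXQ
      calc (H : ℝ) * Q ≤ M / (Q : ℝ) ^ 4 * Q := by gcongr
        _ = M / (Q : ℝ) ^ 3 := by field_simp
        _ ≤ M / Q := div_le_div_of_nonneg_left hM0.le hQ0 (le_self_pow₀ hQ1' (by norm_num))
    have e2 : 2 * Real.pi ≤ 7 := by linarith [Real.pi_lt_d2]
    calc 2 * Real.pi * H * Q * Real.log M = 2 * Real.pi * (H * Q) * Real.log M := by ring
      _ ≤ 7 * X * (L2 * ℓ) := by gcongr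
      _ = 7 * L2 * (ℓ ^ 1 * X) := by ring
      _ ≤ _ := mul_le_mul_of_nonneg_left (hℓn 1 (by norm_num)) (by positivity)
  have hsum : 400000 * Real.log M ^ 7 * (M / √(Q : ℝ)) +
      (Q : ℝ) ^ 3 * R ^ 2 * ((4 * Q * R * (Q * R) / H) ^ 2 * (M * Real.log M)) +
      ((Q : ℝ) ^ 2 * R + 1) * (Q * (Nat.log 2 M + 1) * Real.log M) +
      (Nat.log 2 R + 1) ^ 2 / √(Q : ℝ) * (4 * M + (Q : ℝ) ^ 2 * ((Y + 3 * H + 2) * Real.log M) + 4) +
      2 * Real.pi * H * Q * Real.log M ≤ K * ℓ ^ 7 * X := by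
    rw [hK]
    linarith
  refine hsum.trans ?_
  have hKl := hQ1 Q (by omega)
  rw [← hℓ] at hKl
  calc K * ℓ ^ 7 * X ≤ (Q : ℝ) ^ (1 / 4 : ℝ) * X := mul_le_mul_of_nonneg_right hKl hX0.le
    _ = M * (Q : ℝ) ^ (-(1 / 4) : ℝ) := by
      rw [hX, Real.sqrt_eq_rpow]
      have e1 : (Q : ℝ) ^ (-(1 / 4) : ℝ) = (Q : ℝ) ^ (1 / 4 : ℝ) / (Q : ℝ) ^ (1 / 2 : ℝ) := by
        rw [← Real.rpow_sub hQ0]; norm_num
      rw [e1]
      ring

lemma cB_norm3 {Q CR M : ℕ} {B : PC → ℝ} {V : ℝ} (hV0 : 0 ≤ V) (hw : HW Q M B) (hBs : ∑ j ∈ fam Q, B j ≤ 3)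
    (hY : 0 < M / Q ^ 3) (hV : ∀ x : ℤ, x ≠ 0 → |x| ≤ 2 * M → |VR (Q ^ CR) x| ≤ V) (x : ℤ) : ‖cB Q CR M x‖ ≤ 4 * V := by
  unfold cB cut
  split_ifs with hx
  · refine LB_norm.trans ?_
    have h1 : |VR (Q ^ CR) x| ≤ V := by
      have q0 : (0 : ℤ) ≤ ((M / Q ^ 4 : ℕ) : ℤ) := Int.natCast_nonneg _
      have q1 : (0 : ℤ) < ((M / Q ^ 3 : ℕ) : ℤ) := by exact_mod_cast hY
      have q2 : (0 : ℤ) ≤ M := Int.natCast_nonneg _
      apply hV x (by intro hc; rw [hc] at hx; linarith [hx.1])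
      rw [abs_le]; constructor <;> linarith [hx.1, hx.2]
    have h2 : ∑ j ∈ fam Q, ‖wj M (M / Q ^ 4) j x‖ ≤ 4 := by
      have h3 : ∀ j ∈ fam Q, ‖wj M (M / Q ^ 4) j x‖ ≤ ‖dl j‖ + B j := by
        intro j hj
        have h4 := hw.2 j hj x hx.1 (by linarith [hx.2])
        have h5 := norm_add_le (dl j) (wj M (M / Q ^ 4) j x - dl j)
        rw [add_sub_cancel] at h5
        linarith
      refine (sum_le_sum h3).trans ?_
      rw [sum_add_distrib]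
      linarith [sum_dl Q]
    calc |VR (Q ^ CR) x| * ∑ j ∈ fam Q, ‖wj M (M / Q ^ 4) j x‖ ≤ V * 4 :=
          mul_le_mul h1 h2 (sum_nonneg fun _ _ => norm_nonneg _) hV0
      _ = _ := by ring
  · rw [norm_zero]; positivity

/-- **mean square bound** -/
theorem l2_main3 (s : ℕ) (hs : 1 ≤ s) (CR L2 : ℕ) (hCR : 1 ≤ CR) : ∃ Q0 : ℕ, ∀ Q : ℕ, Q0 ≤ Q → ∀ M : ℕ,
    Q ^ (6 * CR + 20) ≤ M → M ≤ Q ^ L2 → ∀ B : PC → ℝ, HW Q M B → ∑ j ∈ fam Q, B j ≤ 3 →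
    ∀ a : Fin s → ℤ, (∀ i, a i ≠ 0) → ∀ I J : Finset ℤ,
    (J.card : ℝ) * ∑ h ∈ Bx s J, ‖∑ n ∈ I, (∏ i, cL Q M (a i * n + h i) - ∏ i, cB Q CR M (a i * n + h i))‖ ^ 2 ≤
      (J.card : ℝ) ^ s * I.card * ((M : ℝ) ^ 2 * (Q : ℝ) ^ (-(3 / 8) : ℝ)) := by
  have hsr : (1 : ℝ) ≤ s := by exact_mod_cast hs
  obtain ⟨κ, hκ⟩ : ∃ κ : ℝ, κ = 1 / (32 * s) := ⟨_, rfl⟩
  have hκ0 : 0 < κ := by rw [hκ]; positivity
  have hκ1 : κ ≤ 1 / 32 := by
    rw [hκ]; apply one_div_le_one_div_of_le (by norm_num); linarith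
  obtain ⟨Q1, hQ1⟩ := fourier_main3 CR L2 hCR
  obtain ⟨Q2, hQ2⟩ := VR_small CR L2 hκ0
  obtain ⟨Q3, hQ3⟩ := ev_log (L2 : ℝ) 1 hκ0
  obtain ⟨Q4, hQ4⟩ := ev_log (14 * L2 : ℝ) 1 (a := 1 / 4) (by norm_num)
  obtain ⟨Q5, hQ5⟩ := ev_log (4 * (s : ℝ) ^ 2 * 16 ^ s) 0 (a := 1 / 16) (by norm_num)
  refine ⟨Q1 + Q2 + Q3 + Q4 + Q5 + 3, fun Q hQ M hM1 hM2 B hw hBs a ha I J => ?_⟩
  have hQ3n : 3 ≤ Q := by omega
  have hQ3r : (3 : ℝ) ≤ Q := by exact_mod_cast hQ3n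
  have hQ0 : (0 : ℝ) < Q := by linarith
  have hQ1' : (1 : ℝ) ≤ Q := by linarith
  obtain ⟨ℓ, hℓ⟩ : ∃ ℓ : ℝ, ℓ = Real.log Q := ⟨_, rfl⟩
  have hℓ1 : 1 ≤ ℓ := by
    rw [hℓ, Real.le_log_iff_exp_le hQ0]
    linarith [Real.exp_one_lt_d9]
  have hle : ∀ n : ℕ, n ≤ 6 * CR + 20 → Q ^ n ≤ M := fun n hn =>
    (Nat.pow_le_pow_right (by omega) hn).trans hM1
  have hler : ∀ n : ℕ, n ≤ 6 * CR + 20 → (Q : ℝ) ^ n ≤ M := fun n hn => by exact_mod_cast hle n hn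
  have hQM : Q ≤ M := by simpa using hle 1 (by omega)
  have hM0 : (0 : ℝ) < M := by exact_mod_cast (by omega : 0 < M)
  have hlM0 : 0 ≤ Real.log M := Real.log_natCast_nonneg M
  have hlM : Real.log M ≤ L2 * ℓ := by
    have : Real.log M ≤ Real.log ((Q : ℝ) ^ L2) := Real.log_le_log hM0 (by exact_mod_cast hM2)
    rwa [Real.log_pow, ← hℓ] at this
  have hYpos : 0 < M / Q ^ 3 := Nat.div_pos (hle 3 (by omega)) (by positivity)
  have hHM : M / Q ^ 4 ≤ M := Nat.div_le_self _ _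
  obtain ⟨V, hV⟩ : ∃ V : ℝ, V = (Q : ℝ) ^ κ := ⟨_, rfl⟩
  have hV1 : 1 ≤ V := by rw [hV]; exact Real.one_le_rpow hQ1' hκ0.le
  have hV0 : 0 ≤ V := by linarith
  have hVR : ∀ x : ℤ, x ≠ 0 → |x| ≤ 2 * M → |VR (Q ^ CR) x| ≤ V := by
    intro x hx hxM
    rw [hV]
    apply hQ2 Q (by omega) x hx
    refine hxM.trans ?_
    have : (M : ℤ) ≤ (Q : ℤ) ^ L2 := by exact_mod_cast hM2
    linarith
  have hlV : Real.log M ≤ V := by
    refine hlM.trans ?_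
    have := hQ3 Q (by omega)
    rw [pow_one, ← hℓ] at this
    rw [hV]; exact this
  have hfour := hQ1 Q (by omega) M hM1 hM2 B hw.1 hBs hw.2
  -- the transform
  obtain ⟨σ, hσ⟩ : ∃ σ : ℝ, σ = 2 * (M * (Q : ℝ) ^ (-(1 / 4) : ℝ)) := ⟨_, rfl⟩
  have hq4 : 0 < (Q : ℝ) ^ (-(1 / 4) : ℝ) := by positivity
  have hσ0 : 0 ≤ σ := by rw [hσ]; positivity
  have hFT : ∀ θ, ‖FT (cL Q M) θ - FT (cB Q CR M) θ‖ ≤ σ := by
    intro θ
    refine (cut_FT (Y := M / Q ^ 3) hHM hV0 hfour hVR θ).trans ?_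
    have f0 : ((M / Q ^ 3 : ℕ) : ℝ) + 3 * ((M / Q ^ 4 : ℕ) : ℝ) + 2 ≤ 6 * (M / (Q : ℝ) ^ 3) := by
      have g1 : ((M / Q ^ 3 : ℕ) : ℝ) ≤ M / (Q : ℝ) ^ 3 := by
        have := div_upper M (Q ^ 3); push_cast at this ⊢; exact this
      have g2 : ((M / Q ^ 4 : ℕ) : ℝ) ≤ M / (Q : ℝ) ^ 3 := by
        have := div_upper M (Q ^ 4)
        push_cast at this ⊢
        refine this.trans ?_
        apply div_le_div_of_nonneg_left hM0.le (by positivity)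
        exact pow_le_pow_right₀ hQ1' (by norm_num)
      have g3 : (1 : ℝ) ≤ M / (Q : ℝ) ^ 3 := by
        rw [le_div_iff₀ (by positivity), one_mul]; exact hler 3 (by omega)
      linarith
    have f1 : Real.log M + V * ((Q : ℝ) ^ 2 * Real.log M) ≤ 2 * (V * (Q : ℝ) ^ 2 * Real.log M) := by
      have : 1 * Real.log M ≤ V * (Q : ℝ) ^ 2 * Real.log M := by
        apply mul_le_mul_of_nonneg_right _ hlM0
        exact one_le_mul_of_one_le_of_one_le hV1 (one_le_pow₀ hQ1')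
      linarith
    have f2 : Real.log M + ((Q ^ CR : ℕ) : ℝ) * ((Q : ℝ) ^ 2 * Real.log M) ≤ 2 * (M / Q * Real.log M) := by
      have e1 : (Q : ℝ) ^ CR * (Q : ℝ) ^ 2 ≤ M / Q := by
        rw [le_div_iff₀ hQ0]
        calc (Q : ℝ) ^ CR * (Q : ℝ) ^ 2 * Q = (Q : ℝ) ^ (CR + 3) := by ring
          _ ≤ (M : ℝ) := hler _ (by omega)
      have e2 : (1 : ℝ) ≤ M / Q := by
        rw [le_div_iff₀ hQ0, one_mul]
        exact_mod_cast hQM
      push_cast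
      have e3 := mul_le_mul_of_nonneg_right e1 hlM0
      have e4 := mul_le_mul_of_nonneg_right e2 hlM0
      linarith
    have f3 : (((M / Q ^ 3 : ℕ) : ℝ) + 3 * ((M / Q ^ 4 : ℕ) : ℝ) + 2) * (Real.log M + V * ((Q : ℝ) ^ 2 * Real.log M)) ≤
        12 * (V * (M / Q * Real.log M)) := by
      calc _ ≤ (6 * (M / (Q : ℝ) ^ 3)) * (2 * (V * (Q : ℝ) ^ 2 * Real.log M)) :=
            mul_le_mul f0 f1 (by positivity) (by positivity)
        _ = _ := by field_simp; ring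
    have f4 : M / Q * Real.log M ≤ V * (M / Q * Real.log M) := le_mul_of_one_le_left (by positivity) hV1
    have f5 : 14 * (V * (M / Q * Real.log M)) ≤ M * (Q : ℝ) ^ (-(1 / 4) : ℝ) := by
      have e1 := hQ4 Q (by omega)
      rw [pow_one, ← hℓ] at e1
      have e2 : V ≤ (Q : ℝ) ^ (1 / 4 : ℝ) := by rw [hV]; exact rpow_aux hQ1' (by linarith)
      have e3 : (Q : ℝ) ^ (1 / 4 : ℝ) * (Q : ℝ) ^ (1 / 4 : ℝ) / Q ≤ (Q : ℝ) ^ (-(1 / 4) : ℝ) := by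
        rw [← Real.rpow_add hQ0]
        nth_rewrite 2 [← Real.rpow_one (Q : ℝ)]
        rw [← Real.rpow_sub hQ0]
        exact rpow_aux hQ1' (by norm_num)
      calc 14 * (V * (M / Q * Real.log M)) ≤ 14 * (V * (M / Q * (L2 * ℓ))) := by gcongr
        _ = M * (V * (14 * L2 * ℓ) / Q) := by ring
        _ ≤ M * ((Q : ℝ) ^ (1 / 4 : ℝ) * (Q : ℝ) ^ (1 / 4 : ℝ) / Q) := by gcongr
        _ ≤ _ := mul_le_mul_of_nonneg_left e3 hM0.le
    rw [hσ]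
    linarith
  have hS1 : SF (cL Q M) (Icc (-((M / Q ^ 4 : ℕ) : ℤ)) (M + (M / Q ^ 4 : ℕ))) :=
    SF_cut (SF_mono (SF_Lam M) (by
      have : (0 : ℤ) ≤ ((M / Q ^ 4 : ℕ) : ℤ) := Int.natCast_nonneg _
      apply Icc_subset_Icc <;> linarith)) _ _
  have hS2 : SF (cB Q CR M) (Icc (-((M / Q ^ 4 : ℕ) : ℤ)) (M + (M / Q ^ 4 : ℕ))) := SF_cut (SF_LB _ _ _ _) _ _
  have hrep := repl_box hS1 hS2 (σ := σ) (D := 4 * V) hFT (by linarith) (fun x => (cL_norm Q M x).trans (by linarith))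
    (cB_norm3 hV0 hw hBs hYpos hVR) ha I J
  refine hrep.trans ?_
  have hfin : (s : ℝ) ^ 2 * (σ ^ 2 * ((4 * V) ^ s) ^ 2) ≤ (M : ℝ) ^ 2 * (Q : ℝ) ^ (-(3 / 8) : ℝ) := by
    have e1 := hQ5 Q (by omega)
    rw [pow_zero, mul_one] at e1
    have e2 : (V ^ s) ^ 2 = (Q : ℝ) ^ (1 / 16 : ℝ) := by
      rw [hV, ← pow_mul, ← Real.rpow_natCast, ← Real.rpow_mul hQ0.le, hκ]
      congr 1
      push_cast
      field_simp
      norm_num
    have e3 : ((Q : ℝ) ^ (-(1 / 4) : ℝ)) ^ 2 = (Q : ℝ) ^ (-(1 / 2) : ℝ) := by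
      rw [← Real.rpow_natCast, ← Real.rpow_mul hQ0.le]
      norm_num
    calc (s : ℝ) ^ 2 * (σ ^ 2 * ((4 * V) ^ s) ^ 2) =
        (M : ℝ) ^ 2 * ((4 * (s : ℝ) ^ 2 * 16 ^ s) * (((Q : ℝ) ^ (-(1 / 4) : ℝ)) ^ 2 * (V ^ s) ^ 2)) := by
          rw [hσ, mul_pow 4 V s]
          have : (16 : ℝ) ^ s = (4 ^ s) ^ 2 := by rw [← pow_mul, mul_comm s 2, pow_mul]; norm_num
          rw [this]
          ring
      _ ≤ (M : ℝ) ^ 2 * ((Q : ℝ) ^ (1 / 16 : ℝ) * ((Q : ℝ) ^ (-(1 / 2) : ℝ) * (Q : ℝ) ^ (1 / 16 : ℝ))) := by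
          rw [e2, e3]
          gcongr
      _ = (M : ℝ) ^ 2 * (Q : ℝ) ^ (-(3 / 8) : ℝ) := by
          rw [← Real.rpow_add hQ0, ← Real.rpow_add hQ0]
          norm_num
  calc (s : ℝ) ^ 2 * ((J.card : ℝ) ^ s * (σ ^ 2 * (I.card * ((4 * V) ^ s) ^ 2))) =
      (J.card : ℝ) ^ s * I.card * ((s : ℝ) ^ 2 * (σ ^ 2 * ((4 * V) ^ s) ^ 2)) := by ring
    _ ≤ _ := mul_le_mul_of_nonneg_left hfin (by positivity)

end Pool.Agent.Helper86.XS
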