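import Pool.Agent.Helper86.XS.X5
import Pool.Agent.Helper86.PS.G9

set_option autoImplicit false

/-!
# The main term with an exceptional character
-/

open Finset

namespace Pool.Agent.Helper86.XS

open Pool.Agent.H807R2.Dav Pool.Agent.Helper86.PS

lemma prod_close2 {ι : Type} [DecidableEq ι] (T : Finset ι) {w d : ι → ℂ} {b c : ι → ℝ} (hc : ∀ i ∈ T, ‖d i‖ ≤ c i)
    (hb : ∀ i ∈ T, ‖w i - d i‖ ≤ b i) :
    ‖∏ i ∈ T, w i - ∏ i ∈ T, d i‖ ≤ ∏ i ∈ T, (c i + b i) - ∏ i ∈ T, c i := by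
  induction T using Finset.induction_on with
  | empty => simp
  | insert i T hi ih =>
    rw [prod_insert hi, prod_insert hi, prod_insert hi, prod_insert hi]
    have ih' := ih (fun k hk => hc k (mem_insert_of_mem hk)) fun k hk => hb k (mem_insert_of_mem hk)
    have hbi := hb i (mem_insert_self i T)
    have hci := hc i (mem_insert_self i T)
    have h1 : w i * ∏ k ∈ T, w k - d i * ∏ k ∈ T, d k = w i * (∏ k ∈ T, w k - ∏ k ∈ T, d k) + (w i - d i) * ∏ k ∈ T, d k := by
      ring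
    rw [h1]
    refine (norm_add_le _ _).trans ?_
    rw [norm_mul, norm_mul]
    have h2 : ‖w i‖ ≤ c i + b i := by
      have := norm_add_le (d i) (w i - d i)
      rw [add_sub_cancel] at this
      linarith
    have h3 : ‖∏ k ∈ T, d k‖ ≤ ∏ k ∈ T, c k := by
      rw [norm_prod]
      exact Finset.prod_le_prod (fun _ _ => norm_nonneg _) fun k hk => hc k (mem_insert_of_mem hk)
    have h5 : 0 ≤ ∏ k ∈ T, (c k + b k) - ∏ k ∈ T, c k := (norm_nonneg _).trans ih'
    have h6 : 0 ≤ b i := (norm_nonneg _).trans hbi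
    calc ‖w i‖ * ‖∏ k ∈ T, w k - ∏ k ∈ T, d k‖ + ‖w i - d i‖ * ‖∏ k ∈ T, d k‖ ≤
        (c i + b i) * (∏ k ∈ T, (c k + b k) - ∏ k ∈ T, c k) + b i * ∏ k ∈ T, c k := by
          apply add_le_add
          · exact mul_le_mul h2 ih' (norm_nonneg _) ((norm_nonneg _).trans h2)
          · exact mul_le_mul hbi h3 (norm_nonneg _) h6
      _ = _ := by ring

lemma pow_diff_mono {C C' x x' : ℝ} (hC : 0 ≤ C) (hCC : C ≤ C') (hx : 0 ≤ x) (hxx : x ≤ x') (s : ℕ) :
    (C + x) ^ s - C ^ s ≤ (C' + x') ^ s - C' ^ s := by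
  induction s with
  | zero => simp
  | succ s ih =>
    have e1 : (C + x) ^ (s + 1) - C ^ (s + 1) = (C + x) * ((C + x) ^ s - C ^ s) + x * C ^ s := by ring
    have e2 : (C' + x') ^ (s + 1) - C' ^ (s + 1) = (C' + x') * ((C' + x') ^ s - C' ^ s) + x' * C' ^ s := by ring
    rw [e1, e2]
    have h1 : 0 ≤ (C + x) ^ s - C ^ s := by
      have := pow_le_pow_left₀ hC (by linarith : C ≤ C + x) s
      linarith
    have h2 : C ^ s ≤ C' ^ s := pow_le_pow_left₀ hC hCC s
    apply add_le_add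
    · exact mul_le_mul (by linarith) ih h1 (by linarith)
    · exact mul_le_mul hxx h2 (by positivity) (by linarith)

open _root_.Classical in
/-- **the main term with an exceptional character**, explicit form -/
lemma main_termX {s : ℕ} (hs : 1 ≤ s) {Z : ℝ} (hZ : ∀ T : Finset ℕ, ∑ p ∈ T, (p : ℝ) ^ (-(3 / 2) : ℝ) ≤ Z)
    {a h : Fin s → ℤ} (ha : ∀ i, a i ≠ 0) (hΔ : Del a h ≠ 0) {Q R M H : ℕ} (hQ : 1 ≤ Q) (hR : 1 ≤ R) {B : PC → ℝ}
    {X : Finset PC} (hX1 : X ⊆ fam Q) (hX2 : X.card ≤ 1) (hX3 : ∀ j ∈ X, j.2 ≠ 1)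
    (hB : ∀ j ∈ fam Q, 0 ≤ B j) {ε : ℝ} (hBs : ∑ j ∈ fam Q, B j ≤ ε) {u v : ℤ}
    (hw : ∀ n ∈ Ico u v, ∀ i, ∀ j ∈ fam Q, (j ∉ X → ‖wj M H j (a i * n + h i) - dl j‖ ≤ B j) ∧
      (j ∈ X → ‖wj M H j (a i * n + h i)‖ ≤ 2))
    {Lg A : ℝ} (h1 : 1 ≤ Lg) (h2 : Real.log M ≤ Lg) (hA : 0 ≤ A) (haA : ∀ i, |((a i : ℤ) : ℝ)| ≤ A) {τ : ℝ}
    (hτ : τ = tau s Q R (∏ i, (a i).natAbs) Z (Del a h).natAbs) {ρ : ℝ} (hρ : 0 ≤ ρ)
    (hmuX : ∀ j ∈ FT_ s Q, (∀ i, j i ≠ (⟨0, 1⟩ : PC) → j i ∈ X) → (∃ i, j i ∈ X) → ‖mu R a h j‖ ≤ ρ * SPR R a h + τ) :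
    ‖∑ n ∈ Ico u v, ∏ i, LB Q R M H (a i * n + h i) - SPR R a h * (Ico u v).card‖ ≤
      (Ico u v).card * ((SPR R a h + τ) * ((3 + ε) ^ s - 3 ^ s) + 3 ^ s * (ρ * SPR R a h + τ) + τ) +
      ((Q : ℝ) ^ 2) ^ s * ((R : ℝ) ^ s * (2 * (Q * R : ℝ) ^ s * Lg ^ s + (Ico u v).card * ((Q * R : ℝ) ^ s *
        (s * (2 * Lg / H * A) * Lg ^ s)))) := by
  have hexp := main_expand (s := s) (Q := Q) (R := R) (M := M) (H := H) (a := a) (h := h) h1 h2 hA haA u v
  have hε : 0 ≤ ε := (sum_nonneg hB).trans hBs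
  have hτ0 : 0 ≤ τ := by rw [hτ]; unfold tau; positivity
  have hSP := SPR_nonneg R a h
  have hmu : ∀ j ∈ FT_ s Q, ‖mu R a h j‖ ≤ SPR R a h + τ := by
    intro j hj
    rw [hτ]; exact (mu_bound hs hZ ha hΔ hR hj).1
  obtain ⟨c, hc⟩ : ∃ c : PC → ℝ, c = fun j => ‖dl j‖ + if j ∈ X then 2 else 0 := ⟨_, rfl⟩
  have hc0 : ∀ j, 0 ≤ c j := by
    intro j
    rw [hc]
    simp only
    have := norm_nonneg (dl j)
    split_ifs <;> linarith
  have hcs : ∑ j ∈ fam Q, c j ≤ 3 := by
    rw [hc, sum_add_distrib, sum_dl_norm hQ, ← sum_filter, filter_mem_eq_inter, inter_eq_right.2 hX1, sum_const, nsmul_eq_mul]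
    have : (X.card : ℝ) ≤ 1 := by exact_mod_cast hX2
    linarith
  have hcs0 : 0 ≤ ∑ j ∈ fam Q, c j := sum_nonneg fun j _ => hc0 j
  obtain ⟨d, hd⟩ : ∃ d : Fin s → PC → ℤ → ℂ, d = fun i j n => if j ∈ X then wj M H j (a i * n + h i) else dl j := ⟨_, rfl⟩
  have hdc : ∀ n ∈ Ico u v, ∀ i, ∀ j ∈ fam Q, ‖d i j n‖ ≤ c j := by
    intro n hn i j hj
    rw [hd, hc]
    simp only
    by_cases hjX : j ∈ X
    · rw [if_pos hjX, if_pos hjX]
      have := (hw n hn i j hj).2 hjX
      have := norm_nonneg (dl j)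
      linarith
    · rw [if_neg hjX, if_neg hjX, add_zero]
  have hdw : ∀ n ∈ Ico u v, ∀ i, ∀ j ∈ fam Q, ‖wj M H j (a i * n + h i) - d i j n‖ ≤ B j := by
    intro n hn i j hj
    rw [hd]
    simp only
    by_cases hjX : j ∈ X
    · rw [if_pos hjX, sub_self, norm_zero]
      exact hB j hj
    · rw [if_neg hjX]
      exact (hw n hn i j hj).1 hjX
  obtain ⟨j0, hj0⟩ : ∃ j0 : Fin s → PC, j0 = fun _ => (⟨0, 1⟩ : PC) := ⟨_, rfl⟩
  have hj0m : j0 ∈ FT_ s Q := by
    unfold FT_
    rw [Fintype.mem_piFinset, hj0]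
    intro _
    exact triv_mem hQ
  have htX : (⟨0, 1⟩ : PC) ∉ X := fun hc' => hX3 _ hc' rfl
  have hdt : dl (⟨0, 1⟩ : PC) = 1 := by unfold dl; rw [if_pos rfl]
  have hd0 : ∀ n, ∏ i, d i (j0 i) n = 1 := by
    intro n
    apply prod_eq_one
    intro i _
    rw [hd, hj0]
    simp only
    rw [if_neg htX, hdt]
  have hmu0 : ‖mu R a h j0 - SPR R a h‖ ≤ τ := by
    rw [hτ]
    apply (mu_bound hs hZ ha hΔ hR hj0m).2
    intro i
    rw [hj0]
    simp only
    rw [hdt]
    exact one_ne_zero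
  have hmain : ‖∑ j ∈ FT_ s Q, mu R a h j * ∑ n ∈ Ico u v, WW M H a h j n - SPR R a h * (Ico u v).card‖ ≤
      (Ico u v).card * ((SPR R a h + τ) * ((3 + ε) ^ s - 3 ^ s) + 3 ^ s * (ρ * SPR R a h + τ) + τ) := by
    have e1 : ∑ j ∈ FT_ s Q, mu R a h j * ∑ n ∈ Ico u v, WW M H a h j n - SPR R a h * (Ico u v).card =
        ∑ n ∈ Ico u v, (∑ j ∈ FT_ s Q, mu R a h j * (WW M H a h j n - ∏ i, d i (j i) n) +
          ∑ j ∈ (FT_ s Q).erase j0, mu R a h j * ∏ i, d i (j i) n + (mu R a h j0 - SPR R a h)) := by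
      have e2 : ∀ n ∈ Ico u v, (∑ j ∈ FT_ s Q, mu R a h j * (WW M H a h j n - ∏ i, d i (j i) n) +
          ∑ j ∈ (FT_ s Q).erase j0, mu R a h j * ∏ i, d i (j i) n + (mu R a h j0 - SPR R a h)) =
          ∑ j ∈ FT_ s Q, mu R a h j * WW M H a h j n - SPR R a h := by
        intro n _
        have e3 : ∑ j ∈ FT_ s Q, mu R a h j * ∏ i, d i (j i) n =
            mu R a h j0 + ∑ j ∈ (FT_ s Q).erase j0, mu R a h j * ∏ i, d i (j i) n := by
          rw [← add_sum_erase _ _ hj0m, hd0, mul_one]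
        have e4 : ∑ j ∈ FT_ s Q, mu R a h j * (WW M H a h j n - ∏ i, d i (j i) n) =
            ∑ j ∈ FT_ s Q, mu R a h j * WW M H a h j n - ∑ j ∈ FT_ s Q, mu R a h j * ∏ i, d i (j i) n := by
          rw [← sum_sub_distrib]
          apply sum_congr rfl
          intro j _
          ring
        rw [e4, e3]
        ring
      rw [sum_congr rfl e2, sum_sub_distrib, sum_const, nsmul_eq_mul, sum_comm]
      congr 1
      · apply sum_congr rfl
        intro j _
        rw [mul_sum]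
      · ring
    rw [e1]
    have e4 : ∀ n ∈ Ico u v, ‖∑ j ∈ FT_ s Q, mu R a h j * (WW M H a h j n - ∏ i, d i (j i) n) +
          ∑ j ∈ (FT_ s Q).erase j0, mu R a h j * ∏ i, d i (j i) n + (mu R a h j0 - SPR R a h)‖ ≤
        (SPR R a h + τ) * ((3 + ε) ^ s - 3 ^ s) + 3 ^ s * (ρ * SPR R a h + τ) + τ := by
      intro n hn
      refine (norm_add_le _ _).trans (add_le_add ((norm_add_le _ _).trans (add_le_add ?_ ?_)) hmu0)
      · have e5 : ∀ j ∈ FT_ s Q, ‖mu R a h j * (WW M H a h j n - ∏ i, d i (j i) n)‖ ≤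
            (SPR R a h + τ) * (∏ i, (c (j i) + B (j i)) - ∏ i, c (j i)) := by
          intro j hj
          rw [norm_mul]
          apply mul_le_mul (hmu j hj) _ (norm_nonneg _) (by positivity)
          unfold WW
          apply prod_close2
          · intro i _
            exact hdc n hn i (j i) (Fintype.mem_piFinset.1 hj i)
          · intro i _
            exact hdw n hn i (j i) (Fintype.mem_piFinset.1 hj i)
        refine (norm_sum_le_of_le _ e5).trans ?_
        rw [← mul_sum]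
        apply mul_le_mul_of_nonneg_left _ (by positivity)
        rw [sum_sub_distrib]
        unfold FT_
        rw [← prod_univ_sum (fun _ : Fin s => fam Q) (fun _ j => c j + B j),
          ← prod_univ_sum (fun _ : Fin s => fam Q) (fun _ j => c j), sum_add_distrib]
        simp only [prod_const, card_univ, Fintype.card_fin]
        exact pow_diff_mono hcs0 hcs (sum_nonneg hB) hBs s
      · have e5 : ∀ j ∈ (FT_ s Q).erase j0, ‖mu R a h j * ∏ i, d i (j i) n‖ ≤ (ρ * SPR R a h + τ) * ∏ i, c (j i) := by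
          intro j hj
          rw [mem_erase] at hj
          obtain ⟨hjne, hj⟩ := hj
          rw [norm_mul]
          have hρS : 0 ≤ ρ * SPR R a h := mul_nonneg hρ hSP
          by_cases hall : ∀ i, j i ≠ (⟨0, 1⟩ : PC) → j i ∈ X
          · have hex : ∃ i, j i ∈ X := by
              by_contra hcon
              push Not at hcon
              apply hjne
              rw [hj0]
              funext i
              by_contra hi
              exact hcon i (hall i hi)
            apply mul_le_mul (hmuX j hj hall hex) _ (norm_nonneg _) (by linarith)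
            rw [norm_prod]
            apply Finset.prod_le_prod (fun _ _ => norm_nonneg _)
            intro i _
            exact hdc n hn i (j i) (Fintype.mem_piFinset.1 hj i)
          · push Not at hall
            obtain ⟨i, hi1, hi2⟩ := hall
            have : d i (j i) n = 0 := by
              rw [hd]
              simp only
              rw [if_neg hi2]
              unfold dl
              rw [if_neg]
              intro hc'
              exact hi1 (trivial_fam (Fintype.mem_piFinset.1 hj i) hc')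
            rw [prod_eq_zero (mem_univ i) this, norm_zero, mul_zero]
            apply mul_nonneg (by linarith)
            exact prod_nonneg fun i _ => hc0 _
        refine (norm_sum_le_of_le _ e5).trans ?_
        rw [← mul_sum]
        have e6 : ∑ j ∈ (FT_ s Q).erase j0, ∏ i, c (j i) ≤ 3 ^ s := by
          refine (sum_le_sum_of_subset_of_nonneg (erase_subset _ _) fun j _ _ => prod_nonneg fun i _ => hc0 _).trans ?_
          unfold FT_
          rw [← prod_univ_sum (fun _ : Fin s => fam Q) (fun _ j => c j)]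
          simp only [prod_const, card_univ, Fintype.card_fin]
          exact pow_le_pow_left₀ hcs0 hcs s
        rw [mul_comm]
        apply mul_le_mul_of_nonneg_right e6
        have hρS : 0 ≤ ρ * SPR R a h := mul_nonneg hρ hSP
        linarith
    refine (norm_sum_le_of_le _ e4).trans ?_
    rw [sum_const, nsmul_eq_mul]
  have e6 : ∑ n ∈ Ico u v, ∏ i, LB Q R M H (a i * n + h i) - SPR R a h * (Ico u v).card =
      (∑ j ∈ FT_ s Q, mu R a h j * ∑ n ∈ Ico u v, WW M H a h j n - SPR R a h * (Ico u v).card) +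
      (∑ n ∈ Ico u v, ∏ i, LB Q R M H (a i * n + h i) - ∑ j ∈ FT_ s Q, mu R a h j * ∑ n ∈ Ico u v, WW M H a h j n) := by ring
  rw [e6]
  exact (norm_add_le _ _).trans (add_le_add hmain hexp)

end Pool.Agent.Helper86.XS
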