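import Mathlib

set_option autoImplicit false

/-!
# Primitive real characters
-/

open Finset

namespace Pool.Agent.Helper86.XS

/-- a primitive character is nontrivial on the kernel of each smaller modulus -/
lemma prim_ker {n d : ℕ} [NeZero n] (hd : d ∣ n) (hdn : d < n) {χ : DirichletCharacter ℂ n} (hχ : χ.IsPrimitive) :
    ∃ x : ℤ, (d : ℤ) ∣ x - 1 ∧ IsUnit ((x : ℤ) : ZMod n) ∧ χ ((x : ℤ) : ZMod n) ≠ 1 := by
  by_contra hcon
  push Not at hcon
  have h1 : χ.FactorsThrough d := by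
    rw [DirichletCharacter.factorsThrough_iff_ker_unitsMap hd]
    intro u hu
    rw [MonoidHom.mem_ker] at hu ⊢
    have h2 : ((((u : ZMod n).val : ℕ) : ℤ) : ZMod n) = (u : ZMod n) := by
      rw [Int.cast_natCast, ZMod.natCast_zmod_val]
    have h3 := hcon (((u : ZMod n).val : ℕ) : ℤ) (by
      have h4 := congrArg (Units.val) hu
      rw [ZMod.unitsMap_val, Units.val_one] at h4
      have h5 : (((((u : ZMod n).val : ℕ) : ℤ) : ZMod d)) = ((1 : ℤ) : ZMod d) := by
        rw [Int.cast_natCast, Int.cast_one, ← h4]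
        exact (ZMod.natCast_val (u : ZMod n))
      have h6 := (ZMod.intCast_eq_intCast_iff_dvd_sub _ _ _).1 h5.symm
      exact h6) (by rw [h2]; exact u.isUnit)
    rw [h2] at h3
    ext
    rw [MulChar.coe_toUnitHom, h3, Units.val_one]
  have h2 : χ.conductor ≤ d := Nat.sInf_le h1
  have h3 : χ.conductor = n := hχ
  omega

lemma bin_two (x : ℤ) (n : ℕ) : ∃ c : ℤ, (1 + x) ^ n = 1 + n * x + x ^ 2 * c := by
  induction n with
  | zero => exact ⟨0, by simp⟩
  | succ n ih =>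
    obtain ⟨c, hc⟩ := ih
    refine ⟨c + n + x * c, ?_⟩
    rw [pow_succ, hc]
    push_cast
    ring

lemma int_cast_one {n : ℕ} {x : ℤ} (h : (n : ℤ) ∣ x - 1) : ((x : ℤ) : ZMod n) = 1 := by
  have := (ZMod.intCast_eq_intCast_iff_dvd_sub 1 x n).2 h
  rw [← this, Int.cast_one]

/-- the square of an odd prime does not divide the modulus of a primitive real character -/
lemma odd_once {n p : ℕ} [NeZero n] (hp : p.Prime) (hp2 : p ≠ 2) {χ : DirichletCharacter ℂ n} (hχ : χ.IsPrimitive)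
    (h2 : χ ^ 2 = 1) : ¬ p ^ 2 ∣ n := by
  rintro ⟨t, ht⟩
  have hn : 0 < n := Nat.pos_of_ne_zero (NeZero.ne n)
  have ht0 : 0 < t := by
    rcases Nat.eq_zero_or_pos t with h | h
    · rw [h] at ht; omega
    · exact h
  obtain ⟨d, hd⟩ : ∃ d : ℕ, d = p * t := ⟨_, rfl⟩
  have hnd : n = p * d := by rw [hd, ht]; ring
  have hdp : 0 < d := by rw [hd]; exact Nat.mul_pos hp.pos ht0
  have hlt : d < n := by
    rw [hnd]
    have := hp.two_le
    nlinarith
  obtain ⟨x, hx1, hxu, hx2⟩ := prim_ker (Dvd.intro_left p hnd.symm) hlt hχ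
  apply hx2
  obtain ⟨c, hc⟩ := bin_two (x - 1) p
  have h3 : (n : ℤ) ∣ x ^ p - 1 := by
    obtain ⟨e, he⟩ := hx1
    have e1 : x ^ p - 1 = p * (x - 1) + (x - 1) ^ 2 * c := by
      have : 1 + (x - 1) = x := by ring
      rw [this] at hc
      rw [hc]; ring
    rw [e1, he, hnd]
    refine ⟨e + t * e ^ 2 * c, ?_⟩
    rw [hd]
    push_cast
    ring
  have h4 : ((x : ℤ) : ZMod n) ^ p = 1 := by
    have := int_cast_one h3
    rw [← this]; push_cast; rfl
  have h5 : χ ((x : ℤ) : ZMod n) ^ p = 1 := by rw [← map_pow, h4, map_one]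
  have h6 : χ ((x : ℤ) : ZMod n) ^ 2 = 1 := by
    rw [← MulChar.pow_apply' χ two_ne_zero, h2, MulChar.one_apply hxu]
  have hodd : Odd p := hp.odd_of_ne_two hp2
  obtain ⟨k, hk⟩ := hodd
  rw [hk, pow_succ, pow_mul, h6, one_pow, one_mul] at h5
  exact h5

/-- sixteen does not divide the modulus of a primitive real character -/
lemma two_three {n : ℕ} [NeZero n] {χ : DirichletCharacter ℂ n} (hχ : χ.IsPrimitive)
    (h2 : χ ^ 2 = 1) : ¬ 16 ∣ n := by
  rintro ⟨t, ht⟩
  have hn : 0 < n := Nat.pos_of_ne_zero (NeZero.ne n)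
  have ht0 : 0 < t := by
    rcases Nat.eq_zero_or_pos t with h | h
    · rw [h] at ht; omega
    · exact h
  obtain ⟨x, hx1, hxu, hx2⟩ := prim_ker (n := n) (d := 8 * t) ⟨2, by rw [ht]; ring⟩ (by omega) hχ
  apply hx2
  obtain ⟨e, he⟩ := hx1
  obtain ⟨y, hy⟩ : ∃ y : ℤ, y = 1 + 4 * t * e := ⟨_, rfl⟩
  have h3 : ((x : ℤ) : ZMod n) = ((y : ℤ) : ZMod n) ^ 2 := by
    have h4 : ((x : ℤ) : ZMod n) = ((y ^ 2 : ℤ) : ZMod n) := by
      rw [ZMod.intCast_eq_intCast_iff_dvd_sub]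
      refine ⟨t * e ^ 2, ?_⟩
      have : x = 1 + (8 * t : ℕ) * e := by linarith
      rw [this, hy, ht]
      push_cast
      ring
    rw [h4]; push_cast; rfl
  have hyu : IsUnit ((y : ℤ) : ZMod n) := by
    rw [h3] at hxu
    exact (isUnit_pow_iff two_ne_zero).1 hxu
  rw [h3, map_pow, ← MulChar.pow_apply' χ two_ne_zero, h2, MulChar.one_apply hyu]

/-- a prime factor outside a given integer -/
lemma big_prime {n K : ℕ} [NeZero n] (hK : 8 ≤ K) {χ : DirichletCharacter ℂ n} (hχ : χ.IsPrimitive)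
    (h2 : χ ^ 2 = 1) {Δ : ℤ} (hΔ : ¬ (n : ℤ) ∣ (K.factorial : ℤ) * Δ) :
    ∃ p : ℕ, p.Prime ∧ K < p ∧ p ∣ n ∧ ¬ p ^ 2 ∣ n ∧ ¬ (p : ℤ) ∣ Δ := by
  by_contra hcon
  push Not at hcon
  apply hΔ
  have h3 : n ∣ K.factorial * Δ.natAbs := by
    rw [Nat.dvd_iff_prime_pow_dvd_dvd]
    intro p k hp hpk
    by_cases hp2 : p = 2
    · subst hp2
      have hk : k ≤ 3 := by
        by_contra hc
        push Not at hc
        apply two_three hχ h2
        exact dvd_trans (show 2 ^ 4 ∣ 2 ^ k from Nat.pow_dvd_pow 2 hc) hpk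
      refine Dvd.dvd.mul_right ?_ _
      refine dvd_trans (Nat.pow_dvd_pow 2 hk) ?_
      exact Nat.dvd_factorial (by norm_num) hK
    · have hsq : ¬ p ^ 2 ∣ n := odd_once hp hp2 hχ h2
      have hk : k ≤ 1 := by
        by_contra hc
        push Not at hc
        exact hsq (dvd_trans (Nat.pow_dvd_pow p hc) hpk)
      rcases Nat.eq_zero_or_pos k with h0 | h0
      · rw [h0, pow_zero]; exact one_dvd _
      · have hk1 : k = 1 := by omega
        subst hk1
        rw [pow_one] at hpk ⊢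
        rcases Nat.lt_or_ge K p with hKp | hKp
        · have h4 := hcon p hp hKp hpk hsq
          exact Dvd.dvd.mul_left (Int.natCast_dvd.1 h4) _
        · exact Dvd.dvd.mul_right (Nat.dvd_factorial hp.pos hKp) _
  have h4 : (n : ℤ) ∣ ((K.factorial * Δ.natAbs : ℕ) : ℤ) := Int.natCast_dvd_natCast.2 h3
  push_cast at h4
  rcases abs_choice Δ with h5 | h5
  · rwa [h5] at h4
  · rw [h5, mul_neg] at h4
    exact (dvd_neg.1 h4)

/-- a primitive real character is a multiple of the quadratic character at each odd prime which divides its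
modulus exactly once -/
lemma char_split {m p : ℕ} (hm : 0 < m) [Fact p.Prime] (hco : Nat.Coprime m p)
    (χ : DirichletCharacter ℂ (m * p)) (hχ : χ.IsPrimitive) (h2 : χ ^ 2 = 1) :
    ∃ ψ : ℤ → ℂ, (∀ x y : ℤ, (m : ℤ) ∣ x - y → ψ x = ψ y) ∧ (∀ x, ‖ψ x‖ ≤ 1) ∧
      ∀ x : ℤ, χ ((x : ℤ) : ZMod (m * p)) = ψ x * ((quadraticChar (ZMod p) ((x : ℤ) : ZMod p) : ℤ) : ℂ) := by
  have hp := (Fact.out : p.Prime)
  have : NeZero (m * p) := ⟨(Nat.mul_pos hm hp.pos).ne'⟩
  obtain ⟨e, he⟩ : ∃ e : ZMod (m * p) ≃+* ZMod m × ZMod p, e = ZMod.chineseRemainder hco := ⟨_, rfl⟩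
  have hint : ∀ x : ℤ, e ((x : ℤ) : ZMod (m * p)) = (((x : ℤ) : ZMod m), ((x : ℤ) : ZMod p)) := by
    intro x
    rw [map_intCast]
    rfl
  obtain ⟨φ, hφ⟩ : ∃ φ : ZMod p → ℂ, φ = fun y => χ (e.symm (1, y)) := ⟨_, rfl⟩
  have hφm : ∀ y z, φ (y * z) = φ y * φ z := by
    intro y z
    rw [hφ]
    simp only
    rw [← map_mul, ← map_mul, Prod.mk_mul_mk, one_mul]
  have hunit : ∀ y : ZMod p, y ≠ 0 → IsUnit (e.symm (1, y)) := by
    intro y hy
    apply IsUnit.map
    rw [Prod.isUnit_iff]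
    exact ⟨isUnit_one, isUnit_iff_ne_zero.2 hy⟩
  have hφ2 : ∀ y, y ≠ 0 → φ y ^ 2 = 1 := by
    intro y hy
    rw [hφ]
    simp only
    rw [← MulChar.pow_apply' χ two_ne_zero, h2, MulChar.one_apply (hunit y hy)]
  have hφ0 : φ 0 = 0 := by
    rw [hφ]
    simp only
    apply MulChar.map_nonunit
    intro hc
    have h3 := hc.map e
    rw [RingEquiv.apply_symm_apply, Prod.isUnit_iff] at h3
    exact not_isUnit_zero h3.2
  have hex : ∃ w : ZMod p, w ≠ 0 ∧ φ w = -1 := by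
    obtain ⟨x, hx1, hxu, hx2⟩ := prim_ker (n := m * p) (d := m) (dvd_mul_right m p) (by
      have := hp.two_le
      nlinarith) hχ
    have h3 : ((x : ℤ) : ZMod (m * p)) = e.symm (1, ((x : ℤ) : ZMod p)) := by
      rw [RingEquiv.eq_symm_apply, hint, int_cast_one hx1]
    have h4 : ((x : ℤ) : ZMod p) ≠ 0 := by
      intro hc
      have h5 := hxu.map e
      rw [hint, Prod.isUnit_iff, hc] at h5
      exact not_isUnit_zero h5.2
    refine ⟨_, h4, ?_⟩
    have h5 := hφ2 _ h4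
    have h6 : φ ((x : ℤ) : ZMod p) ≠ 1 := by
      rw [hφ]
      simp only
      rw [← h3]
      exact hx2
    rcases sq_eq_one_iff.1 h5 with h7 | h7
    · exact absurd h7 h6
    · exact h7
  have hval : ∀ y : ZMod p, φ y = ((quadraticChar (ZMod p) y : ℤ) : ℂ) := by
    intro y
    by_cases hy : y = 0
    · rw [hy, hφ0, quadraticChar_zero]; simp
    by_cases hsq : IsSquare y
    · obtain ⟨z, hz⟩ := hsq
      have hz0 : z ≠ 0 := by rintro rfl; exact hy (by rw [hz, mul_zero])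
      rw [(quadraticChar_one_iff_isSquare hy).2 ⟨z, hz⟩, hz, hφm, ← sq, hφ2 z hz0]
      simp
    · obtain ⟨w, hw0, hw⟩ := hex
      have hwsq : ¬ IsSquare w := by
        rintro ⟨z, hz⟩
        have hz0 : z ≠ 0 := by rintro rfl; exact hw0 (by rw [hz, mul_zero])
        rw [hz, hφm, ← sq, hφ2 z hz0] at hw
        norm_num at hw
      have h7 : quadraticChar (ZMod p) (y * w) = 1 := by
        rw [map_mul, quadraticChar_neg_one_iff_not_isSquare.2 hsq, quadraticChar_neg_one_iff_not_isSquare.2 hwsq]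
        norm_num
      obtain ⟨z, hz⟩ := (quadraticChar_one_iff_isSquare (mul_ne_zero hy hw0)).1 h7
      have hz0 : z ≠ 0 := by rintro rfl; exact (mul_ne_zero hy hw0) (by rw [hz, mul_zero])
      have h8 : φ y * φ w = 1 := by rw [← hφm, hz, hφm, ← sq, hφ2 z hz0]
      rw [hw] at h8
      rw [quadraticChar_neg_one_iff_not_isSquare.2 hsq]
      push_cast
      linear_combination -h8
  refine ⟨fun x => χ (e.symm (((x : ℤ) : ZMod m), 1)), ?_, ?_, ?_⟩
  · intro x y hxy
    simp only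
    have : ((x : ℤ) : ZMod m) = ((y : ℤ) : ZMod m) := ((ZMod.intCast_eq_intCast_iff_dvd_sub y x m).2 hxy).symm
    rw [this]
  · intro x
    exact DirichletCharacter.norm_le_one χ _
  · intro x
    rw [← hval, hφ]
    simp only
    rw [← map_mul, ← map_mul, Prod.mk_mul_mk, one_mul, mul_one, ← hint, RingEquiv.symm_apply_apply]

end Pool.Agent.Helper86.XS
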