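import Pool.Agent.Helper86.XS.Y3
import Pool.Agent.Helper86.PS.H1
import Pool.Agent.H341R2.WeilSharp

set_option autoImplicit false

/-!
# Character sums of products of linear forms
-/

open Finset Polynomial

namespace Pool.Agent.Helper86.XS

open Pool.Agent.Helper86.PS

/-- the product of the forms -/
noncomputable def cf {s : ℕ} (p : ℕ) (a h : Fin s → ℤ) (J : Finset (Fin s)) : (ZMod p)[X] :=
  ∏ i ∈ J, (C ((a i : ℤ) : ZMod p) * X + C ((h i : ℤ) : ZMod p))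

lemma lin_ne {p : ℕ} [Fact p.Prime] {a b : ZMod p} (ha : a ≠ 0) : (C a * X + C b : (ZMod p)[X]) ≠ 0 := by
  intro hc
  have h1 := congrArg Polynomial.natDegree hc
  rw [natDegree_linear ha, natDegree_zero] at h1
  exact one_ne_zero h1

lemma cf_deg {s p : ℕ} [Fact p.Prime] {a h : Fin s → ℤ} (ha : ∀ i, ((a i : ℤ) : ZMod p) ≠ 0) (J : Finset (Fin s)) :
    (cf p a h J).natDegree = J.card := by
  unfold cf
  rw [natDegree_prod _ _ fun i _ => lin_ne (ha i)]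
  rw [sum_congr rfl fun i _ => natDegree_linear (ha i)]
  simp

lemma Del_pair {s : ℕ} {a h : Fin s → ℤ} {i k : Fin s} (hik : i ≠ k) : a k * h i - a i * h k ∣ Del a h := by
  unfold Del
  refine dvd_trans (dvd_prod_of_mem (fun k => a k * h i - a i * h k) (mem_erase.2 ⟨hik.symm, mem_univ k⟩))
    (dvd_prod_of_mem (fun i => ∏ k ∈ univ.erase i, (a k * h i - a i * h k)) (mem_univ i))

lemma cf_ne_sq {s p : ℕ} [Fact p.Prime] {a h : Fin s → ℤ} (ha : ∀ i, ((a i : ℤ) : ZMod p) ≠ 0)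
    (hΔ : ¬ (p : ℤ) ∣ Del a h) {J : Finset (Fin s)} (hJ : J.Nonempty) (c : ZMod p) (g : (ZMod p)[X]) :
    cf p a h J ≠ C c * g ^ 2 := by
  classical
  intro hcg
  obtain ⟨i0, hi0⟩ := hJ
  obtain ⟨x0, hx0⟩ : ∃ x0 : ZMod p, x0 = -(((h i0 : ℤ) : ZMod p)) / ((a i0 : ℤ) : ZMod p) := ⟨_, rfl⟩
  have hroot : ((a i0 : ℤ) : ZMod p) * x0 + ((h i0 : ℤ) : ZMod p) = 0 := by
    rw [hx0, mul_div_cancel₀ _ (ha i0)]
    ring
  obtain ⟨r, hr⟩ : ∃ r : (ZMod p)[X], r = ∏ i ∈ J.erase i0, (C ((a i : ℤ) : ZMod p) * X + C ((h i : ℤ) : ZMod p)) := ⟨_, rfl⟩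
  have hsplit : cf p a h J = (C ((a i0 : ℤ) : ZMod p) * X + C ((h i0 : ℤ) : ZMod p)) * r := by
    rw [hr, cf, mul_prod_erase J (fun i => C ((a i : ℤ) : ZMod p) * X + C ((h i : ℤ) : ZMod p)) hi0]
  have hr0 : r.eval x0 ≠ 0 := by
    rw [hr, eval_prod, prod_ne_zero_iff]
    intro k hk
    rw [mem_erase] at hk
    rw [eval_add, eval_mul, eval_X, eval_C, eval_C]
    intro h1
    apply hΔ
    refine dvd_trans ?_ (Del_pair hk.1.symm)
    rw [← ZMod.intCast_zmod_eq_zero_iff_dvd]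
    push_cast
    linear_combination ((a k : ℤ) : ZMod p) * hroot - ((a i0 : ℤ) : ZMod p) * h1
  have hc : c ≠ 0 := by
    rintro rfl
    have : cf p a h J ≠ 0 := by
      unfold cf
      rw [prod_ne_zero_iff]
      intro i _
      exact lin_ne (ha i)
    apply this
    rw [hcg]
    simp
  have hev : (cf p a h J).eval x0 = 0 := by
    rw [hsplit, eval_mul, eval_add, eval_mul, eval_X, eval_C, eval_C, hroot, zero_mul]
  have hg0 : g.eval x0 = 0 := by
    rw [hcg, eval_mul, eval_C, eval_pow] at hev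
    have h2 := (mul_eq_zero.1 hev).resolve_left hc
    exact pow_eq_zero_iff (two_ne_zero) |>.1 h2
  have hd1 : (derivative (cf p a h J)).eval x0 = ((a i0 : ℤ) : ZMod p) * r.eval x0 := by
    rw [hsplit, derivative_mul, eval_add, eval_mul, eval_mul, eval_add, eval_mul, eval_X, eval_C, eval_C, hroot, zero_mul,
      add_zero]
    simp
  have hd2 : (derivative (cf p a h J)).eval x0 = 0 := by
    rw [hcg, derivative_mul, derivative_C, zero_mul, zero_add, eval_mul, derivative_pow]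
    simp [hg0]
  rw [hd1] at hd2
  exact (mul_ne_zero (ha i0) hr0) hd2

lemma range_zmod {p : ℕ} [Fact p.Prime] (f : ZMod p → ℝ) : ∑ x ∈ range p, f (x : ZMod p) = ∑ x : ZMod p, f x := by
  refine sum_bij (fun x _ => (x : ZMod p)) (fun x _ => mem_univ _) ?_ ?_ (fun _ _ => rfl)
  · intro a ha b hb hab
    rw [mem_range] at ha hb
    have := (ZMod.natCast_eq_natCast_iff' a b p).1 hab
    rwa [Nat.mod_eq_of_lt ha, Nat.mod_eq_of_lt hb] at this
  · intro b _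
    exact ⟨b.val, mem_range.2 (ZMod.val_lt b), ZMod.natCast_zmod_val b⟩

/-- **Weil bound for a product of linear forms** -/
lemma weil_J {s p : ℕ} [Fact p.Prime] (hp2 : p ≠ 2) {a h : Fin s → ℤ} (ha : ∀ i, ¬ (p : ℤ) ∣ a i)
    (hΔ : ¬ (p : ℤ) ∣ Del a h) {J : Finset (Fin s)} (hJ : J.Nonempty) :
    |∑ x ∈ range p, ∏ i ∈ J, ((quadraticChar (ZMod p) (((a i * (x : ℤ) + h i : ℤ)) : ZMod p) : ℤ) : ℝ)| ≤ (s - 1) * √(p : ℝ) := by
  have ha' : ∀ i, ((a i : ℤ) : ZMod p) ≠ 0 := by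
    intro i hc
    exact ha i ((ZMod.intCast_zmod_eq_zero_iff_dvd _ _).1 hc)
  have hchar : ringChar (ZMod p) ≠ 2 := by
    rw [ZMod.ringChar_zmod_n]; exact hp2
  have h1 := Pool.Agent.H341R2.Sharp.weil_sharp hchar (cf p a h J)
    (by rw [cf_deg ha']; exact card_pos.2 hJ) (cf_ne_sq ha' hΔ hJ)
  rw [cf_deg ha', ZMod.card] at h1
  have h2 : ∑ x ∈ range p, ∏ i ∈ J, ((quadraticChar (ZMod p) (((a i * (x : ℤ) + h i : ℤ)) : ZMod p) : ℤ) : ℝ) =
      ∑ x : ZMod p, (quadraticChar (ZMod p) ((cf p a h J).eval x) : ℝ) := by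
    rw [← range_zmod (fun x => (quadraticChar (ZMod p) ((cf p a h J).eval x) : ℝ))]
    apply sum_congr rfl
    intro x _
    rw [cf, eval_prod, map_prod, Int.cast_prod]
    apply prod_congr rfl
    intro i _
    rw [eval_add, eval_mul, eval_X, eval_C, eval_C]
    push_cast
    rfl
  rw [h2]
  refine h1.trans ?_
  apply mul_le_mul_of_nonneg_right _ (Real.sqrt_nonneg _)
  have h3 : J.card ≤ s := by
    have := card_le_univ J
    rwa [Fintype.card_fin] at this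
  have : (J.card : ℝ) ≤ s := by exact_mod_cast h3
  linarith

lemma nuP_le_gen {s : ℕ} {a h : Fin s → ℤ} {p : ℕ} (hp : p.Prime) (ha : ∀ i, ¬ (p : ℤ) ∣ a i) : nuP a h p ≤ s := by
  unfold nuP
  have h1 : (range p).filter (fun x : ℕ => ∃ i, (p : ℤ) ∣ a i * x + h i) =
      univ.biUnion fun i => (range p).filter (fun x : ℕ => (p : ℤ) ∣ a i * x + h i) := by
    ext x
    simp only [mem_filter, mem_biUnion, mem_univ, true_and]
    constructor
    · rintro ⟨hx, i, hi⟩; exact ⟨i, hx, hi⟩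
    · rintro ⟨i, hx, hi⟩; exact ⟨hx, i, hi⟩
  rw [h1]
  refine card_biUnion_le.trans ((sum_le_sum fun i _ => (root_card hp (ha i)).le).trans ?_)
  simp

/-- **the local mean with the quadratic character** -/
lemma local_mean {s p : ℕ} [Fact p.Prime] (hs : 1 ≤ s) (hp2 : p ≠ 2) (hps : 2 * s ≤ p) {a h : Fin s → ℤ}
    (ha : ∀ i, ¬ (p : ℤ) ∣ a i) (hΔ : ¬ (p : ℤ) ∣ Del a h) {J : Finset (Fin s)} (hJ : J.Nonempty) :
    ‖mn p (fun x => ((∏ i, (1 + up p (a i * x + h i)) : ℝ) : ℂ) *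
      ∏ i ∈ J, ((quadraticChar (ZMod p) (((a i * x + h i : ℤ)) : ZMod p) : ℤ) : ℂ))‖ ≤
      4 * s / √(p : ℝ) * spp a h p := by
  have hp := (Fact.out : p.Prime)
  have hp0 : (0 : ℝ) < p := by exact_mod_cast hp.pos
  have hp1 : (1 : ℝ) ≤ p := by exact_mod_cast hp.one_lt.le
  have hsub := prime_sub hp
  have hsr : (1 : ℝ) ≤ s := by exact_mod_cast hs
  obtain ⟨q, hq⟩ : ∃ q : ℕ → ℝ, q = fun x : ℕ => ∏ i ∈ J, ((quadraticChar (ZMod p) (((a i * (x : ℤ) + h i : ℤ)) : ZMod p) : ℤ) : ℝ) :=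
    ⟨_, rfl⟩
  have hq1 : ∀ x, |q x| ≤ 1 := by
    intro x
    rw [hq]
    simp only
    rw [abs_prod]
    apply Finset.prod_le_one (fun _ _ => abs_nonneg _)
    intro i _
    rw [← Int.cast_abs]
    have : |quadraticChar (ZMod p) (((a i * (x : ℤ) + h i : ℤ)) : ZMod p)| ≤ 1 := by
      rcases quadraticChar_isQuadratic (ZMod p) (((a i * (x : ℤ) + h i : ℤ)) : ZMod p) with h1 | h1 | h1 <;> rw [h1] <;> simp
    exact_mod_cast this
  obtain ⟨B, hB⟩ : ∃ B : Finset ℕ, B = (range p).filter (fun x : ℕ => ∃ i, (p : ℤ) ∣ a i * x + h i) := ⟨_, rfl⟩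
  have hBc : (B.card : ℝ) = nuP a h p := by rw [hB]; rfl
  have hν : nuP a h p ≤ s := nuP_le_gen hp ha
  have hνr : (nuP a h p : ℝ) ≤ s := by exact_mod_cast hν
  obtain ⟨F, hF⟩ : ∃ F : ℝ, F = ((p : ℝ) / (p - 1)) ^ s := ⟨_, rfl⟩
  have hF0 : 0 ≤ F := by rw [hF]; positivity
  have h1 : mn p (fun x => ((∏ i, (1 + up p (a i * x + h i)) : ℝ) : ℂ) *
      ∏ i ∈ J, ((quadraticChar (ZMod p) (((a i * x + h i : ℤ)) : ZMod p) : ℤ) : ℂ)) =
      ((1 / (p : ℝ) * (F * (∑ x ∈ range p, q x - ∑ x ∈ B, q x)) : ℝ) : ℂ) := by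
    unfold mn
    have h2 : ∀ x ∈ range p, ((∏ i, (1 + up p (a i * (x : ℤ) + h i)) : ℝ) : ℂ) *
        ∏ i ∈ J, ((quadraticChar (ZMod p) (((a i * (x : ℤ) + h i : ℤ)) : ZMod p) : ℤ) : ℂ) =
        ((F * (q x - if ∃ i, (p : ℤ) ∣ a i * (x : ℤ) + h i then q x else 0) : ℝ) : ℂ) := by
      intro x _
      have h3 : ∏ i ∈ J, ((quadraticChar (ZMod p) (((a i * (x : ℤ) + h i : ℤ)) : ZMod p) : ℤ) : ℂ) = ((q x : ℝ) : ℂ) := by
        rw [hq]
        push_cast
        rfl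
      rw [h3, ← Complex.ofReal_mul]
      congr 1
      by_cases hx : ∃ i, (p : ℤ) ∣ a i * (x : ℤ) + h i
      · rw [if_pos hx, sub_self, mul_zero]
        obtain ⟨i, hi⟩ := hx
        rw [Finset.prod_eq_zero (mem_univ i), zero_mul]
        rw [one_add_up hp, if_pos hi]
      · rw [if_neg hx, sub_zero]
        push Not at hx
        congr 1
        rw [prod_congr rfl fun i _ => by rw [one_add_up hp, if_neg (hx i)], prod_const, card_univ, Fintype.card_fin, hF]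
    rw [sum_congr rfl h2, hB, sum_filter]
    push_cast
    rw [← mul_sum, sum_sub_distrib]
  rw [h1, Complex.norm_real, Real.norm_eq_abs, abs_mul, abs_mul, abs_of_nonneg hF0, abs_of_nonneg (by positivity)]
  have h4 : |∑ x ∈ range p, q x - ∑ x ∈ B, q x| ≤ 2 * s * √(p : ℝ) := by
    have h5 := weil_J hp2 ha hΔ hJ
    have h6 : ∑ x ∈ range p, ∏ i ∈ J, ((quadraticChar (ZMod p) (((a i * (x : ℤ) + h i : ℤ)) : ZMod p) : ℤ) : ℝ) =
        ∑ x ∈ range p, q x := by rw [hq]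
    rw [h6] at h5
    have h7 : |∑ x ∈ B, q x| ≤ s := by
      refine (abs_sum_le_sum_abs _ _).trans ((sum_le_sum fun x _ => hq1 x).trans ?_)
      rw [sum_const, nsmul_eq_mul, mul_one, hBc]
      exact hνr
    have h8 : 1 ≤ √(p : ℝ) := Real.one_le_sqrt.2 hp1
    refine (abs_sub _ _).trans ?_
    nlinarith
  rw [spp_eq a h hp]
  unfold facP
  rw [inv_fac hp, ← hF]
  have h9 : (1 : ℝ) / 2 ≤ 1 - (nuP a h p : ℝ) / p := by
    have : (nuP a h p : ℝ) / p ≤ 1 / 2 := by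
      rw [div_le_div_iff₀ hp0 (by norm_num)]
      have : (2 * s : ℝ) ≤ p := by exact_mod_cast hps
      linarith
    linarith
  have hsq : √(p : ℝ) * √(p : ℝ) = p := Real.mul_self_sqrt hp0.le
  have hs0 : 0 < √(p : ℝ) := Real.sqrt_pos.2 hp0
  calc 1 / (p : ℝ) * (F * |∑ x ∈ range p, q x - ∑ x ∈ B, q x|) ≤ 1 / (p : ℝ) * (F * (2 * s * √(p : ℝ))) := by gcongr
    _ = 4 * s / √(p : ℝ) * (1 / 2 * F) := by
      have : (1 : ℝ) / p = 1 / (√(p : ℝ) * √(p : ℝ)) := by rw [hsq]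
      rw [this]
      field_simp
      norm_num
    _ ≤ _ := by
      apply mul_le_mul_of_nonneg_left _ (by positivity)
      exact mul_le_mul_of_nonneg_right h9 hF0

end Pool.Agent.Helper86.XS
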