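import Pool.Agent.Helper86.XS.Y4
import Pool.Agent.Helper86.XS.Y2

set_option autoImplicit false

/-!
# The means attached to tuples containing an exceptional character
-/

open Finset

namespace Pool.Agent.Helper86.XS

open Pool.Agent.H807R2.Dav Pool.Agent.Helper86.PS

/-- the complete mean -/
noncomputable def FM {s : ℕ} (R : ℕ) (a h : Fin s → ℤ) (j : Fin s → PC) : ℂ :=
  mn (rr j * ∏ p ∈ TT R j, p) (fun x =>
    ((∏ p ∈ PR R, ∏ i, (1 + up p (a i * x + h i)) : ℝ) : ℂ) * ∏ i, cz (j i) (a i * x + h i))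

lemma mu_full {s : ℕ} (hs : 1 ≤ s) {Z : ℝ} (hZ : ∀ T : Finset ℕ, ∑ p ∈ T, (p : ℝ) ^ (-(3 / 2) : ℝ) ≤ Z)
    {a h : Fin s → ℤ} (ha : ∀ i, a i ≠ 0) (hΔ : Del a h ≠ 0) {Q R : ℕ} (hR : 1 ≤ R) {j : Fin s → PC} (hj : j ∈ FT_ s Q) :
    ‖mu R a h j‖ ≤ ‖FM R a h j‖ + tau s Q R (∏ i, (a i).natAbs) Z (Del a h).natAbs := by
  obtain ⟨m, hm⟩ : ∃ m : ℕ, m = rr j * ∏ p ∈ TT R j, p := ⟨_, rfl⟩
  have hm0 : 0 < m := by
    rw [hm]; exact Nat.mul_pos (rr_pos j) (Finset.prod_pos fun p hp => (TT_prime p hp).pos)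
  have hPm : ∀ p ∈ PR R, p ∣ m := by
    intro p hp
    rw [hm]
    by_cases hpr : p ∣ rr j
    · exact Dvd.dvd.mul_right hpr _
    · apply Dvd.dvd.mul_left
      exact dvd_prod_of_mem _ (mem_filter.2 ⟨hp, hpr⟩)
  have hjm : ∀ i, (j i).1 + 1 ∣ m := by
    intro i
    rw [hm]
    exact Dvd.dvd.mul_right (dvd_prod_of_mem (fun i => (j i).1 + 1) (mem_univ i)) _
  have hgper : ∀ S ∈ PT s R, Per m (gg a h j S) := by
    intro S hS
    apply gg_per hjm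
    intro i p hp
    exact hPm p (mem_powerset.1 (Fintype.mem_piFinset.1 hS i) hp)
  have h1 : mu R a h j = ∑ S ∈ PT s R, mn m (gg a h j S) - ∑ S ∈ PT s R \ ST s R, mn m (gg a h j S) := by
    rw [eq_sub_iff_add_eq, ← sum_sdiff (ST_sub_PT s R), add_comm]
    congr 1
    unfold mu
    apply sum_congr rfl
    intro S hS
    have hSP := ST_sub_PT s R hS
    exact mn_two (gg_per_pp a h j S) (hgper S hSP) (pp_pos (PT_prime hSP)) hm0
  have h2 : ‖∑ S ∈ PT s R \ ST s R, mn m (gg a h j S)‖ ≤ tau s Q R (∏ i, (a i).natAbs) Z (Del a h).natAbs := by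
    refine (norm_sum_le _ _).trans ?_
    rw [hm]
    exact rankin hs hZ ha hΔ hR hj
  have h3 : ∑ S ∈ PT s R, mn m (gg a h j S) = FM R a h j := by
    unfold FM
    rw [← hm, ← mn_sum]
    congr 1
    ext x
    exact sum_PT R a h j x
  rw [h1]
  refine (norm_sub_le _ _).trans (add_le_add ?_ h2)
  rw [h3]

lemma per_up {s : ℕ} (a h : Fin s → ℤ) (p : ℕ) : Per p (fun x => ((∏ i, (1 + up p (a i * x + h i)) : ℝ) : ℂ)) := by
  intro x y hxy
  simp only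
  congr 1
  apply prod_congr rfl
  intro i _
  have : up p (a i * x + h i) = up p (a i * y + h i) := by
    apply up_per'
    have e : a i * x + h i - (a i * y + h i) = a i * (x - y) := by ring
    rw [e]
    exact Dvd.dvd.mul_left hxy _
  rw [this]

lemma mn_fullP {s : ℕ} {P : Finset ℕ} (hPp : ∀ p ∈ P, p.Prime) (a h : Fin s → ℤ) {m : ℕ} (hm : 0 < m) (hP : ∀ p ∈ P, p ∣ m) :
    mn m (fun x => ((∏ p ∈ P, ∏ i, (1 + up p (a i * x + h i)) : ℝ) : ℂ)) = ((∏ p ∈ P, spp a h p : ℝ) : ℂ) := by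
  obtain ⟨φ, hφ⟩ : ∃ φ : ℕ → ℤ → ℂ, φ = fun p x => ((∏ i, (1 + up p (a i * x + h i)) : ℝ) : ℂ) := ⟨_, rfl⟩
  have h1 : (fun x : ℤ => ((∏ p ∈ P, ∏ i, (1 + up p (a i * x + h i)) : ℝ) : ℂ)) =
      fun x => (fun _ => (1 : ℂ)) x * ∏ p ∈ P, φ p x := by
    ext x
    rw [hφ]
    push_cast
    rw [one_mul]
  have hφp : ∀ p ∈ P, Per p (φ p) := by
    intro p _
    rw [hφ]
    exact per_up a h p
  have hper1 : Per m (fun x => (fun _ => (1 : ℂ)) x * ∏ p ∈ P, φ p x) := by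
    apply Per.mul (per_const m 1)
    apply Per.prod
    intro p hp
    exact (hφp p hp).mono (hP p hp)
  have hper2 : Per (1 * ∏ p ∈ P, p) (fun x => (fun _ => (1 : ℂ)) x * ∏ p ∈ P, φ p x) := by
    apply Per.mul (per_const _ 1)
    apply Per.prod
    intro p hp
    exact (hφp p hp).mono (dvd_mul_of_dvd_right (dvd_prod_of_mem _ hp) _)
  have hpos : 0 < 1 * ∏ p ∈ P, p := by
    rw [one_mul]
    exact Finset.prod_pos fun p hp => (hPp p hp).pos
  rw [h1, mn_two hper1 hper2 hm hpos, mn_primes hPp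
    (fun p hp => Nat.Prime.not_dvd_one (hPp p hp)) (per_const 1 1) hφp, mn_const one_pos, one_mul]
  push_cast
  apply prod_congr rfl
  intro p _
  rw [hφ]
  unfold mn spp
  push_cast
  rfl

lemma norm_mn_le {m : ℕ} {g : ℤ → ℂ} {f : ℤ → ℝ} (h : ∀ x, ‖g x‖ ≤ f x) : ‖mn m g‖ ≤ (mn m (fun x => ((f x : ℝ) : ℂ))).re := by
  have h1 : (mn m (fun x => ((f x : ℝ) : ℂ))).re = 1 / (m : ℝ) * ∑ x ∈ range m, f x := by
    unfold mn
    have : (1 / (m : ℂ) * ∑ x ∈ range m, ((f x : ℝ) : ℂ)) = ((1 / (m : ℝ) * ∑ x ∈ range m, f x : ℝ) : ℂ) := by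
      push_cast
      rfl
    rw [this, Complex.ofReal_re]
  rw [h1]
  unfold mn
  rw [norm_mul, norm_div, norm_one, Complex.norm_natCast]
  apply mul_le_mul_of_nonneg_left _ (by positivity)
  exact norm_sum_le_of_le _ fun x _ => h x

lemma char_split2 {n m p : ℕ} (hn : n = m * p) (hm : 0 < m) [Fact p.Prime] (hco : Nat.Coprime m p)
    (χ : DirichletCharacter ℂ n) (hχ : χ.IsPrimitive) (h2 : χ ^ 2 = 1) :
    ∃ ψ : ℤ → ℂ, (∀ x y : ℤ, (m : ℤ) ∣ x - y → ψ x = ψ y) ∧ (∀ x, ‖ψ x‖ ≤ 1) ∧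
      ∀ x : ℤ, χ ((x : ℤ) : ZMod n) = ψ x * ((quadraticChar (ZMod p) ((x : ℤ) : ZMod p) : ℤ) : ℂ) := by
  subst hn
  exact char_split hm hco χ hχ h2

open _root_.Classical in
/-- **the mean attached to a tuple containing the exceptional character** -/
theorem mean_X {s : ℕ} (hs : 1 ≤ s) {R p : ℕ} {a h : Fin s → ℤ} {j : Fin s → PC} {j1 : PC}
    (hj : ∀ i, j i = (⟨0, 1⟩ : PC) ∨ j i = j1) (hjex : ∃ i, j i = j1) (hprim : j1.2.IsPrimitive) (hreal : j1.2 ^ 2 = 1)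
    (hR : j1.1 + 1 ≤ R) (hp : p.Prime) (hp2 : p ≠ 2) (hps : 2 * s ≤ p) (hpr : p ∣ j1.1 + 1) (hpr2 : ¬ p ^ 2 ∣ j1.1 + 1)
    (ha : ∀ i, ¬ (p : ℤ) ∣ a i) (hΔ : ¬ (p : ℤ) ∣ Del a h) : ‖FM R a h j‖ ≤ 4 * s / √(p : ℝ) * SPR R a h := by
  have : Fact p.Prime := ⟨hp⟩
  obtain ⟨m, hm⟩ := hpr
  have hm0 : 0 < m := by
    rcases Nat.eq_zero_or_pos m with h0 | h0
    · rw [h0] at hm; omega
    · exact h0
  have hpm : ¬ p ∣ m := by
    rintro ⟨t, ht⟩
    apply hpr2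
    rw [hm, ht]
    exact ⟨t, by ring⟩
  have hco : Nat.Coprime m p := ((Nat.Prime.coprime_iff_not_dvd hp).2 hpm).symm
  have hmr : j1.1 + 1 = m * p := by rw [hm]; ring
  obtain ⟨ψ, hψ1, hψ2, hψ3⟩ := char_split2 hmr hm0 hco j1.2 hprim hreal
  have hczψ : ∀ x : ℤ, cz j1 x = (starRingEnd ℂ) (ψ x) * ((quadraticChar (ZMod p) ((x : ℤ) : ZMod p) : ℤ) : ℂ) := by
    intro x
    unfold cz fz
    rw [hψ3 x, map_mul, map_intCast]
  have hcz1 : ∀ x : ℤ, cz (⟨0, 1⟩ : PC) x = 1 := by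
    intro x
    unfold cz
    rw [fz_triv, map_one]
  obtain ⟨J, hJ⟩ : ∃ J : Finset (Fin s), J = univ.filter (fun i => j i = j1) := ⟨_, rfl⟩
  have hJne : J.Nonempty := by
    obtain ⟨i, hi⟩ := hjex
    exact ⟨i, by rw [hJ, mem_filter]; exact ⟨mem_univ i, hi⟩⟩
  have hprodcz : ∀ x : ℤ, ∏ i, cz (j i) (a i * x + h i) =
      (∏ i ∈ J, (starRingEnd ℂ) (ψ (a i * x + h i))) *
        ∏ i ∈ J, ((quadraticChar (ZMod p) (((a i * x + h i : ℤ)) : ZMod p) : ℤ) : ℂ) := by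
    intro x
    rw [← prod_mul_distrib, hJ, prod_filter]
    apply prod_congr rfl
    intro i _
    by_cases hi : j i = j1
    · rw [if_pos hi, hi, hczψ]
    · rw [if_neg hi, (hj i).resolve_right hi, hcz1]
  have hpR : p ∈ PR R := mem_PR.2 ⟨(Nat.le_of_dvd (Nat.succ_pos _) ⟨m, hm⟩).trans hR, hp⟩
  obtain ⟨P, hP⟩ : ∃ P : Finset ℕ, P = (PR R).erase p := ⟨_, rfl⟩
  have hPp : ∀ q ∈ P, q.Prime := by
    intro q hq
    rw [hP, mem_erase] at hq
    exact (mem_PR.1 hq.2).2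
  obtain ⟨m1, hm1⟩ : ∃ m1 : ℕ, m1 = m * ∏ q ∈ P, q := ⟨_, rfl⟩
  have hm10 : 0 < m1 := by rw [hm1]; exact Nat.mul_pos hm0 (Finset.prod_pos fun q hq => (hPp q hq).pos)
  have hco1 : Nat.Coprime m1 p := by
    rw [hm1]
    apply Nat.Coprime.mul_left hco
    apply Nat.Coprime.prod_left
    intro q hq
    apply (Nat.coprime_primes (hPp q hq) hp).2
    rintro rfl
    rw [hP] at hq
    exact (notMem_erase _ _) hq
  obtain ⟨Ψ, hΨ⟩ : ∃ Ψ : ℤ → ℂ, Ψ = fun x => ((∏ q ∈ P, ∏ i, (1 + up q (a i * x + h i)) : ℝ) : ℂ) *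
    ∏ i ∈ J, (starRingEnd ℂ) (ψ (a i * x + h i)) := ⟨_, rfl⟩
  obtain ⟨Φ, hΦ⟩ : ∃ Φ : ℤ → ℂ, Φ = fun x => ((∏ i, (1 + up p (a i * x + h i)) : ℝ) : ℂ) *
    ∏ i ∈ J, ((quadraticChar (ZMod p) (((a i * x + h i : ℤ)) : ZMod p) : ℤ) : ℂ) := ⟨_, rfl⟩
  have hG : (fun x : ℤ => ((∏ p ∈ PR R, ∏ i, (1 + up p (a i * x + h i)) : ℝ) : ℂ) * ∏ i, cz (j i) (a i * x + h i)) =
      fun x => Ψ x * Φ x := by
    ext x
    rw [hΨ, hΦ, hprodcz]
    simp only
    rw [← mul_prod_erase (PR R) _ hpR, ← hP, Complex.ofReal_mul]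
    ring
  have hΨper : Per m1 Ψ := by
    rw [hΨ]
    apply Per.mul
    · have h1 : (fun x : ℤ => ((∏ q ∈ P, ∏ i, (1 + up q (a i * x + h i)) : ℝ) : ℂ)) =
          fun x => ∏ q ∈ P, ((∏ i, (1 + up q (a i * x + h i)) : ℝ) : ℂ) := by
        ext x
        rw [Complex.ofReal_prod]
      rw [h1]
      apply Per.prod
      intro q hq
      apply (per_up a h q).mono
      rw [hm1]
      exact Dvd.dvd.mul_left (dvd_prod_of_mem _ hq) _
    · apply Per.prod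
      intro i _
      intro x y hxy
      simp only
      rw [hψ1 (a i * x + h i) (a i * y + h i)]
      have e : a i * x + h i - (a i * y + h i) = a i * (x - y) := by ring
      rw [e]
      apply Dvd.dvd.mul_left
      refine dvd_trans (Int.natCast_dvd_natCast.2 ?_) hxy
      rw [hm1]
      exact dvd_mul_right _ _
  have hΦper : Per p Φ := by
    rw [hΦ]
    apply Per.mul (per_up a h p)
    apply Per.prod
    intro i _
    intro x y hxy
    simp only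
    have : (((a i * x + h i : ℤ)) : ZMod p) = (((a i * y + h i : ℤ)) : ZMod p) := by
      symm
      rw [ZMod.intCast_eq_intCast_iff_dvd_sub]
      have e : a i * x + h i - (a i * y + h i) = a i * (x - y) := by ring
      rw [e]
      exact Dvd.dvd.mul_left hxy _
    rw [this]
  have hM0per : Per (rr j * ∏ p ∈ TT R j, p) (fun x => Ψ x * Φ x) := by
    rw [← hG]
    apply Per.mul
    · have h1 : (fun x : ℤ => ((∏ q ∈ PR R, ∏ i, (1 + up q (a i * x + h i)) : ℝ) : ℂ)) =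
          fun x => ∏ q ∈ PR R, ((∏ i, (1 + up q (a i * x + h i)) : ℝ) : ℂ) := by
        ext x
        rw [Complex.ofReal_prod]
      rw [h1]
      apply Per.prod
      intro q hq
      apply (per_up a h q).mono
      by_cases hqr : q ∣ rr j
      · exact Dvd.dvd.mul_right hqr _
      · apply Dvd.dvd.mul_left
        exact dvd_prod_of_mem _ (mem_filter.2 ⟨hq, hqr⟩)
    · apply Per.prod
      intro i _
      apply ((cz_per (j i)).mono _).comp
      exact Dvd.dvd.mul_right (dvd_prod_of_mem (fun i => (j i).1 + 1) (mem_univ i)) _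
  have hM1per : Per (m1 * p) (fun x => Ψ x * Φ x) :=
    Per.mul (hΨper.mono (dvd_mul_right _ _)) (hΦper.mono (dvd_mul_left _ _))
  have hM0pos : 0 < rr j * ∏ p ∈ TT R j, p := Nat.mul_pos (rr_pos j) (Finset.prod_pos fun p hp => (TT_prime p hp).pos)
  unfold FM
  rw [hG, mn_two hM0per hM1per hM0pos (Nat.mul_pos hm10 hp.pos), mn_crt hco1 hΨper hΦper, norm_mul]
  have hΨn : ‖mn m1 Ψ‖ ≤ ∏ q ∈ P, spp a h q := by
    have h1 := norm_mn_le (m := m1) (g := Ψ) (f := fun x => ∏ q ∈ P, ∏ i, (1 + up q (a i * x + h i))) (by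
      intro x
      have h0 : 0 ≤ ∏ q ∈ P, ∏ i, (1 + up q (a i * x + h i)) :=
        prod_nonneg fun q hq => prod_nonneg fun i _ => one_add_up_nonneg (hPp q hq) _
      rw [hΨ]
      simp only
      rw [norm_mul, Complex.norm_real, Real.norm_eq_abs, abs_of_nonneg h0, norm_prod]
      have h2 : ∏ i ∈ J, ‖(starRingEnd ℂ) (ψ (a i * x + h i))‖ ≤ 1 := by
        apply Finset.prod_le_one (fun _ _ => norm_nonneg _)
        intro i _
        rw [RCLike.norm_conj]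
        exact hψ2 _
      calc _ ≤ (∏ q ∈ P, ∏ i, (1 + up q (a i * x + h i))) * 1 := mul_le_mul_of_nonneg_left h2 h0
        _ = _ := mul_one _)
    rw [mn_fullP hPp a h hm10 (fun q hq => by rw [hm1]; exact Dvd.dvd.mul_left (dvd_prod_of_mem _ hq) _),
      Complex.ofReal_re] at h1
    exact h1
  have hΦn : ‖mn p Φ‖ ≤ 4 * s / √(p : ℝ) * spp a h p := by
    rw [hΦ]
    exact local_mean hs hp2 hps ha hΔ hJne
  have hSPR : SPR R a h = spp a h p * ∏ q ∈ P, spp a h q := by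
    unfold SPR
    rw [hP, mul_prod_erase (PR R) _ hpR]
  rw [hSPR]
  have h0 : 0 ≤ ∏ q ∈ P, spp a h q := (norm_nonneg _).trans hΨn
  calc ‖mn m1 Ψ‖ * ‖mn p Φ‖ ≤ (∏ q ∈ P, spp a h q) * (4 * s / √(p : ℝ) * spp a h p) :=
        mul_le_mul hΨn hΦn (norm_nonneg _) h0
    _ = _ := by ring

end Pool.Agent.Helper86.XS
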